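import Mathlib

/-!
A weak form of the second theorem of Minkowski for lattices generated by the rows of an invertible
real matrix.
-/

open MeasureTheory Metric Set Filter Matrix
open scoped ENNReal NNReal Topology InnerProductSpace

namespace Pool.Agent.LibInterm

/-- The combination of the rows of `B` with integer coefficients `a`. -/
noncomputable def zcomb {k : ℕ} (B : Matrix (Fin k) (Fin k) ℝ) (a : Fin k → ℤ) : Fin k → ℝ :=
  (fun j => (a j : ℝ)) ᵥ* B

/-- The same combination as a point of Euclidean space. -/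
noncomputable def zcombE {k : ℕ} (B : Matrix (Fin k) (Fin k) ℝ) (a : Fin k → ℤ) :
    EuclideanSpace ℝ (Fin k) :=
  WithLp.toLp 2 (zcomb B a)

theorem norm_zcomb_le {k : ℕ} (B : Matrix (Fin k) (Fin k) ℝ) (a : Fin k → ℤ) :
    ‖zcomb B a‖ ≤ ‖zcombE B a‖ := by
  rw [pi_norm_le_iff_of_nonneg (norm_nonneg _)]
  intro i
  exact PiLp.norm_apply_le (zcombE B a) i

theorem finite_zcomb_sup_le {k : ℕ} (B : Matrix (Fin k) (Fin k) ℝ) (hB : B.det ≠ 0) (R : ℝ) :
    {a : Fin k → ℤ | ‖zcomb B a‖ ≤ R}.Finite := by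
  have hunit : IsUnit B.det := isUnit_iff_ne_zero.2 hB
  set M : ℝ := ∑ i, ∑ j, |R| * |B⁻¹ i j| with hM
  have hMnn : 0 ≤ M := by positivity
  apply (Set.finite_Icc (fun _ => -⌈M⌉ : Fin k → ℤ) (fun _ => ⌈M⌉)).subset
  intro a ha
  have h1 : (fun j => (a j : ℝ)) = zcomb B a ᵥ* B⁻¹ := by
    rw [zcomb, Matrix.vecMul_vecMul, Matrix.mul_nonsing_inv B hunit, Matrix.vecMul_one]
  have hz : ∀ i, |zcomb B a i| ≤ |R| := by
    intro i
    have h2 : ‖zcomb B a i‖ ≤ ‖zcomb B a‖ := norm_le_pi_norm _ i
    rw [Real.norm_eq_abs] at h2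
    exact h2.trans ((show _ ≤ R from ha).trans (le_abs_self R))
  have h3 : ∀ j, |(a j : ℝ)| ≤ M := by
    intro j
    have h4 : (a j : ℝ) = ∑ i, zcomb B a i * B⁻¹ i j := by
      have := congrFun h1 j
      simpa [Matrix.vecMul, dotProduct] using this
    rw [h4]
    calc |∑ i, zcomb B a i * B⁻¹ i j| ≤ ∑ i, |zcomb B a i * B⁻¹ i j| :=
          Finset.abs_sum_le_sum_abs _ _
      _ ≤ ∑ i, |R| * |B⁻¹ i j| := by
          apply Finset.sum_le_sum
          intro i _
          rw [abs_mul]
          exact mul_le_mul_of_nonneg_right (hz i) (abs_nonneg _)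
      _ ≤ M := by
          rw [hM]
          apply Finset.sum_le_sum
          intro i _
          exact Finset.single_le_sum (f := fun j => |R| * |B⁻¹ i j|)
            (fun _ _ => by positivity) (Finset.mem_univ j)
  have h5 : ∀ j, |a j| ≤ ⌈M⌉ := by
    intro j
    have h6 := (h3 j).trans (Int.le_ceil M)
    exact_mod_cast h6
  exact ⟨fun j => (abs_le.1 (h5 j)).1, fun j => (abs_le.1 (h5 j)).2⟩

theorem finite_zcomb_le {k : ℕ} (B : Matrix (Fin k) (Fin k) ℝ) (hB : B.det ≠ 0) (R : ℝ) :
    {a : Fin k → ℤ | ‖zcombE B a‖ ≤ R}.Finite :=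
  (finite_zcomb_sup_le B hB R).subset (fun a ha => (norm_zcomb_le B a).trans ha)

theorem zcombE_single {k : ℕ} (B : Matrix (Fin k) (Fin k) ℝ) (i : Fin k) :
    zcombE B (Pi.single i 1) = WithLp.toLp 2 (B i) := by
  unfold zcombE zcomb
  congr 1
  have : (fun j => ((Pi.single i 1 : Fin k → ℤ) j : ℝ)) = Pi.single i 1 := by
    ext j
    by_cases h : j = i
    · subst h; simp
    · simp [h]
  rw [this, Matrix.single_one_vecMul]
  rfl

theorem exists_min_zcomb {k : ℕ} (B : Matrix (Fin k) (Fin k) ℝ) (hB : B.det ≠ 0)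
    (W : Submodule ℝ (EuclideanSpace ℝ (Fin k))) (hW : W ≠ ⊤) :
    ∃ a, zcombE B a ∉ W ∧ ∀ c, zcombE B c ∉ W → ‖zcombE B a‖ ≤ ‖zcombE B c‖ := by
  have hunit : IsUnit B.det := isUnit_iff_ne_zero.2 hB
  have hex : ∃ c, zcombE B c ∉ W := by
    by_contra hcon
    push_neg at hcon
    apply hW
    rw [eq_top_iff]
    intro x _
    have h1 : x = ∑ i, (x.ofLp ᵥ* B⁻¹) i • (WithLp.toLp 2 (B i) : EuclideanSpace ℝ (Fin k)) := by
      have h2 : x.ofLp = (x.ofLp ᵥ* B⁻¹) ᵥ* B := by
        rw [Matrix.vecMul_vecMul, Matrix.nonsing_inv_mul B hunit, Matrix.vecMul_one]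
      ext j
      conv_lhs => rw [h2]
      simp [Matrix.vecMul, dotProduct]
    rw [h1]
    apply Submodule.sum_mem
    intro i _
    apply Submodule.smul_mem
    rw [← zcombE_single]
    exact hcon _
  obtain ⟨c0, hc0⟩ := hex
  have hfin : {c | zcombE B c ∉ W ∧ ‖zcombE B c‖ ≤ ‖zcombE B c0‖}.Finite :=
    (finite_zcomb_le B hB ‖zcombE B c0‖).subset (fun c hc => hc.2)
  obtain ⟨a, ha, hmin⟩ := Set.exists_min_image _ (fun c => ‖zcombE B c‖) hfin ⟨c0, hc0, le_rfl⟩
  refine ⟨a, ha.1, fun c hc => ?_⟩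
  by_cases h : ‖zcombE B c‖ ≤ ‖zcombE B c0‖
  · exact hmin c ⟨hc, h⟩
  · exact ha.2.trans (not_le.1 h).le

theorem exists_minima {k : ℕ} (B : Matrix (Fin k) (Fin k) ℝ) (hB : B.det ≠ 0) (i : ℕ)
    (hi : i ≤ k) : ∃ a : Fin i → Fin k → ℤ, LinearIndependent ℝ (fun j => zcombE B (a j)) ∧
      ∀ (j : Fin i) (c : Fin k → ℤ),
        zcombE B c ∉ Submodule.span ℝ ((fun l => zcombE B (a l)) '' {l | l < j}) →
          ‖zcombE B (a j)‖ ≤ ‖zcombE B c‖ := by
  induction i with
  | zero =>
    refine ⟨fun j => Fin.elim0 j, ?_, fun j => Fin.elim0 j⟩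
    exact linearIndependent_empty_type
  | succ i ih =>
    obtain ⟨a, hli, hmin⟩ := ih (by omega)
    set W := Submodule.span ℝ (Set.range (fun j => zcombE B (a j))) with hW
    have hWtop : W ≠ ⊤ := by
      intro h
      have h1 : Module.finrank ℝ W = i := by
        rw [hW, finrank_span_eq_card hli, Fintype.card_fin]
      rw [h, finrank_top, finrank_euclideanSpace_fin] at h1
      omega
    obtain ⟨b, hb, hbmin⟩ := exists_min_zcomb B hB W hWtop
    refine ⟨Fin.snoc a b, ?_, ?_⟩
    · have h2 : (fun j => zcombE B ((Fin.snoc a b : Fin (i + 1) → Fin k → ℤ) j)) =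
          Fin.snoc (fun j => zcombE B (a j)) (zcombE B b) := by
        ext1 j
        refine Fin.lastCases ?_ (fun j => ?_) j
        · simp
        · simp
      rw [h2, linearIndependent_finSnoc]
      exact ⟨hli, hb⟩
    · intro j c hc
      refine Fin.lastCases (fun hc => ?_) (fun j hc => ?_) j hc
      · simp only [Fin.snoc_last]
        apply hbmin
        intro h
        apply hc
        refine Submodule.span_mono ?_ h
        rintro _ ⟨l, rfl⟩
        refine ⟨l.castSucc, Fin.castSucc_lt_last l, ?_⟩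
        simp
      · simp only [Fin.snoc_castSucc]
        apply hmin j
        intro h
        apply hc
        refine Submodule.span_mono ?_ h
        rintro _ ⟨l, hl, rfl⟩
        refine ⟨l.castSucc, ?_, ?_⟩
        · exact Fin.castSucc_lt_castSucc_iff.2 hl
        · simp

/-- Weak form of the second theorem of Minkowski: there are linearly independent integer
combinations of the rows of `B` with product of norms at most `k ^ (k / 2) |det B|`. -/
theorem weak_minkowski_second {k : ℕ} (B : Matrix (Fin k) (Fin k) ℝ) (hB : B.det ≠ 0) :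
    ∃ a : Fin k → Fin k → ℤ, LinearIndependent ℝ (fun i => zcomb B (a i)) ∧
      ∏ i, ‖zcomb B (a i)‖ ≤ Real.sqrt k ^ k * |B.det| := by
  obtain ⟨a, hli, hmin⟩ := exists_minima B hB k le_rfl
  have hlin : LinearIndependent ℝ (fun i => zcomb B (a i)) := by
    have h1 : (fun i => zcombE B (a i)) =
        (WithLp.linearEquiv 2 ℝ (Fin k → ℝ)).symm ∘ (fun i => zcomb B (a i)) := rfl
    rw [h1] at hli
    exact (LinearMap.linearIndependent_iff _ (LinearEquiv.ker _)).1 hli
  refine ⟨a, hlin, ?_⟩
  rcases Nat.eq_zero_or_pos k with hk0 | hkpos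
  · subst hk0
    simp
  have hkR : (0 : ℝ) < k := by exact_mod_cast hkpos
  have hsq : 0 < Real.sqrt k := Real.sqrt_pos.2 hkR
  set f : Fin k → EuclideanSpace ℝ (Fin k) := fun j => zcombE B (a j) with hf
  set lam : Fin k → ℝ := fun j => ‖f j‖ with hlam
  have hlampos : ∀ j, 0 < lam j := fun j => norm_pos_iff.2 (hli.ne_zero j)
  have hlammono : ∀ j i : Fin k, j ≤ i → lam j ≤ lam i := by
    intro j i hji
    apply hmin j (a i)
    intro h
    have h2 := hli.notMem_span_image (s := {l | l < j}) (x := i) (by simpa using hji)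
    exact h2 h
  have hcard : Module.finrank ℝ (EuclideanSpace ℝ (Fin k)) = Fintype.card (Fin k) := by simp
  set e := InnerProductSpace.gramSchmidtOrthonormalBasis hcard f with he
  -- the lattice
  set b := basisOfLinearIndependentOfCardEqFinrank' (K := ℝ) (fun i => B i)
    (Matrix.linearIndependent_rows_iff_isUnit.2
      ((Matrix.isUnit_iff_isUnit_det B).2 (isUnit_iff_ne_zero.2 hB))) (by simp) with hb
  have hbcoe : ∀ i, b i = B i := by
    intro i
    exact congrFun (coe_basisOfLinearIndependentOfCardEqFinrank' _ _ _) i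
  have hfund := ZSpan.isAddFundamentalDomain' b volume
  have hvolF : volume (ZSpan.fundamentalDomain b) = ENNReal.ofReal |B.det| := by
    rw [ZSpan.volume_fundamentalDomain]
    congr 3
    ext i j
    simp [hbcoe]
  -- the box
  set φ : (Fin k → ℝ) →ₗ[ℝ] (Fin k → ℝ) :=
    (WithLp.linearEquiv 2 ℝ (Fin k → ℝ)).toLinearMap ∘ₗ e.repr.toLinearEquiv.toLinearMap ∘ₗ
      (WithLp.linearEquiv 2 ℝ (Fin k → ℝ)).symm.toLinearMap with hφ
  have hφapp : ∀ x j, φ x j = ⟪e j, (WithLp.toLp 2 x : EuclideanSpace ℝ (Fin k))⟫_ℝ := by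
    intro x j
    rw [← OrthonormalBasis.repr_apply_apply]
    rfl
  have hφmp : MeasurePreserving φ volume volume := by
    exact (PiLp.volume_preserving_ofLp (Fin k)).comp
      (e.measurePreserving_repr.comp (PiLp.volume_preserving_toLp (Fin k)))
  set Box : Set (Fin k → ℝ) :=
    Set.pi univ (fun j => Ioo (-(lam j / Real.sqrt k)) (lam j / Real.sqrt k)) with hBox
  have hBoxmeas : MeasurableSet Box := MeasurableSet.univ_pi (fun _ => measurableSet_Ioo)
  have hvolS : volume (φ ⁻¹' Box) = ENNReal.ofReal (∏ j, (2 * (lam j / Real.sqrt k))) := by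
    rw [hφmp.measure_preimage hBoxmeas.nullMeasurableSet, hBox, volume_pi_pi,
      ENNReal.ofReal_prod_of_nonneg]
    · apply Finset.prod_congr rfl
      intro j _
      rw [Real.volume_Ioo]
      congr 1
      ring
    · intro j _
      have := hlampos j
      positivity
  have hprodle : ∏ i, ‖zcomb B (a i)‖ ≤ ∏ i, lam i :=
    Finset.prod_le_prod (fun _ _ => norm_nonneg _) (fun i _ => norm_zcomb_le B (a i))
  refine hprodle.trans ?_
  by_contra hcon
  push_neg at hcon
  have hlt : volume (ZSpan.fundamentalDomain b) * 2 ^ Module.finrank ℝ (Fin k → ℝ) <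
      volume (φ ⁻¹' Box) := by
    rw [hvolF, hvolS, Module.finrank_fin_fun, show (2 : ℝ≥0∞) = ENNReal.ofReal 2 by simp,
      ← ENNReal.ofReal_pow (by norm_num), ← ENNReal.ofReal_mul (abs_nonneg _)]
    have hPpos : 0 < ∏ j, (2 * (lam j / Real.sqrt k)) :=
      Finset.prod_pos (fun j _ => by have := hlampos j; positivity)
    rw [ENNReal.ofReal_lt_ofReal_iff hPpos]
    rw [Finset.prod_mul_distrib, Finset.prod_div_distrib, Finset.prod_const, Finset.prod_const,
      Finset.card_univ, Fintype.card_fin]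
    rw [mul_comm]
    apply mul_lt_mul_of_pos_left _ (by positivity)
    rw [lt_div_iff₀ (by positivity), mul_comm]
    exact hcon
  haveI : Countable (Submodule.span ℤ (Set.range b)).toAddSubgroup :=
    inferInstanceAs (Countable (Submodule.span ℤ (Set.range b)))
  obtain ⟨x, hx0, hxS⟩ := exists_ne_zero_mem_lattice_of_measure_mul_two_pow_lt_measure hfund
    (s := φ ⁻¹' Box) (by
      intro x hx
      rw [Set.mem_preimage, hBox, Set.mem_pi] at hx ⊢
      intro j _
      have h1 := hx j (Set.mem_univ j)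
      rw [map_neg, Pi.neg_apply]
      simp only [Set.mem_Ioo] at h1 ⊢
      constructor <;> linarith [h1.1, h1.2])
    ((convex_pi (fun j _ => convex_Ioo _ _)).linear_preimage φ) hlt
  have hxL : (x : Fin k → ℝ) ∈ Submodule.span ℤ (Set.range b) := x.2
  obtain ⟨c, hc⟩ := (Submodule.mem_span_range_iff_exists_fun ℤ).1 hxL
  have hxc : zcomb B c = x := by
    rw [← hc]
    ext j
    simp [zcomb, Matrix.vecMul, dotProduct, hbcoe]
  set v := zcombE B c with hv
  have hv0 : v ≠ 0 := by
    intro h
    apply hx0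
    have h1 : zcomb B c = 0 := by
      have h2 := congrArg WithLp.ofLp h
      simpa [hv, zcombE] using h2
    rw [hxc] at h1
    exact Subtype.ext h1
  have hcoord : ∀ j, |⟪e j, v⟫_ℝ| < lam j / Real.sqrt k := by
    intro j
    have h1 := hxS
    rw [Set.mem_preimage, hBox, Set.mem_pi] at h1
    have h2 := h1 j (Set.mem_univ j)
    simp only [Set.mem_Ioo] at h2
    rw [← hxc, hφapp] at h2
    exact abs_lt.2 h2
  have hne : (Finset.univ.filter (fun j => ⟪e j, v⟫_ℝ ≠ 0)).Nonempty := by
    by_contra hcon2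
    rw [Finset.not_nonempty_iff_eq_empty, Finset.filter_eq_empty_iff] at hcon2
    apply hv0
    have h1 := e.sum_sq_norm_inner_right v
    rw [Finset.sum_eq_zero (fun j _ => ?_)] at h1
    · have h2 : ‖v‖ = 0 := by
        have := h1.symm
        exact pow_eq_zero_iff (two_ne_zero) |>.1 this
      exact norm_eq_zero.1 h2
    · have := hcon2 (Finset.mem_univ j)
      push_neg at this
      rw [this]
      simp
  set i := (Finset.univ.filter (fun j => ⟪e j, v⟫_ℝ ≠ 0)).max' hne with hi
  have hi0 : ⟪e i, v⟫_ℝ ≠ 0 := by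
    have := Finset.max'_mem _ hne
    rw [← hi] at this
    exact (Finset.mem_filter.1 this).2
  have hi1 : ∀ j, i < j → ⟪e j, v⟫_ℝ = 0 := by
    intro j hj
    by_contra h
    have h1 := Finset.le_max' (Finset.univ.filter (fun j => ⟪e j, v⟫_ℝ ≠ 0)) j
      (by simpa using h)
    rw [← hi] at h1
    exact absurd hj (not_lt.2 h1)
  have hle : lam i ≤ ‖v‖ := by
    apply hmin i c
    intro hmem
    apply hi0
    have h2 : ∀ y ∈ Submodule.span ℝ ((fun l => zcombE B (a l)) '' {l | l < i}),
        ⟪e i, y⟫_ℝ = 0 := by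
      intro y hy
      induction hy using Submodule.span_induction with
      | mem y hy =>
        obtain ⟨l, hl, rfl⟩ := hy
        exact InnerProductSpace.gramSchmidtOrthonormalBasis_inv_triangular hcard f hl
      | zero => simp
      | add y1 y2 _ _ h1 h2 => rw [inner_add_right, h1, h2, add_zero]
      | smul t y _ h1 => rw [inner_smul_right, h1, mul_zero]
    exact h2 v hmem
  have hsum : ‖v‖ ^ 2 < lam i ^ 2 := by
    rw [← e.sum_sq_norm_inner_right v]
    calc ∑ j, ‖⟪e j, v⟫_ℝ‖ ^ 2 < ∑ _j : Fin k, lam i ^ 2 / k := by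
          apply Finset.sum_lt_sum_of_nonempty
          · exact ⟨i, Finset.mem_univ i⟩
          · intro j _
            rcases le_or_gt j i with hji | hji
            · have h3 := hcoord j
              have h4 : lam j / Real.sqrt k ≤ lam i / Real.sqrt k := by
                apply div_le_div_of_nonneg_right (hlammono j i hji) hsq.le
              have h5 : ‖⟪e j, v⟫_ℝ‖ < lam i / Real.sqrt k := by
                rw [Real.norm_eq_abs]
                exact lt_of_lt_of_le h3 h4
              calc ‖⟪e j, v⟫_ℝ‖ ^ 2 < (lam i / Real.sqrt k) ^ 2 :=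
                    pow_lt_pow_left₀ h5 (norm_nonneg _) two_ne_zero
                _ = lam i ^ 2 / k := by
                    rw [div_pow, Real.sq_sqrt hkR.le]
            · rw [hi1 j hji]
              have := hlampos i
              simp only [norm_zero, ne_eq, OfNat.ofNat_ne_zero, not_false_eq_true, zero_pow]
              positivity
      _ = lam i ^ 2 := by
          rw [Finset.sum_const, Finset.card_univ, Fintype.card_fin, nsmul_eq_mul]
          field_simp
  have := pow_le_pow_left₀ (hlampos i).le hle 2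
  linarith

end Pool.Agent.LibInterm
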