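import Mathlib
import Pool.Agent.LibInterm.Minkowski2

/-!
A lattice without short vectors has bounded covering radius.
-/

open MeasureTheory Metric Set Filter Matrix
open scoped ENNReal NNReal Topology

namespace Pool.Agent.LibInterm

theorem zcomb_sub {k : ℕ} (B : Matrix (Fin k) (Fin k) ℝ) (a c : Fin k → ℤ) :
    zcomb B (a - c) = zcomb B a - zcomb B c := by
  unfold zcomb
  rw [← Matrix.sub_vecMul]
  congr 1
  ext j
  simp

theorem covering_radius {k : ℕ} (hk : 0 < k) (B : Matrix (Fin k) (Fin k) ℝ) (hB : B.det ≠ 0)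
    {ε : ℝ} (hε : 0 < ε) (hmin : ∀ a : Fin k → ℤ, a ≠ 0 → ε ≤ ‖zcomb B a‖) (t : Fin k → ℝ) :
    ∃ a : Fin k → ℤ, ‖t - zcomb B a‖ ≤ |B.det| / ε ^ k * ε := by
  -- a nearest lattice point
  have hfin : {a : Fin k → ℤ | ‖t - zcomb B a‖ ≤ ‖t‖}.Finite := by
    apply (finite_zcomb_sup_le B hB (2 * ‖t‖)).subset
    intro a ha
    have h1 : ‖zcomb B a‖ = ‖t - (t - zcomb B a)‖ := by congr 1; abel
    have h2 : ‖t - zcomb B a‖ ≤ ‖t‖ := ha
    change ‖zcomb B a‖ ≤ 2 * ‖t‖
    rw [h1]
    calc ‖t - (t - zcomb B a)‖ ≤ ‖t‖ + ‖t - zcomb B a‖ := norm_sub_le _ _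
      _ ≤ 2 * ‖t‖ := by linarith
  have hz0 : zcomb B 0 = 0 := by
    unfold zcomb
    have : (fun j : Fin k => (((0 : Fin k → ℤ) j : ℤ) : ℝ)) = 0 := by
      ext j
      simp
    rw [this, Matrix.zero_vecMul]
  obtain ⟨a, ha, hamin⟩ := Set.exists_min_image _ (fun c => ‖t - zcomb B c‖) hfin
    ⟨0, by simp [hz0]⟩
  have hamin' : ∀ c, ‖t - zcomb B a‖ ≤ ‖t - zcomb B c‖ := by
    intro c
    by_cases h : ‖t - zcomb B c‖ ≤ ‖t‖
    · exact hamin c h
    · exact ha.trans (not_le.1 h).le
  refine ⟨a, ?_⟩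
  set y := t - zcomb B a with hy
  set D := ‖y‖ with hD
  have hDmin : ∀ c : Fin k → ℤ, D ≤ ‖y - zcomb B c‖ := by
    intro c
    have h1 := hamin' (a + c)
    have h2 : t - zcomb B (a + c) = y - zcomb B c := by
      have h3 : zcomb B (a + c) = zcomb B a + zcomb B c := by
        unfold zcomb
        rw [← Matrix.add_vecMul]
        congr 1
        ext j
        simp
      rw [h3, hy]
      abel
    rw [h2] at h1
    exact h1
  rcases (norm_nonneg y).eq_or_lt with h0 | hDpos
  · rw [← hD] at h0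
    rw [← h0]
    positivity
  rw [← hD] at hDpos
  by_contra hcon
  push_neg at hcon
  -- the balls
  set M : ℕ := ⌊D / ε⌋₊ with hM
  have hMD : (M : ℝ) * ε ≤ D := by
    have := Nat.floor_le (show 0 ≤ D / ε by positivity)
    rw [← hM, le_div_iff₀ hε] at this
    exact this
  have hMlt : D < (M + 1) * ε := by
    have := Nat.lt_floor_add_one (D / ε)
    rw [← hM, div_lt_iff₀ hε] at this
    exact this
  set cen : ℕ → (Fin k → ℝ) := fun j => ((j : ℝ) * ε / D) • y with hcen
  set S : Set (Fin k → ℝ) := ⋃ j ∈ Finset.range (M + 1), ball (cen j) (ε / 2) with hS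
  -- distance from multiples of `y` to lattice points
  have hdist : ∀ s : ℝ, 0 ≤ s → s ≤ 1 → ∀ c : Fin k → ℤ, s * D ≤ ‖s • y - zcomb B c‖ := by
    intro s hs0 hs1 c
    have h1 := hDmin c
    have h2 : ‖y - zcomb B c‖ ≤ ‖s • y - zcomb B c‖ + (1 - s) * D := by
      calc ‖y - zcomb B c‖ = ‖(s • y - zcomb B c) + (1 - s) • y‖ := by
            congr 1
            rw [sub_smul, one_smul]
            abel
        _ ≤ ‖s • y - zcomb B c‖ + ‖(1 - s) • y‖ := norm_add_le _ _
        _ = _ := by
            rw [norm_smul, Real.norm_eq_abs, abs_of_nonneg (by linarith)]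
    linarith
  have hkey : ∀ i j : ℕ, i ≤ M → j ≤ i → ∀ c : Fin k → ℤ, (i ≠ j ∨ c ≠ 0) →
      ε ≤ ‖cen i - cen j - zcomb B c‖ := by
    intro i j hi hj c hor
    have h1 : cen i - cen j = (((i : ℝ) - j) * ε / D) • y := by
      simp only [hcen]
      rw [← sub_smul]
      congr 1
      ring
    rcases hj.eq_or_lt with hij | hij
    · have hc : c ≠ 0 := by
        rcases hor with h | h
        · exact absurd hij.symm h
        · exact h
      rw [h1, hij]
      simp only [sub_self, zero_mul, zero_div, zero_smul, zero_sub, norm_neg]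
      exact hmin c hc
    · have h2 : (1 : ℝ) ≤ (i : ℝ) - j := by
        have : (j : ℝ) + 1 ≤ i := by exact_mod_cast hij
        linarith
      have hiM : (i : ℝ) ≤ M := by exact_mod_cast hi
      have hj0 : (0 : ℝ) ≤ j := Nat.cast_nonneg j
      have h3 := hdist (((i : ℝ) - j) * ε / D) (by positivity)
        (by
          rw [div_le_one hDpos]
          nlinarith) c
      rw [div_mul_cancel₀ _ hDpos.ne'] at h3
      rw [h1]
      nlinarith
  have hkey' : ∀ i j : ℕ, i ≤ M → j ≤ M → ∀ c : Fin k → ℤ, (i ≠ j ∨ c ≠ 0) →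
      ε ≤ ‖cen i - cen j - zcomb B c‖ := by
    intro i j hi hj c hor
    rcases le_total j i with hij | hij
    · exact hkey i j hi hij c hor
    · have h1 : cen i - cen j - zcomb B c = -(cen j - cen i - zcomb B (-c)) := by
        have h2 : zcomb B (-c) = - zcomb B c := by
          have := zcomb_sub B 0 c
          rw [zero_sub, hz0, zero_sub] at this
          exact this
        rw [h2]
        abel
      rw [h1, norm_neg]
      apply hkey j i hj hij
      rcases hor with h | h
      · exact Or.inl h.symm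
      · exact Or.inr (neg_ne_zero.2 h)
  have hvolS : volume S = ENNReal.ofReal ((M + 1) * ε ^ k) := by
    rw [hS, measure_biUnion_finset]
    · have h1 : ∀ j ∈ Finset.range (M + 1), volume (ball (cen j) (ε / 2)) =
          ENNReal.ofReal (ε ^ k) := by
        intro j _
        rw [Real.volume_pi_ball _ (by positivity), Fintype.card_fin]
        congr 2
        ring
      rw [Finset.sum_congr rfl h1, Finset.sum_const, Finset.card_range, nsmul_eq_mul,
        ENNReal.ofReal_mul (by positivity)]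
      congr 1
      rw [show ((M : ℝ) + 1) = ((M + 1 : ℕ) : ℝ) by push_cast; ring, ENNReal.ofReal_natCast]
    · intro i hi j hj hij
      rw [Function.onFun, Set.disjoint_left]
      intro x hx1 hx2
      have h1 := hkey' i j (by simpa [Nat.lt_succ_iff] using hi)
        (by simpa [Nat.lt_succ_iff] using hj) 0 (Or.inl hij)
      rw [hz0, sub_zero] at h1
      rw [mem_ball, dist_eq_norm] at hx1 hx2
      have h2 : ‖cen i - cen j‖ < ε := by
        calc ‖cen i - cen j‖ = ‖(x - cen j) - (x - cen i)‖ := by congr 1; abel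
          _ ≤ ‖x - cen j‖ + ‖x - cen i‖ := norm_sub_le _ _
          _ < ε := by linarith
      linarith
    · intro j _
      exact measurableSet_ball
  have hSmeas : MeasurableSet S := by
    rw [hS]
    exact Finset.measurableSet_biUnion _ (fun j _ => measurableSet_ball)
  -- the lattice
  set b := basisOfLinearIndependentOfCardEqFinrank' (K := ℝ) (fun i => B i)
    (Matrix.linearIndependent_rows_iff_isUnit.2
      ((Matrix.isUnit_iff_isUnit_det B).2 (isUnit_iff_ne_zero.2 hB))) (by simp) with hb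
  have hbcoe : ∀ i, b i = B i := by
    intro i
    exact congrFun (coe_basisOfLinearIndependentOfCardEqFinrank' _ _ _) i
  have hfund := ZSpan.isAddFundamentalDomain' b volume
  have hvolF : volume (ZSpan.fundamentalDomain b) = ENNReal.ofReal |B.det| := by
    rw [ZSpan.volume_fundamentalDomain]
    congr 3
    ext i j
    simp [hbcoe]
  have hlt : volume (ZSpan.fundamentalDomain b) < volume S := by
    rw [hvolF, hvolS, ENNReal.ofReal_lt_ofReal_iff (by positivity)]
    have h1 : |B.det| / ε ^ k * ε < (M + 1) * ε := hcon.trans hMlt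
    have h2 : |B.det| / ε ^ k < M + 1 := lt_of_mul_lt_mul_right h1 hε.le
    rw [div_lt_iff₀ (by positivity)] at h2
    exact h2
  haveI : Countable (Submodule.span ℤ (Set.range b)).toAddSubgroup :=
    inferInstanceAs (Countable (Submodule.span ℤ (Set.range b)))
  obtain ⟨x1, x2, hne, hnd⟩ := exists_pair_mem_lattice_not_disjoint_vadd hfund
    hSmeas.nullMeasurableSet hlt
  have hxL : ∀ x : (Submodule.span ℤ (Set.range b)).toAddSubgroup,
      ∃ c : Fin k → ℤ, zcomb B c = x := by
    intro x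
    have hx : (x : Fin k → ℝ) ∈ Submodule.span ℤ (Set.range b) := x.2
    obtain ⟨c, hc⟩ := (Submodule.mem_span_range_iff_exists_fun ℤ).1 hx
    refine ⟨c, ?_⟩
    rw [← hc]
    ext j
    simp [zcomb, Matrix.vecMul, dotProduct, hbcoe]
  obtain ⟨c1, hc1⟩ := hxL x1
  obtain ⟨c2, hc2⟩ := hxL x2
  rw [Set.not_disjoint_iff] at hnd
  obtain ⟨z, ⟨s1, hs1, hz1⟩, ⟨s2, hs2, hz2⟩⟩ := hnd
  have hz1' : z = zcomb B c1 + s1 := by
    rw [← hz1, hc1]
    rfl
  have hz2' : z = zcomb B c2 + s2 := by
    rw [← hz2, hc2]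
    rfl
  rw [hS] at hs1 hs2
  simp only [Finset.mem_range, Set.mem_iUnion] at hs1 hs2
  obtain ⟨i, hi, hs1⟩ := hs1
  obtain ⟨j, hj, hs2⟩ := hs2
  have hc12 : c2 - c1 ≠ 0 := by
    intro h
    apply hne
    have h1 : c2 = c1 := sub_eq_zero.1 h
    apply Subtype.ext
    rw [← hc1, ← hc2, h1]
  have h1 := hkey' i j (by omega) (by omega) (c2 - c1) (Or.inr hc12)
  rw [mem_ball, dist_eq_norm] at hs1 hs2
  have h2 : cen i - cen j - zcomb B (c2 - c1) = (s2 - cen j) - (s1 - cen i) := by
    rw [zcomb_sub]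
    have h3 : zcomb B c2 - zcomb B c1 = s1 - s2 := by
      have h4 : zcomb B c1 + s1 = zcomb B c2 + s2 := hz1'.symm.trans hz2'
      rw [sub_eq_sub_iff_add_eq_add, ← h4, add_comm]
    rw [h3]
    abel
  rw [h2] at h1
  have h5 := norm_sub_le (s2 - cen j) (s1 - cen i)
  linarith

end Pool.Agent.LibInterm
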