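import Mathlib
import Pool.Agent.LibInterm.CoverRadius

/-!
Almost every point has infinitely many balanced scales.
-/

open MeasureTheory Metric Set Filter Matrix
open scoped ENNReal NNReal Topology

namespace Pool.Agent.LibInterm

/-- The matrix whose rows generate the unimodular lattice attached to `θ` at the scale `Q`. -/
noncomputable def Bmat {n : ℕ} (Q : ℝ) (θ : Fin n → ℝ) : Matrix (Fin (n + 1)) (Fin (n + 1)) ℝ :=
  Matrix.of (Fin.cons (Fin.cons ((Q ^ n)⁻¹) (fun i => -(Q * θ i)))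
    (fun i => Fin.cons 0 (fun j => if i = j then Q else 0)))

theorem zcomb_Bmat_zero {n : ℕ} (Q : ℝ) (θ : Fin n → ℝ) (a : Fin (n + 1) → ℤ) :
    zcomb (Bmat Q θ) a 0 = (a 0 : ℝ) * (Q ^ n)⁻¹ := by
  simp [zcomb, Matrix.vecMul, dotProduct, Bmat, Fin.sum_univ_succ]

theorem zcomb_Bmat_succ {n : ℕ} (Q : ℝ) (θ : Fin n → ℝ) (a : Fin (n + 1) → ℤ) (i : Fin n) :
    zcomb (Bmat Q θ) a i.succ = Q * ((a i.succ : ℝ) - θ i * a 0) := by
  simp [zcomb, Matrix.vecMul, dotProduct, Bmat, Fin.sum_univ_succ]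
  ring

theorem det_Bmat {n : ℕ} {Q : ℝ} (hQ : Q ≠ 0) (θ : Fin n → ℝ) : (Bmat Q θ).det = 1 := by
  rw [Matrix.det_of_upperTriangular]
  · rw [Fin.prod_univ_succ]
    simp [Bmat, hQ]
  · intro i j hij
    simp only [id] at hij
    revert hij
    refine Fin.cases ?_ (fun i => ?_) i
    · intro hij
      exact absurd hij (Fin.not_lt_zero _)
    · refine Fin.cases ?_ (fun j => ?_) j
      · intro _
        simp [Bmat]
      · intro hij
        have : i ≠ j := by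
          rintro rfl
          exact lt_irrefl _ hij
        simp [Bmat, this]

/-- The scale `Q` is `ε`-balanced for `θ`: the lattice has no nonzero vector shorter than `ε`. -/
def Balanced {n : ℕ} (Q ε : ℝ) (θ : Fin n → ℝ) : Prop :=
  ∀ a : Fin (n + 1) → ℤ, a ≠ 0 → ε ≤ ‖zcomb (Bmat Q θ) a‖

theorem volume_near_int {k : ℤ} {q : ℕ} (hq : 1 ≤ q) {δ : ℝ} (hδ : 0 < δ) (hδ1 : δ ≤ 1) :
    volume {t : ℝ | t ∈ Ico (k : ℝ) (k + 1) ∧ ∃ x : ℤ, |(x : ℝ) - q * t| < δ} ≤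
      ENNReal.ofReal (8 * δ) := by
  have hq0 : (0 : ℝ) < q := by exact_mod_cast hq
  have hq1 : (1 : ℝ) ≤ q := by exact_mod_cast hq
  have hsub : {t : ℝ | t ∈ Ico (k : ℝ) (k + 1) ∧ ∃ x : ℤ, |(x : ℝ) - q * t| < δ} ⊆
      ⋃ x ∈ Finset.Icc ((q : ℤ) * k - 1) (q * k + q + 1), ball ((x : ℝ) / q) (δ / q) := by
    rintro t ⟨⟨ht1, ht2⟩, x, hx⟩
    rw [abs_lt] at hx
    have h1 : (q : ℝ) * k ≤ q * t := mul_le_mul_of_nonneg_left ht1 hq0.le
    have h2 : (q : ℝ) * t ≤ q * (k + 1) := mul_le_mul_of_nonneg_left ht2.le hq0.le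
    simp only [Set.mem_iUnion]
    refine ⟨x, ?_, ?_⟩
    · rw [Finset.mem_Icc]
      constructor
      · have : ((q * k - 1 : ℤ) : ℝ) ≤ x := by
          push_cast
          linarith
        exact_mod_cast this
      · have : (x : ℝ) ≤ ((q * k + q + 1 : ℤ) : ℝ) := by
          push_cast
          linarith
        exact_mod_cast this
    · rw [mem_ball, Real.dist_eq, lt_div_iff₀ hq0]
      have h3 : |t - x / q| * q = |(x : ℝ) - q * t| := by
        rw [← abs_of_pos hq0, ← abs_mul, abs_of_pos hq0, ← abs_neg]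
        congr 1
        field_simp
        ring
      rw [h3, abs_lt]
      exact hx
  refine (measure_mono hsub).trans ((measure_biUnion_finset_le _ _).trans ?_)
  simp_rw [Real.volume_ball]
  rw [Finset.sum_const, Int.card_Icc, nsmul_eq_mul]
  have h4 : (q * k + q + 1 + 1 - (q * k - 1) : ℤ).toNat = q + 3 := by
    have : (q * k + q + 1 + 1 - (q * k - 1) : ℤ) = ((q + 3 : ℕ) : ℤ) := by
      push_cast
      ring
    rw [this, Int.toNat_natCast]
  rw [h4, ← ENNReal.ofReal_natCast, ← ENNReal.ofReal_mul (by positivity)]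
  apply ENNReal.ofReal_le_ofReal
  push_cast
  rw [show ((q : ℝ) + 3) * (2 * (δ / q)) = (2 * δ * (q + 3)) / q by ring, div_le_iff₀ hq0]
  nlinarith

theorem volume_not_balanced {n : ℕ} (k : Fin n → ℤ) {Q ε : ℝ} (hQ : 1 ≤ Q) (hε : 0 < ε)
    (hε1 : ε ≤ 1) :
    volume {θ : Fin n → ℝ | (∀ i, θ i ∈ Ico (k i : ℝ) (k i + 1)) ∧ ¬ Balanced Q ε θ} ≤
      ENNReal.ofReal (8 ^ n * ε ^ (n + 1)) := by
  have hQ0 : 0 < Q := by linarith
  have hεQ : ε / Q ≤ 1 := by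
    rw [div_le_one hQ0]
    linarith
  have hsub : {θ : Fin n → ℝ | (∀ i, θ i ∈ Ico (k i : ℝ) (k i + 1)) ∧ ¬ Balanced Q ε θ} ⊆
      ⋃ q ∈ Finset.Icc 1 ⌊ε * Q ^ n⌋₊, Set.pi Set.univ (fun i =>
        {t : ℝ | t ∈ Ico (k i : ℝ) (k i + 1) ∧ ∃ x : ℤ, |(x : ℝ) - q * t| < ε / Q}) := by
    rintro θ ⟨hθ, hbal⟩
    unfold Balanced at hbal
    push_neg at hbal
    obtain ⟨a, ha0, ha⟩ := hbal
    rw [pi_norm_lt_iff hε] at ha
    have h0 := ha 0
    rw [zcomb_Bmat_zero, Real.norm_eq_abs, abs_mul, abs_inv, abs_of_pos (pow_pos hQ0 n),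
      ← div_eq_mul_inv, div_lt_iff₀ (pow_pos hQ0 n)] at h0
    have hs : ∀ i : Fin n, |(a i.succ : ℝ) - θ i * a 0| < ε / Q := by
      intro i
      have h1 := ha i.succ
      rw [zcomb_Bmat_succ, Real.norm_eq_abs, abs_mul, abs_of_pos hQ0] at h1
      rw [lt_div_iff₀ hQ0]
      linarith
    have ha00 : a 0 ≠ 0 := by
      intro h
      apply ha0
      ext i
      refine Fin.cases h (fun i => ?_) i
      have h1 := hs i
      rw [h] at h1
      simp only [Int.cast_zero, mul_zero, sub_zero] at h1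
      have h2 : |(a i.succ : ℝ)| < 1 := lt_of_lt_of_le h1 hεQ
      have h3 : |a i.succ| < 1 := by exact_mod_cast h2
      simpa using h3
    simp only [Set.mem_iUnion]
    refine ⟨(a 0).natAbs, ?_, ?_⟩
    · rw [Finset.mem_Icc]
      constructor
      · exact Int.natAbs_pos.2 ha00
      · apply Nat.le_floor
        rw [Nat.cast_natAbs, Int.cast_abs]
        exact h0.le
    · rw [Set.mem_pi]
      intro i _
      refine ⟨hθ i, ?_⟩
      rcases le_total 0 (a 0) with hnn | hnp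
      · refine ⟨a i.succ, ?_⟩
        have h1 := hs i
        have h2 : (((a 0).natAbs : ℕ) : ℝ) = (a 0 : ℝ) := by
          rw [Nat.cast_natAbs, abs_of_nonneg hnn]
        rw [h2, mul_comm]
        exact h1
      · refine ⟨-a i.succ, ?_⟩
        have h1 := hs i
        have h2 : (((a 0).natAbs : ℕ) : ℝ) = -(a 0 : ℝ) := by
          rw [Nat.cast_natAbs, abs_of_nonpos hnp, Int.cast_neg]
        rw [h2, ← abs_neg]
        push_cast
        have h3 : -(-(a i.succ : ℝ) - -(a 0 : ℝ) * θ i) = (a i.succ : ℝ) - θ i * a 0 := by ring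
        rw [h3]
        exact h1
  refine (measure_mono hsub).trans ((measure_biUnion_finset_le _ _).trans ?_)
  have h1 : ∀ q ∈ Finset.Icc 1 ⌊ε * Q ^ n⌋₊, volume (Set.pi Set.univ (fun i : Fin n =>
        {t : ℝ | t ∈ Ico (k i : ℝ) (k i + 1) ∧ ∃ x : ℤ, |(x : ℝ) - q * t| < ε / Q})) ≤
        ENNReal.ofReal ((8 * (ε / Q)) ^ n) := by
    intro q hq
    rw [Finset.mem_Icc] at hq
    rw [volume_pi_pi]
    calc ∏ i, volume {t : ℝ | t ∈ Ico (k i : ℝ) (k i + 1) ∧ ∃ x : ℤ, |(x : ℝ) - q * t| < ε / Q}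
        ≤ ∏ _i : Fin n, ENNReal.ofReal (8 * (ε / Q)) :=
          Finset.prod_le_prod' (fun i _ => volume_near_int hq.1 (by positivity) hεQ)
      _ = ENNReal.ofReal ((8 * (ε / Q)) ^ n) := by
          rw [Finset.prod_const, Finset.card_univ, Fintype.card_fin,
            ENNReal.ofReal_pow (by positivity)]
  refine (Finset.sum_le_sum h1).trans ?_
  rw [Finset.sum_const, Nat.card_Icc, Nat.add_sub_cancel, nsmul_eq_mul, ← ENNReal.ofReal_natCast,
    ← ENNReal.ofReal_mul (by positivity)]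
  apply ENNReal.ofReal_le_ofReal
  calc (⌊ε * Q ^ n⌋₊ : ℝ) * (8 * (ε / Q)) ^ n ≤ (ε * Q ^ n) * (8 * (ε / Q)) ^ n := by
        gcongr
        exact Nat.floor_le (by positivity)
    _ = 8 ^ n * ε ^ (n + 1) := by
        rw [mul_pow, div_pow]
        field_simp
        ring

theorem ae_balanced (n : ℕ) : ∀ᵐ θ : Fin n → ℝ, ∃ l : ℕ, ∃ᶠ j : ℕ in atTop,
    Balanced ((2 : ℝ) ^ j) (1 / ((l : ℝ) + 1)) θ := by
  -- reduce to a cube
  have hcube : ∀ k : Fin n → ℤ, volume {θ : Fin n → ℝ | (∀ i, θ i ∈ Ico (k i : ℝ) (k i + 1)) ∧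
      ∀ l : ℕ, ∀ᶠ j : ℕ in atTop, ¬ Balanced ((2 : ℝ) ^ j) (1 / ((l : ℝ) + 1)) θ} = 0 := by
    intro k
    set Z := {θ : Fin n → ℝ | (∀ i, θ i ∈ Ico (k i : ℝ) (k i + 1)) ∧
      ∀ l : ℕ, ∀ᶠ j : ℕ in atTop, ¬ Balanced ((2 : ℝ) ^ j) (1 / ((l : ℝ) + 1)) θ} with hZ
    have hbound : ∀ l : ℕ, volume Z ≤ ENNReal.ofReal (8 ^ n * (1 / ((l : ℝ) + 1)) ^ (n + 1)) := by
      intro l
      set A : ℕ → Set (Fin n → ℝ) := fun J => {θ | (∀ i, θ i ∈ Ico (k i : ℝ) (k i + 1)) ∧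
        ∀ j ≥ J, ¬ Balanced ((2 : ℝ) ^ j) (1 / ((l : ℝ) + 1)) θ} with hA
      have hmono : Monotone A := by
        intro J J' hJ θ hθ
        exact ⟨hθ.1, fun j hj => hθ.2 j (hJ.trans hj)⟩
      have hZA : Z ⊆ ⋃ J, A J := by
        rintro θ ⟨hθ1, hθ2⟩
        obtain ⟨J, hJ⟩ := eventually_atTop.1 (hθ2 l)
        exact mem_iUnion.2 ⟨J, hθ1, hJ⟩
      refine (measure_mono hZA).trans ?_
      rw [hmono.measure_iUnion]
      apply iSup_le
      intro J
      refine le_trans (measure_mono ?_) (volume_not_balanced k (Q := (2 : ℝ) ^ J)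
        (ε := 1 / ((l : ℝ) + 1)) (one_le_pow₀ (by norm_num)) (by positivity) ?_)
      · rintro θ ⟨h1, h2⟩
        exact ⟨h1, h2 J le_rfl⟩
      · rw [div_le_one (by positivity)]
        have : (0 : ℝ) ≤ l := Nat.cast_nonneg l
        linarith
    have hlim : Tendsto (fun l : ℕ => ENNReal.ofReal (8 ^ n * (1 / ((l : ℝ) + 1)) ^ (n + 1)))
        atTop (𝓝 0) := by
      have h1 : Tendsto (fun l : ℕ => 8 ^ n * (1 / ((l : ℝ) + 1)) ^ (n + 1)) atTop (𝓝 0) := by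
        have h2 := (tendsto_one_div_add_atTop_nhds_zero_nat (𝕜 := ℝ)).pow (n + 1)
        have h3 := h2.const_mul ((8 : ℝ) ^ n)
        simpa using h3
      have h4 := (ENNReal.continuous_ofReal.tendsto 0).comp h1
      rw [ENNReal.ofReal_zero] at h4
      exact h4
    exact le_antisymm (ge_of_tendsto' hlim hbound) (zero_le)
  have hcover : {θ : Fin n → ℝ | ¬ ∃ l : ℕ, ∃ᶠ j : ℕ in atTop,
      Balanced ((2 : ℝ) ^ j) (1 / ((l : ℝ) + 1)) θ} ⊆
      ⋃ k : Fin n → ℤ, {θ : Fin n → ℝ | (∀ i, θ i ∈ Ico (k i : ℝ) (k i + 1)) ∧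
      ∀ l : ℕ, ∀ᶠ j : ℕ in atTop, ¬ Balanced ((2 : ℝ) ^ j) (1 / ((l : ℝ) + 1)) θ} := by
    intro θ hθ
    refine mem_iUnion.2 ⟨fun i => ⌊θ i⌋, fun i => ⟨Int.floor_le _, Int.lt_floor_add_one _⟩, ?_⟩
    intro l
    by_contra hcon
    apply hθ
    refine ⟨l, ?_⟩
    rw [Filter.Frequently]
    intro h
    exact hcon h
  rw [ae_iff]
  exact measure_mono_null hcover (measure_iUnion_null hcube)

end Pool.Agent.LibInterm
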