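import Mathlib

/-!
Definitions for the intermediate exponents of Diophantine approximation.

A linear subvariety of dimension `d` of the projective space `P^n(ℝ)` is represented by the
corresponding `(d+1)`-dimensional linear subspace of `ℝ^(n+1)`.
-/

namespace Pool.Agent.LibInterm

/-- The norm of the exterior product `x ∧ y`, that is the Euclidean norm of the vector of the
`2 × 2` minors `x i * y j - x j * y i`, `i < j`. -/
noncomputable def wedgeNorm {n : ℕ} (x y : EuclideanSpace ℝ (Fin (n + 1))) : ℝ :=
  Real.sqrt (∑ i, ∑ j ∈ Finset.univ.filter (fun j => i < j), (x i * y j - x j * y i) ^ 2)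

/-- The projective distance of two nonzero vectors. -/
noncomputable def projDist {n : ℕ} (x y : EuclideanSpace ℝ (Fin (n + 1))) : ℝ :=
  wedgeNorm x y / (‖x‖ * ‖y‖)

/-- The vector `(1, θ_1, …, θ_n)`. -/
noncomputable def homog {n : ℕ} (θ : EuclideanSpace ℝ (Fin n)) :
    EuclideanSpace ℝ (Fin (n + 1)) :=
  WithLp.toLp 2 (Fin.cons 1 (fun i => θ i))

/-- The distance of the point `θ` to the linear subvariety `L`: the smallest (infimum of the)
projective distance of `(1, θ_1, …, θ_n)` to the nonzero vectors of `L`. -/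
noncomputable def distTo {n : ℕ} (θ : EuclideanSpace ℝ (Fin n))
    (L : Submodule ℝ (EuclideanSpace ℝ (Fin (n + 1)))) : ℝ :=
  sInf ((fun y => projDist (homog θ) y) '' {y | y ∈ L ∧ y ≠ 0})

/-- An integer vector seen as a real vector. -/
noncomputable def intVec {n : ℕ} (v : Fin (n + 1) → ℤ) : EuclideanSpace ℝ (Fin (n + 1)) :=
  WithLp.toLp 2 (fun i => (v i : ℝ))

/-- `L` is (the linear space over) a rational linear subvariety of dimension `d`: it has
dimension `d + 1` and is spanned by integer vectors. -/
def IsRationalSub {n : ℕ} (d : ℕ) (L : Submodule ℝ (EuclideanSpace ℝ (Fin (n + 1)))) : Prop :=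
  Module.finrank ℝ L = d + 1 ∧
    ∃ S : Set (Fin (n + 1) → ℤ), L = Submodule.span ℝ (intVec '' S)

/-- The vector of the `(d+1) × (d+1)` minors of the `d + 1` vectors `v i`, indexed by the
increasing choices of `d + 1` coordinates. -/
noncomputable def minors {n d : ℕ} (v : Fin (d + 1) → EuclideanSpace ℝ (Fin (n + 1)))
    (I : Fin (d + 1) ↪o Fin (n + 1)) : ℝ :=
  Matrix.det (Matrix.of fun i j => v i (I j))

/-- `p` is a primitive integer vector of Plücker coordinates of `L`: its coordinates are coprime
integers, and they are the minors of some basis of `L`. -/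
def IsPrimitivePlucker {n d : ℕ} (L : Submodule ℝ (EuclideanSpace ℝ (Fin (n + 1))))
    (p : (Fin (d + 1) ↪o Fin (n + 1)) → ℤ) : Prop :=
  Finset.univ.gcd p = 1 ∧
    ∃ v : Fin (d + 1) → EuclideanSpace ℝ (Fin (n + 1)),
      LinearIndependent ℝ v ∧ Submodule.span ℝ (Set.range v) = L ∧ ∀ I, (p I : ℝ) = minors v I

/-- The height of a rational linear subvariety of dimension `d`: the Euclidean norm of a primitive
integer vector of Plücker coordinates (there are exactly two of them, `p` and `-p`). -/
noncomputable def height {n : ℕ} (d : ℕ) (L : Submodule ℝ (EuclideanSpace ℝ (Fin (n + 1)))) : ℝ :=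
  sInf {h : ℝ | ∃ p : (Fin (d + 1) ↪o Fin (n + 1)) → ℤ,
    IsPrimitivePlucker L p ∧ h = Real.sqrt (∑ I, (p I : ℝ) ^ 2)}

/-- The intermediate exponent `ω_{n,d}(θ)`, as an extended real number: the supremum of the real
`ω` such that `H(L) d(θ, L) ≤ H(L) ^ (-ω)` for infinitely many rational linear subvarieties `L`
of dimension `d`. -/
noncomputable def omegaExp (n d : ℕ) (θ : EuclideanSpace ℝ (Fin n)) : EReal :=
  sSup ((fun ω : ℝ => (ω : EReal)) '' {ω : ℝ |
    {L : Submodule ℝ (EuclideanSpace ℝ (Fin (n + 1))) | IsRationalSub d L ∧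
      height d L * distTo θ L ≤ height d L ^ (-ω)}.Infinite})

end Pool.Agent.LibInterm
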