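import Mathlib

/-!
Linear algebra of minors.
-/

open Matrix

namespace Pool.Agent.LibInterm

theorem exists_minor_ne_zero {K : Type*} [Field K] {k N : ℕ} (C : Matrix (Fin k) (Fin N) K)
    (h : LinearIndependent K (fun i => C i)) :
    ∃ I : Fin k → Fin N, (C.submatrix id I).det ≠ 0 := by
  have hrank : C.rank = k := by
    have h1 := LinearIndependent.rank_matrix (M := C) h
    simpa using h1
  have hspan : Module.finrank K (Submodule.span K (Set.range C.col)) = k := by
    rw [← Matrix.rank_eq_finrank_span_cols, hrank]
  obtain ⟨f, hf1, hf2, hf3⟩ := Submodule.exists_fun_fin_finrank_span_eq K (Set.range C.col)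
  choose I0 hI0 using hf1
  set I : Fin k → Fin N := fun i => I0 (Fin.cast hspan.symm i) with hI
  refine ⟨I, ?_⟩
  have h1 : LinearIndependent K (fun i : Fin k => C.col (I i)) := by
    have h2 : (fun i : Fin k => C.col (I i)) = f ∘ (Fin.cast hspan.symm) := by
      ext1 i
      simp only [hI, hI0, Function.comp]
    rw [h2]
    exact hf3.comp _ (Fin.cast_injective _)
  have h3 : IsUnit (C.submatrix id I)ᵀ := by
    rw [← Matrix.linearIndependent_rows_iff_isUnit]
    exact h1
  rw [Matrix.isUnit_iff_isUnit_det, Matrix.det_transpose] at h3
  exact h3.ne_zero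

/-- A minor with arbitrary choice of columns is zero or equal, up to sign, to a minor with
increasing choice of columns. -/
theorem minor_eq_zero_or {R : Type*} [CommRing R] {k N : ℕ} (C : Matrix (Fin k) (Fin N) R)
    (I : Fin k → Fin N) : (C.submatrix id I).det = 0 ∨
      ∃ J : Fin k ↪o Fin N, (C.submatrix id I).det = (C.submatrix id J).det ∨
        (C.submatrix id I).det = - (C.submatrix id J).det := by
  by_cases hinj : Function.Injective I
  · right
    set σ := Tuple.sort I with hσ
    have hmono : StrictMono (I ∘ σ) :=
      (Tuple.monotone_sort I).strictMono_of_injective (hinj.comp σ.injective)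
    refine ⟨OrderEmbedding.ofStrictMono _ hmono, ?_⟩
    have h1 : (C.submatrix id (OrderEmbedding.ofStrictMono _ hmono)).det =
        Equiv.Perm.sign σ * (C.submatrix id I).det := by
      rw [← Matrix.det_permute' σ (C.submatrix id I)]
      rfl
    rcases Int.units_eq_one_or (Equiv.Perm.sign σ) with h2 | h2
    · left
      rw [h1, h2]
      simp
    · right
      rw [h1, h2]
      simp
  · left
    rw [Function.Injective] at hinj
    push_neg at hinj
    obtain ⟨a, b, hab, hne⟩ := hinj
    exact Matrix.det_zero_of_column_eq hne (fun i => by simp [hab])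

end Pool.Agent.LibInterm
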