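import Mathlib
import Pool.Agent.LibInterm.Defs
import Pool.Agent.LibInterm.Minors
import Pool.Agent.LibInterm.Minkowski2

/-!
Integer bases of rational subspaces and their heights.
-/

open Matrix

namespace Pool.Agent.LibInterm

variable {n : ℕ}

theorem intVec_apply (v : Fin (n + 1) → ℤ) (i : Fin (n + 1)) : intVec v i = (v i : ℝ) := rfl

theorem intVec_injective : Function.Injective (intVec (n := n)) := by
  intro v w h
  ext i
  have h1 : intVec v i = intVec w i := by rw [h]
  rw [intVec_apply, intVec_apply] at h1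
  exact Int.cast_injective h1

/-- `intVec` as a linear map over the integers. -/
noncomputable def intVecHom (n : ℕ) :
    (Fin (n + 1) → ℤ) →ₗ[ℤ] EuclideanSpace ℝ (Fin (n + 1)) where
  toFun := intVec
  map_add' v w := by
    ext i
    simp [intVec]
  map_smul' c v := by
    ext i
    simp [intVec]

theorem intVecHom_apply (v : Fin (n + 1) → ℤ) : intVecHom n v = intVec v := rfl

theorem minors_intVec {d : ℕ} (c : Fin (d + 1) → Fin (n + 1) → ℤ)
    (I : Fin (d + 1) ↪o Fin (n + 1)) :
    minors (fun i => intVec (c i)) I =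
      ((Matrix.submatrix (Matrix.of c) id I).det : ℝ) := by
  rw [Int.cast_det]
  rfl

/-- Integer vectors with a nonzero minor are independent over the reals. -/
theorem linearIndependent_of_minor {k : ℕ} (v : Fin k → EuclideanSpace ℝ (Fin (n + 1)))
    (I : Fin k → Fin (n + 1)) (h : (Matrix.of fun i j => v i (I j)).det ≠ 0) :
    LinearIndependent ℝ v := by
  have h1 : LinearIndependent ℝ (fun i => (Matrix.of fun i j => v i (I j)) i) :=
    Matrix.linearIndependent_rows_iff_isUnit.2
      ((Matrix.isUnit_iff_isUnit_det _).2 (isUnit_iff_ne_zero.2 h))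
  let φ : EuclideanSpace ℝ (Fin (n + 1)) →ₗ[ℝ] (Fin k → ℝ) :=
    { toFun := fun x j => x (I j)
      map_add' := fun x y => rfl
      map_smul' := fun t x => rfl }
  exact LinearIndependent.of_comp φ h1

theorem exists_minor_int {k : ℕ} (c : Fin k → Fin (n + 1) → ℤ)
    (h : LinearIndependent ℤ c) :
    ∃ I : Fin k → Fin (n + 1), (Matrix.submatrix (Matrix.of c) id I).det ≠ 0 := by
  have h1 : LinearIndependent ℤ (fun i => (fun j => (c i j : ℚ) : Fin (n + 1) → ℚ)) := by
    let ψ : (Fin (n + 1) → ℤ) →ₗ[ℤ] (Fin (n + 1) → ℚ) :=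
      { toFun := fun v j => (v j : ℚ)
        map_add' := fun x y => by ext j; simp
        map_smul' := fun t x => by ext j; simp }
    have hψ : LinearMap.ker ψ = ⊥ := by
      rw [LinearMap.ker_eq_bot]
      intro v w hvw
      ext j
      exact Int.cast_injective (α := ℚ) (congrFun hvw j)
    exact h.map' ψ hψ
  rw [LinearIndependent.iff_fractionRing (R := ℤ) (K := ℚ)] at h1
  obtain ⟨I, hI⟩ := exists_minor_ne_zero (Matrix.of fun i j => (c i j : ℚ)) h1
  refine ⟨I, fun h0 => hI ?_⟩
  have h2 : (Matrix.submatrix (Matrix.of fun i j => (c i j : ℚ)) id I).det =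
      ((Matrix.submatrix (Matrix.of c) id I).det : ℚ) := by
    rw [Int.cast_det]
    rfl
  rw [h2, h0]
  simp

theorem linearIndependent_intVec {k : ℕ} (c : Fin k → Fin (n + 1) → ℤ)
    (h : LinearIndependent ℤ c) : LinearIndependent ℝ (fun i => intVec (c i)) := by
  obtain ⟨I, hI⟩ := exists_minor_int c h
  apply linearIndependent_of_minor _ I
  have h2 : (Matrix.of fun i j => (intVec (c i)) (I j)).det =
      ((Matrix.submatrix (Matrix.of c) id I).det : ℝ) := by
    rw [Int.cast_det]
    rfl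
  rw [h2]
  exact_mod_cast hI

/-- The lattice of the integer points of `L`. -/
noncomputable def intPts (L : Submodule ℝ (EuclideanSpace ℝ (Fin (n + 1)))) :
    Submodule ℤ (Fin (n + 1) → ℤ) :=
  (L.restrictScalars ℤ).comap (intVecHom n)

theorem mem_intPts {L : Submodule ℝ (EuclideanSpace ℝ (Fin (n + 1)))} {z : Fin (n + 1) → ℤ} :
    z ∈ intPts L ↔ intVec z ∈ L := Iff.rfl

/-- An integer basis of a rational subspace which generates all its integer points. -/
theorem exists_int_basis {d : ℕ} {L : Submodule ℝ (EuclideanSpace ℝ (Fin (n + 1)))}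
    (hL : IsRationalSub d L) : ∃ c : Fin (d + 1) → Fin (n + 1) → ℤ,
      LinearIndependent ℝ (fun i => intVec (c i)) ∧
      Submodule.span ℝ (Set.range (fun i => intVec (c i))) = L ∧
      ∀ z : Fin (n + 1) → ℤ, intVec z ∈ L → ∃ y : Fin (d + 1) → ℤ, z = ∑ i, y i • c i := by
  obtain ⟨k, b⟩ := Submodule.basisOfPid (Pi.basisFun ℤ (Fin (n + 1))) (intPts L)
  have hli : LinearIndependent ℤ (fun i => (b i : Fin (n + 1) → ℤ)) :=
    b.linearIndependent.map' (intPts L).subtype (Submodule.ker_subtype _)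
  have hliR := linearIndependent_intVec _ hli
  have hgen : ∀ z : Fin (n + 1) → ℤ, intVec z ∈ L →
      ∃ y : Fin k → ℤ, z = ∑ i, y i • (b i : Fin (n + 1) → ℤ) := by
    intro z hz
    refine ⟨fun i => b.repr ⟨z, hz⟩ i, ?_⟩
    have h1 := b.sum_repr ⟨z, hz⟩
    have h2 := congrArg (fun x : intPts L => (x : Fin (n + 1) → ℤ)) h1
    simp only [Submodule.coe_sum, Submodule.coe_smul] at h2
    exact h2.symm
  have hspan : Submodule.span ℝ (Set.range (fun i => intVec (b i : Fin (n + 1) → ℤ))) = L := by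
    apply le_antisymm
    · rw [Submodule.span_le]
      rintro _ ⟨i, rfl⟩
      exact (b i).2
    · obtain ⟨_, S, hS⟩ := hL
      have hSL : ∀ v ∈ S, intVec v ∈ L := by
        intro v hv
        rw [hS]
        exact Submodule.subset_span ⟨v, hv, rfl⟩
      conv_lhs => rw [hS]
      rw [Submodule.span_le]
      rintro _ ⟨v, hv, rfl⟩
      obtain ⟨y, hy⟩ := hgen v (hSL v hv)
      have h3 : intVec v = ∑ i, (y i : ℝ) • intVec (b i : Fin (n + 1) → ℤ) := by
        rw [hy, ← intVecHom_apply, map_sum]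
        apply Finset.sum_congr rfl
        intro i _
        rw [map_smul, intVecHom_apply, Int.cast_smul_eq_zsmul]
      rw [h3]
      apply Submodule.sum_mem
      intro i _
      exact Submodule.smul_mem _ _ (Submodule.subset_span ⟨i, rfl⟩)
  have hk : k = d + 1 := by
    have h4 := finrank_span_eq_card hliR
    rw [hspan, hL.1, Fintype.card_fin] at h4
    exact h4.symm
  subst hk
  exact ⟨fun i => b i, hliR, hspan, hgen⟩

/-- The minors of a basis of the lattice of all integer points of `L` are coprime. -/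
theorem gcd_minors_eq_one {d : ℕ} {L : Submodule ℝ (EuclideanSpace ℝ (Fin (n + 1)))}
    (c : Fin (d + 1) → Fin (n + 1) → ℤ)
    (hli : LinearIndependent ℝ (fun i => intVec (c i)))
    (hspan : Submodule.span ℝ (Set.range (fun i => intVec (c i))) = L)
    (hgen : ∀ z : Fin (n + 1) → ℤ, intVec z ∈ L → ∃ y : Fin (d + 1) → ℤ, z = ∑ i, y i • c i) :
    Finset.univ.gcd (fun I : Fin (d + 1) ↪o Fin (n + 1) =>
      (Matrix.submatrix (Matrix.of c) id I).det) = 1 := by
  rw [← Finset.normalize_gcd, normalize_eq_one]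
  set g := Finset.univ.gcd (fun I : Fin (d + 1) ↪o Fin (n + 1) =>
      (Matrix.submatrix (Matrix.of c) id I).det) with hg
  by_contra hcon
  have hne : g.natAbs ≠ 1 := fun h => hcon (Int.isUnit_iff_natAbs_eq.2 h)
  obtain ⟨l, hl, hlg⟩ := Nat.exists_prime_and_dvd hne
  have hlg' : (l : ℤ) ∣ g := Int.natCast_dvd.2 hlg
  haveI : Fact l.Prime := ⟨hl⟩
  have hJ : ∀ J : Fin (d + 1) ↪o Fin (n + 1),
      (l : ℤ) ∣ (Matrix.submatrix (Matrix.of c) id J).det := fun J =>
    hlg'.trans (Finset.gcd_dvd (Finset.mem_univ J))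
  have hI : ∀ I : Fin (d + 1) → Fin (n + 1),
      (l : ℤ) ∣ (Matrix.submatrix (Matrix.of c) id I).det := by
    intro I
    rcases minor_eq_zero_or (Matrix.of c) I with h | ⟨J, h | h⟩
    · rw [h]; exact dvd_zero _
    · rw [h]; exact hJ J
    · rw [h]; exact (hJ J).neg_right
  -- reduction modulo the prime
  set C : Matrix (Fin (d + 1)) (Fin (n + 1)) (ZMod l) := Matrix.of fun i j => (c i j : ZMod l)
    with hC
  have hdep : ¬ LinearIndependent (ZMod l) (fun i => C i) := by
    intro h
    obtain ⟨I, hI'⟩ := exists_minor_ne_zero C h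
    apply hI'
    have h2 : (C.submatrix id I).det =
        (((Matrix.submatrix (Matrix.of c) id I).det : ℤ) : ZMod l) := by
      rw [Int.cast_det]
      rfl
    rw [h2]
    exact (ZMod.intCast_zmod_eq_zero_iff_dvd _ _).2 (hI I)
  rw [Fintype.not_linearIndependent_iff] at hdep
  obtain ⟨x, hx, i0, hi0⟩ := hdep
  choose X hX using fun i => ZMod.intCast_surjective (x i)
  have hdvd : ∀ j, (l : ℤ) ∣ ∑ i, X i * c i j := by
    intro j
    rw [← ZMod.intCast_zmod_eq_zero_iff_dvd]
    have h3 := congrFun hx j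
    simp only [Finset.sum_apply, Pi.smul_apply, smul_eq_mul, Pi.zero_apply] at h3
    rw [← h3]
    push_cast
    apply Finset.sum_congr rfl
    intro i _
    rw [hX]
    rfl
  choose Y hY using hdvd
  have hl0 : (l : ℝ) ≠ 0 := by exact_mod_cast hl.ne_zero
  have hYL : intVec Y ∈ L := by
    have h4 : intVec Y = (l : ℝ)⁻¹ • ∑ i, (X i : ℝ) • intVec (c i) := by
      ext j
      have h5 : ((l : ℤ) : ℝ) * (Y j : ℝ) = ∑ i, (X i : ℝ) * (c i j : ℝ) := by
        have h6 := congrArg (fun t : ℤ => (t : ℝ)) (hY j)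
        push_cast at h6
        rw [h6]
        push_cast
        rfl
      simp only [PiLp.smul_apply, WithLp.ofLp_sum, Finset.sum_apply, smul_eq_mul, intVec_apply]
      rw [eq_inv_mul_iff_mul_eq₀ hl0]
      rw [Int.cast_natCast] at h5
      rw [h5]
    rw [h4, ← hspan]
    apply Submodule.smul_mem
    apply Submodule.sum_mem
    intro i _
    exact Submodule.smul_mem _ _ (Submodule.subset_span ⟨i, rfl⟩)
  obtain ⟨y, hy⟩ := hgen Y hYL
  have hliZ : ∀ i, X i = l * y i := by
    have h7 : ∑ i, ((X i : ℝ) - l * y i) • intVec (c i) = 0 := by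
      ext j
      have h8 : (∑ i, X i * c i j : ℤ) = ∑ i, l * y i * c i j := by
        rw [hY j, hy]
        simp only [Finset.sum_apply, Pi.smul_apply, smul_eq_mul, Finset.mul_sum]
        apply Finset.sum_congr rfl
        intro i _
        ring
      have h9 := congrArg (fun t : ℤ => (t : ℝ)) h8
      push_cast at h9
      simp only [WithLp.ofLp_sum, Finset.sum_apply, PiLp.smul_apply, smul_eq_mul, intVec_apply,
        sub_mul, Finset.sum_sub_distrib]
      simp [h9, intVec_apply, sub_mul]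
    intro i
    have h10 := (Fintype.linearIndependent_iff.1 hli) _ h7 i
    have h11 : (X i : ℝ) = ((l * y i : ℤ) : ℝ) := by
      push_cast
      linarith
    exact Int.cast_injective h11
  apply hi0
  rw [← hX, hliZ]
  simp

theorem minors_comb {d : ℕ} (v v' : Fin (d + 1) → EuclideanSpace ℝ (Fin (n + 1)))
    (T : Matrix (Fin (d + 1)) (Fin (d + 1)) ℝ) (h : ∀ i, v' i = ∑ j, T i j • v j)
    (I : Fin (d + 1) ↪o Fin (n + 1)) : minors v' I = T.det * minors v I := by
  unfold minors
  rw [← Matrix.det_mul]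
  congr 1
  ext i j
  rw [Matrix.mul_apply]
  simp [h i]

theorem exists_change {d : ℕ} {L : Submodule ℝ (EuclideanSpace ℝ (Fin (n + 1)))}
    (v v' : Fin (d + 1) → EuclideanSpace ℝ (Fin (n + 1)))
    (hv : Submodule.span ℝ (Set.range v) = L) (hv' : ∀ i, v' i ∈ L) :
    ∃ T : Matrix (Fin (d + 1)) (Fin (d + 1)) ℝ, ∀ i, v' i = ∑ j, T i j • v j := by
  have h1 : ∀ i, ∃ t : Fin (d + 1) → ℝ, ∑ j, t j • v j = v' i := by
    intro i
    have h2 := hv' i
    rw [← hv] at h2
    exact (Submodule.mem_span_range_iff_exists_fun ℝ).1 h2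
  choose T hT using h1
  exact ⟨T, fun i => (hT i).symm⟩

theorem primitive_unique {d : ℕ} {L : Submodule ℝ (EuclideanSpace ℝ (Fin (n + 1)))}
    {p p' : (Fin (d + 1) ↪o Fin (n + 1)) → ℤ} (hp : IsPrimitivePlucker L p)
    (hp' : IsPrimitivePlucker L p') : ∀ I, p' I ^ 2 = p I ^ 2 := by
  obtain ⟨hg, v, hv, hvL, hpv⟩ := hp
  obtain ⟨hg', v', hv', hvL', hpv'⟩ := hp'
  obtain ⟨T, hT⟩ := exists_change v v' hvL (fun i => by
    rw [← hvL']
    exact Submodule.subset_span ⟨i, rfl⟩)
  have h1 : ∀ I, (p' I : ℝ) = T.det * (p I : ℝ) := by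
    intro I
    rw [hpv', hpv, minors_comb v v' T hT]
  have hex : ∃ I, p I ≠ 0 := by
    by_contra hcon
    push_neg at hcon
    have h2 : Finset.univ.gcd p = 0 := Finset.gcd_eq_zero_iff.2 (fun I _ => hcon I)
    rw [h2] at hg
    exact zero_ne_one hg
  obtain ⟨J, hJ⟩ := hex
  have hJR : (p J : ℝ) ≠ 0 := by exact_mod_cast hJ
  have h2 : ∀ I, p J * p' I = p' J * p I := by
    intro I
    have h3 : ((p J * p' I : ℤ) : ℝ) = ((p' J * p I : ℤ) : ℝ) := by
      push_cast
      rw [h1 I, h1 J]
      ring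
    exact Int.cast_injective h3
  have h4 : Finset.univ.gcd (fun I => p J * p' I) = Finset.univ.gcd (fun I => p' J * p I) := by
    congr 1
    ext I
    exact h2 I
  rw [Finset.gcd_mul_left, Finset.gcd_mul_left, hg, hg', mul_one, mul_one,
    ← Int.abs_eq_normalize, ← Int.abs_eq_normalize] at h4
  have h5 : p J ^ 2 = p' J ^ 2 := by
    rw [← sq_abs (p J), h4, sq_abs]
  intro I
  have h6 : p J ^ 2 * p' I ^ 2 = p J ^ 2 * p I ^ 2 := by
    have h7 := congrArg (fun t => t ^ 2) (h2 I)
    simp only [mul_pow] at h7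
    rw [h7, h5]
  exact mul_left_cancel₀ (pow_ne_zero 2 hJ) h6

theorem height_eq {d : ℕ} {L : Submodule ℝ (EuclideanSpace ℝ (Fin (n + 1)))}
    {p : (Fin (d + 1) ↪o Fin (n + 1)) → ℤ} (hp : IsPrimitivePlucker L p) :
    height d L = Real.sqrt (∑ I, (p I : ℝ) ^ 2) := by
  have h1 : {h : ℝ | ∃ p : (Fin (d + 1) ↪o Fin (n + 1)) → ℤ,
      IsPrimitivePlucker L p ∧ h = Real.sqrt (∑ I, (p I : ℝ) ^ 2)} =
      {Real.sqrt (∑ I, (p I : ℝ) ^ 2)} := by
    ext h
    constructor
    · rintro ⟨p', hp', rfl⟩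
      have h2 := primitive_unique hp hp'
      have h3 : ∑ I, (p' I : ℝ) ^ 2 = ∑ I, (p I : ℝ) ^ 2 := by
        apply Finset.sum_congr rfl
        intro I _
        exact_mod_cast h2 I
      rw [h3]
      exact Set.mem_singleton _
    · rintro rfl
      exact ⟨p, hp, rfl⟩
  rw [height, h1, csInf_singleton]

theorem primitive_of_int_basis {d : ℕ} {L : Submodule ℝ (EuclideanSpace ℝ (Fin (n + 1)))}
    (c : Fin (d + 1) → Fin (n + 1) → ℤ)
    (hli : LinearIndependent ℝ (fun i => intVec (c i)))
    (hspan : Submodule.span ℝ (Set.range (fun i => intVec (c i))) = L)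
    (hgen : ∀ z : Fin (n + 1) → ℤ, intVec z ∈ L → ∃ y : Fin (d + 1) → ℤ, z = ∑ i, y i • c i) :
    IsPrimitivePlucker L (fun I : Fin (d + 1) ↪o Fin (n + 1) =>
      (Matrix.submatrix (Matrix.of c) id I).det) :=
  ⟨gcd_minors_eq_one c hli hspan hgen, _, hli, hspan, fun I => (minors_intVec c I).symm⟩

theorem one_le_height {d : ℕ} {L : Submodule ℝ (EuclideanSpace ℝ (Fin (n + 1)))}
    (hL : IsRationalSub d L) : 1 ≤ height d L := by
  obtain ⟨c, hli, hspan, hgen⟩ := exists_int_basis hL
  have hp := primitive_of_int_basis c hli hspan hgen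
  rw [height_eq hp]
  set p : (Fin (d + 1) ↪o Fin (n + 1)) → ℤ := fun I =>
      (Matrix.submatrix (Matrix.of c) id I).det
  have hex : ∃ I, p I ≠ 0 := by
    by_contra hcon
    push_neg at hcon
    have h2 : Finset.univ.gcd p = 0 := Finset.gcd_eq_zero_iff.2 (fun I _ => hcon I)
    have h3 := hp.1
    rw [h2] at h3
    exact zero_ne_one h3
  obtain ⟨J, hJ⟩ := hex
  rw [Real.one_le_sqrt]
  have h4 : (1 : ℝ) ≤ (p J : ℝ) ^ 2 := by
    have h5 : 1 ≤ p J ^ 2 := by
      have := Int.one_le_abs hJ
      nlinarith [sq_abs (p J)]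
    exact_mod_cast h5
  exact h4.trans (Finset.single_le_sum (f := fun I => (p I : ℝ) ^ 2)
    (fun _ _ => sq_nonneg _) (Finset.mem_univ J))

/-- The height is at most the norm of the vector of minors of an integer basis. -/
theorem height_le_minors {d : ℕ} {L : Submodule ℝ (EuclideanSpace ℝ (Fin (n + 1)))}
    (v : Fin (d + 1) → Fin (n + 1) → ℤ) (hv : LinearIndependent ℝ (fun i => intVec (v i)))
    (hL : L = Submodule.span ℝ (Set.range (fun i => intVec (v i)))) :
    height d L ≤ Real.sqrt (∑ I, (minors (fun i => intVec (v i)) I) ^ 2) := by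
  have hrat : IsRationalSub d L := by
    refine ⟨?_, Set.range v, ?_⟩
    · rw [hL, finrank_span_eq_card hv, Fintype.card_fin]
    · rw [hL, ← Set.range_comp]
      rfl
  obtain ⟨c, hli, hspan, hgen⟩ := exists_int_basis hrat
  have hp := primitive_of_int_basis c hli hspan hgen
  rw [height_eq hp]
  have h1 : ∀ i, ∃ y : Fin (d + 1) → ℤ, v i = ∑ j, y j • c j := by
    intro i
    apply hgen
    rw [hL]
    exact Submodule.subset_span ⟨i, rfl⟩
  choose T hT using h1
  have h2 : ∀ i, intVec (v i) = ∑ j, ((T i j : ℝ)) • intVec (c j) := by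
    intro i
    conv_lhs => rw [hT i]
    rw [← intVecHom_apply, map_sum]
    apply Finset.sum_congr rfl
    intro j _
    rw [map_smul, intVecHom_apply, Int.cast_smul_eq_zsmul]
  set TR : Matrix (Fin (d + 1)) (Fin (d + 1)) ℝ := Matrix.of fun i j => (T i j : ℝ) with hTR
  have h3 : ∀ I, minors (fun i => intVec (v i)) I =
      TR.det * minors (fun i => intVec (c i)) I := fun I =>
    minors_comb _ _ TR h2 I
  have hdet : TR.det = ((Matrix.of T).det : ℝ) := by
    rw [Int.cast_det]
    rfl
  have hdet0 : TR.det ≠ 0 := by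
    intro h0
    obtain ⟨x, hx0, hx⟩ := Matrix.exists_vecMul_eq_zero_iff.2 h0
    apply hx0
    have h4 : ∑ i, x i • intVec (v i) = 0 := by
      calc ∑ i, x i • intVec (v i) = ∑ i, x i • ∑ j, ((T i j : ℝ)) • intVec (c j) := by
            simp_rw [h2]
        _ = ∑ j, (∑ i, x i * (T i j : ℝ)) • intVec (c j) := by
            simp_rw [Finset.smul_sum, smul_smul, Finset.sum_smul]
            exact Finset.sum_comm
        _ = 0 := by
            apply Finset.sum_eq_zero
            intro j _
            have h5 := congrFun hx j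
            simp only [Matrix.vecMul, dotProduct, Pi.zero_apply] at h5
            have h6 : ∑ i, x i * (T i j : ℝ) = 0 := h5
            rw [h6, zero_smul]
    ext i
    exact (Fintype.linearIndependent_iff.1 hv) _ h4 i
  have hdet1 : 1 ≤ TR.det ^ 2 := by
    rw [hdet] at hdet0 ⊢
    have h7 : (Matrix.of T).det ≠ 0 := by exact_mod_cast hdet0
    have h8 : 1 ≤ (Matrix.of T).det ^ 2 := by
      have := Int.one_le_abs h7
      nlinarith [sq_abs (Matrix.of T).det]
    exact_mod_cast h8
  apply Real.sqrt_le_sqrt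
  apply Finset.sum_le_sum
  intro I _
  rw [h3 I, mul_pow, ← minors_intVec]
  nlinarith [sq_nonneg (minors (fun i => intVec (c i)) I)]

/-- Every rational subspace has a basis of integer vectors with product of norms bounded by a
multiple of the height. -/
theorem exists_reduced_basis {d : ℕ} {L : Submodule ℝ (EuclideanSpace ℝ (Fin (n + 1)))}
    (hL : IsRationalSub d L) : ∃ b : Fin (d + 1) → Fin (n + 1) → ℤ,
      LinearIndependent ℝ (fun i => intVec (b i)) ∧
      Submodule.span ℝ (Set.range (fun i => intVec (b i))) = L ∧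
      ∏ i, ‖b i‖ ≤ ((d + 1 : ℕ) : ℝ) ^ (d + 1) * Real.sqrt ((d + 1 : ℕ) : ℝ) ^ (d + 1) *
        height d L := by
  obtain ⟨c, hli, hspan, hgen⟩ := exists_int_basis hL
  have hp := primitive_of_int_basis c hli hspan hgen
  -- choice of the coordinates
  obtain ⟨I, hImax⟩ := Finite.exists_max (fun I : Fin (d + 1) → Fin (n + 1) =>
    |(Matrix.of fun i j => (c i (I j) : ℝ)).det|)
  set B : Matrix (Fin (d + 1)) (Fin (d + 1)) ℝ := Matrix.of fun i j => (c i (I j) : ℝ) with hB
  have hdetB : B.det ≠ 0 := by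
    intro h0
    have hliR : LinearIndependent ℝ (fun i => (fun j => (c i j : ℝ) : Fin (n + 1) → ℝ)) := by
      have h1 : (fun i => intVec (c i)) = (WithLp.linearEquiv 2 ℝ (Fin (n + 1) → ℝ)).symm ∘
          (fun i => (fun j => (c i j : ℝ) : Fin (n + 1) → ℝ)) := rfl
      rw [h1] at hli
      exact (LinearMap.linearIndependent_iff _ (LinearEquiv.ker _)).1 hli
    obtain ⟨I', hI'⟩ := exists_minor_ne_zero
      (Matrix.of fun i j => (c i j : ℝ) : Matrix (Fin (d + 1)) (Fin (n + 1)) ℝ) hliR
    apply hI'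
    have h2 := hImax I'
    rw [h0, abs_zero] at h2
    exact abs_nonpos_iff.1 h2
  have hBheight : |B.det| ≤ height d L := by
    rw [height_eq hp]
    have h1 : B.det = ((Matrix.submatrix (Matrix.of c) id I).det : ℝ) := by
      rw [Int.cast_det]
      rfl
    have h2 : ∀ J : Fin (d + 1) ↪o Fin (n + 1),
        |((Matrix.submatrix (Matrix.of c) id J).det : ℝ)| ≤
        Real.sqrt (∑ I : Fin (d + 1) ↪o Fin (n + 1),
          ((Matrix.submatrix (Matrix.of c) id I).det : ℝ) ^ 2) := by
      intro J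
      apply Real.abs_le_sqrt
      exact Finset.single_le_sum (f := fun I : Fin (d + 1) ↪o Fin (n + 1) =>
          ((Matrix.submatrix (Matrix.of c) id I).det : ℝ) ^ 2)
        (fun _ _ => sq_nonneg _) (Finset.mem_univ J)
    rw [h1]
    rcases minor_eq_zero_or (Matrix.of c) I with h | ⟨J, h | h⟩
    · rw [h]
      simp
    · rw [h]
      exact h2 J
    · rw [h, Int.cast_neg, abs_neg]
      exact h2 J
  obtain ⟨a, hali, haprod⟩ := weak_minkowski_second B hdetB
  set b : Fin (d + 1) → Fin (n + 1) → ℤ := fun i => ∑ j, a i j • c j with hb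
  have hbI : ∀ i j, ((b i (I j) : ℤ) : ℝ) = zcomb B (a i) j := by
    intro i j
    simp [hb, zcomb, Matrix.vecMul, dotProduct, hB]
  have hbli : LinearIndependent ℝ (fun i => intVec (b i)) := by
    let φ : EuclideanSpace ℝ (Fin (n + 1)) →ₗ[ℝ] (Fin (d + 1) → ℝ) :=
      { toFun := fun x j => x (I j)
        map_add' := fun x y => rfl
        map_smul' := fun t x => rfl }
    apply LinearIndependent.of_comp φ
    have h1 : (φ ∘ fun i => intVec (b i)) = fun i => zcomb B (a i) := by
      ext i j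
      exact hbI i j
    rw [h1]
    exact hali
  have hbL : ∀ i, intVec (b i) ∈ L := by
    intro i
    have h1 : intVec (b i) = ∑ j, (a i j : ℝ) • intVec (c j) := by
      rw [hb, ← intVecHom_apply, map_sum]
      apply Finset.sum_congr rfl
      intro j _
      rw [map_smul, intVecHom_apply, Int.cast_smul_eq_zsmul]
    rw [h1, ← hspan]
    apply Submodule.sum_mem
    intro j _
    exact Submodule.smul_mem _ _ (Submodule.subset_span ⟨j, rfl⟩)
  have hbspan : Submodule.span ℝ (Set.range (fun i => intVec (b i))) = L := by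
    apply Submodule.eq_of_le_of_finrank_eq
    · rw [Submodule.span_le]
      rintro _ ⟨i, rfl⟩
      exact hbL i
    · rw [finrank_span_eq_card hbli, Fintype.card_fin, hL.1]
  refine ⟨b, hbli, hbspan, ?_⟩
  have hbnorm : ∀ i, ‖b i‖ ≤ ((d + 1 : ℕ) : ℝ) * ‖zcomb B (a i)‖ := by
    intro i
    rw [pi_norm_le_iff_of_nonneg (by positivity)]
    intro l
    rw [Int.norm_eq_abs]
    set w : Fin (d + 1) → ℝ := fun j => (c j l : ℝ) with hw
    have h1 : B.det * (b i l : ℝ) = ∑ j, zcomb B (a i) j * (B.cramer w) j := by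
      have h2 : (b i l : ℝ) = (fun j => (a i j : ℝ)) ⬝ᵥ w := by
        simp [hb, dotProduct, hw]
      have h3 : B.det • w = B *ᵥ (B.cramer w) := (Matrix.mulVec_cramer B w).symm
      calc B.det * (b i l : ℝ) = (fun j => (a i j : ℝ)) ⬝ᵥ (B.det • w) := by
            rw [h2, dotProduct_smul, smul_eq_mul]
        _ = zcomb B (a i) ⬝ᵥ B.cramer w := by
            rw [h3, Matrix.dotProduct_mulVec]
            rfl
        _ = _ := rfl
    have h4 : ∀ j, |(B.cramer w) j| ≤ |B.det| := by
      intro j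
      rw [Matrix.cramer_apply]
      have h5 : B.updateCol j w =
          Matrix.of fun i' j' => (c i' ((Function.update I j l) j') : ℝ) := by
        ext i' j'
        by_cases h : j' = j
        · subst h
          simp [hw]
        · simp [h, hB]
      rw [h5]
      exact hImax _
    have h6 : |B.det| * |(b i l : ℝ)| ≤ |B.det| * (((d + 1 : ℕ) : ℝ) * ‖zcomb B (a i)‖) := by
      rw [← abs_mul, h1]
      calc |∑ j, zcomb B (a i) j * (B.cramer w) j|
          ≤ ∑ j, |zcomb B (a i) j * (B.cramer w) j| := Finset.abs_sum_le_sum_abs _ _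
        _ ≤ ∑ _j : Fin (d + 1), ‖zcomb B (a i)‖ * |B.det| := by
            apply Finset.sum_le_sum
            intro j _
            rw [abs_mul]
            exact mul_le_mul (norm_le_pi_norm (zcomb B (a i)) j) (h4 j) (abs_nonneg _)
              (norm_nonneg _)
        _ = |B.det| * (((d + 1 : ℕ) : ℝ) * ‖zcomb B (a i)‖) := by
            rw [Finset.sum_const, Finset.card_univ, Fintype.card_fin, nsmul_eq_mul]
            ring
    exact le_of_mul_le_mul_left h6 (abs_pos.2 hdetB)
  calc ∏ i, ‖b i‖ ≤ ∏ i, (((d + 1 : ℕ) : ℝ) * ‖zcomb B (a i)‖) :=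
        Finset.prod_le_prod (fun _ _ => norm_nonneg _) (fun i _ => hbnorm i)
    _ = ((d + 1 : ℕ) : ℝ) ^ (d + 1) * ∏ i, ‖zcomb B (a i)‖ := by
        rw [Finset.prod_mul_distrib, Finset.prod_const, Finset.card_univ, Fintype.card_fin]
    _ ≤ ((d + 1 : ℕ) : ℝ) ^ (d + 1) * (Real.sqrt ((d + 1 : ℕ) : ℝ) ^ (d + 1) * height d L) := by
        gcongr
        exact haprod.trans (by gcongr)
    _ = _ := by ring

end Pool.Agent.LibInterm
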