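import Mathlib

/-!
A bound for the determinant of a small matrix plus a large matrix of rank one.
-/

open Matrix

namespace Pool.Agent.LibInterm

theorem det_add_rank_one_le {k : ℕ} (c τ : Fin k → ℝ) (E : Matrix (Fin k) (Fin k) ℝ)
    {X Q : ℝ} (hQ : 1 ≤ Q) (hX : 1 ≤ X) (n : ℕ) (hc : ∀ i, |c i| ≤ X * Q ^ n)
    (hτ : ∀ j, |τ j| ≤ X) (hE : ∀ i j, |E i j| ≤ X / Q) :
    |(Matrix.of fun i j => E i j + c i * τ j).det| * Q ^ k ≤
      ((k + 1).factorial * X ^ (k + 1)) * Q ^ (n + 1) := by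
  have hQ0 : 0 < Q := by linarith
  set M : Matrix (Unit ⊕ Fin k) (Unit ⊕ Fin k) ℝ :=
    Matrix.fromBlocks 1 (Matrix.of fun _ j => -τ j) (Matrix.of fun i _ => c i) E with hM
  have hdet : M.det = (Matrix.of fun i j => E i j + c i * τ j).det := by
    rw [hM, Matrix.det_fromBlocks_one₁₁]
    congr 1
    ext i j
    simp [Matrix.mul_apply]
  set r : Unit ⊕ Fin k → ℝ := Sum.elim (fun _ => Q⁻¹) (fun _ => 1) with hr
  set s : Unit ⊕ Fin k → ℝ := Sum.elim (fun _ => (Q ^ n)⁻¹) (fun _ => Q) with hs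
  set M' : Matrix (Unit ⊕ Fin k) (Unit ⊕ Fin k) ℝ :=
    Matrix.of fun a b => r a * (Matrix.of (fun a b => s b * M a b)) a b with hM'
  have hdet' : M'.det = Q⁻¹ * ((Q ^ n)⁻¹ * Q ^ k * M.det) := by
    rw [hM', Matrix.det_mul_column, Matrix.det_mul_row]
    simp [hr, hs]
  have hbound : ∀ a b, AbsoluteValue.abs (M' a b) ≤ X := by
    intro a b
    rw [AbsoluteValue.abs_apply]
    rcases a with a | i <;> rcases b with b | j
    · simp only [hM', hM, hr, hs, Matrix.of_apply, Sum.elim_inl, Matrix.fromBlocks_apply₁₁,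
        Matrix.one_apply_eq]
      rw [abs_of_pos (by positivity)]
      have h1 : Q⁻¹ ≤ 1 := inv_le_one_of_one_le₀ hQ
      have h2 : (Q ^ n)⁻¹ ≤ 1 := inv_le_one_of_one_le₀ (one_le_pow₀ hQ)
      have h3 : 0 < Q⁻¹ := by positivity
      have h4 : 0 < (Q ^ n)⁻¹ := by positivity
      nlinarith
    · simp only [hM', hM, hr, hs, Matrix.of_apply, Sum.elim_inl, Sum.elim_inr,
        Matrix.fromBlocks_apply₁₂]
      have h1 : Q⁻¹ * (Q * -τ j) = -τ j := by field_simp
      rw [h1, abs_neg]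
      exact hτ j
    · simp only [hM', hM, hr, hs, Matrix.of_apply, Sum.elim_inl, Sum.elim_inr,
        Matrix.fromBlocks_apply₂₁]
      rw [one_mul, abs_mul, abs_inv, abs_of_pos (pow_pos hQ0 n), inv_mul_le_iff₀ (pow_pos hQ0 n),
        mul_comm]
      exact hc i
    · simp only [hM', hM, hr, hs, Matrix.of_apply, Sum.elim_inr, Matrix.fromBlocks_apply₂₂]
      rw [one_mul, abs_mul, abs_of_pos hQ0]
      have := hE i j
      rw [le_div_iff₀ hQ0] at this
      linarith
  have hle := Matrix.det_le hbound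
  rw [AbsoluteValue.abs_apply, hdet', hdet, nsmul_eq_mul] at hle
  simp only [Fintype.card_sum, Fintype.card_unit, Fintype.card_fin] at hle
  set Dt := (Matrix.of fun i j => E i j + c i * τ j).det
  have h5 : |Q⁻¹ * ((Q ^ n)⁻¹ * Q ^ k * Dt)| * Q ^ (n + 1) = |Dt| * Q ^ k := by
    rw [abs_mul, abs_mul, abs_mul, abs_inv, abs_inv, abs_of_pos hQ0, abs_of_pos (pow_pos hQ0 n),
      abs_of_pos (pow_pos hQ0 k), pow_succ]
    field_simp
  rw [← h5, add_comm k 1]
  exact mul_le_mul_of_nonneg_right hle (by positivity)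

end Pool.Agent.LibInterm
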