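import Mathlib
import Pool.Agent.LibInterm.Defs

/-!
Projective distance: basic estimates.
-/

open Matrix
open scoped InnerProductSpace

namespace Pool.Agent.LibInterm

variable {n : ℕ}

theorem sum_lt_eq {N : ℕ} (f : Fin N → Fin N → ℝ) (hsymm : ∀ i j, f i j = f j i)
    (hdiag : ∀ i, f i i = 0) :
    2 * ∑ i, ∑ j ∈ Finset.univ.filter (fun j => i < j), f i j = ∑ i, ∑ j, f i j := by
  have h1 : ∀ i : Fin N, ∑ j, f i j = ∑ j ∈ Finset.univ.filter (fun j => i < j), f i j +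
      ∑ j ∈ Finset.univ.filter (fun j => j < i), f i j := by
    intro i
    have h2 : ∑ j, f i j = ∑ j ∈ Finset.univ.filter (fun j => i < j), f i j +
        ∑ j ∈ Finset.univ.filter (fun j => ¬ i < j), f i j :=
      (Finset.sum_filter_add_sum_filter_not _ _ _).symm
    rw [h2]
    congr 1
    symm
    apply Finset.sum_subset
    · intro j hj
      simp only [Finset.mem_filter, Finset.mem_univ, true_and] at hj ⊢
      exact not_lt.2 hj.le
    · intro j hj hj2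
      simp only [Finset.mem_filter, Finset.mem_univ, true_and] at hj hj2
      have : j = i := le_antisymm (not_lt.1 hj) (not_lt.1 hj2)
      rw [this]
      exact hdiag i
  have h3 : ∑ i, ∑ j ∈ Finset.univ.filter (fun j => j < i), f i j =
      ∑ i, ∑ j ∈ Finset.univ.filter (fun j => i < j), f i j := by
    simp_rw [Finset.sum_filter]
    rw [Finset.sum_comm]
    apply Finset.sum_congr rfl
    intro i _
    apply Finset.sum_congr rfl
    intro j _
    rw [hsymm]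
  simp_rw [h1]
  rw [Finset.sum_add_distrib, h3]
  ring

theorem wedgeNorm_sq (x y : EuclideanSpace ℝ (Fin (n + 1))) :
    wedgeNorm x y ^ 2 = ‖x‖ ^ 2 * ‖y‖ ^ 2 - ⟪x, y⟫_ℝ ^ 2 := by
  unfold wedgeNorm
  rw [Real.sq_sqrt (Finset.sum_nonneg fun i _ => Finset.sum_nonneg fun j _ => sq_nonneg _)]
  have h1 := sum_lt_eq (fun i j : Fin (n + 1) => (x i * y j - x j * y i) ^ 2)
    (fun i j => by ring) (fun i => by ring)
  have h2 : ∑ i : Fin (n + 1), ∑ j : Fin (n + 1), (x i * y j - x j * y i) ^ 2 =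
      2 * (‖x‖ ^ 2 * ‖y‖ ^ 2 - ⟪x, y⟫_ℝ ^ 2) := by
    rw [EuclideanSpace.real_norm_sq_eq, EuclideanSpace.real_norm_sq_eq]
    have h3 : ⟪x, y⟫_ℝ = ∑ i, x i * y i := by
      rw [PiLp.inner_apply]
      apply Finset.sum_congr rfl
      intro i _
      simp [mul_comm]
    rw [h3]
    have h4 : ∀ i j : Fin (n + 1), (x i * y j - x j * y i) ^ 2 =
        x i ^ 2 * y j ^ 2 + y i ^ 2 * x j ^ 2 - 2 * ((x i * y i) * (x j * y j)) := by
      intro i j; ring
    simp_rw [h4, Finset.sum_sub_distrib, Finset.sum_add_distrib, ← Finset.mul_sum,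
      ← Finset.sum_mul]
    rw [sq (∑ i, x i * y i)]
    ring
  simp only at h1
  linarith

theorem wedgeNorm_nonneg (x y : EuclideanSpace ℝ (Fin (n + 1))) : 0 ≤ wedgeNorm x y :=
  Real.sqrt_nonneg _

theorem wedgeNorm_le (x y : EuclideanSpace ℝ (Fin (n + 1))) : wedgeNorm x y ≤ ‖x‖ * ‖y‖ := by
  have h1 := wedgeNorm_sq x y
  have h2 : wedgeNorm x y ^ 2 ≤ (‖x‖ * ‖y‖) ^ 2 := by
    rw [h1, mul_pow]
    nlinarith [sq_nonneg ⟪x, y⟫_ℝ]
  exact (abs_le_of_sq_le_sq' h2 (by positivity)).2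

theorem wedgeNorm_sub_self (x y : EuclideanSpace ℝ (Fin (n + 1))) :
    wedgeNorm x (y - x) = wedgeNorm x y := by
  unfold wedgeNorm
  congr 1
  apply Finset.sum_congr rfl
  intro i _
  apply Finset.sum_congr rfl
  intro j _
  simp only [PiLp.sub_apply]
  ring

theorem projDist_nonneg (x y : EuclideanSpace ℝ (Fin (n + 1))) : 0 ≤ projDist x y :=
  div_nonneg (wedgeNorm_nonneg _ _) (by positivity)

/-- Projective distance is bounded by Euclidean distance when the second vector has norm at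
least one. -/
theorem projDist_le_dist {x y : EuclideanSpace ℝ (Fin (n + 1))} (hx : x ≠ 0) (hy : 1 ≤ ‖y‖) :
    projDist x y ≤ ‖y - x‖ := by
  unfold projDist
  have hx' : 0 < ‖x‖ := norm_pos_iff.2 hx
  rw [div_le_iff₀ (by positivity), ← wedgeNorm_sub_self]
  calc wedgeNorm x (y - x) ≤ ‖x‖ * ‖y - x‖ := wedgeNorm_le _ _
    _ ≤ ‖y - x‖ * (‖x‖ * ‖y‖) := by
        have : 0 ≤ ‖y - x‖ * ‖x‖ := by positivity
        nlinarith

/-- The foot of the perpendicular from `x` to the line spanned by `y`. -/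
theorem exists_foot {x y : EuclideanSpace ℝ (Fin (n + 1))} (hx : x ≠ 0) (hy : y ≠ 0) :
    ∃ t : ℝ, ‖x - t • y‖ = ‖x‖ * projDist x y ∧ ‖t • y‖ ≤ ‖x‖ := by
  have hx' : 0 < ‖x‖ := norm_pos_iff.2 hx
  have hy' : 0 < ‖y‖ := norm_pos_iff.2 hy
  refine ⟨⟪x, y⟫_ℝ / ‖y‖ ^ 2, ?_, ?_⟩
  · have h1 : ‖x - (⟪x, y⟫_ℝ / ‖y‖ ^ 2) • y‖ ^ 2 = (‖x‖ * projDist x y) ^ 2 := by
      have hsq : projDist x y ^ 2 =
          (‖x‖ ^ 2 * ‖y‖ ^ 2 - ⟪x, y⟫_ℝ ^ 2) / (‖x‖ ^ 2 * ‖y‖ ^ 2) := by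
        rw [projDist, div_pow, wedgeNorm_sq, mul_pow]
      rw [norm_sub_sq_real, norm_smul, inner_smul_right, mul_pow, mul_pow, hsq,
        Real.norm_eq_abs, sq_abs]
      field_simp
      ring
    have h2 : 0 ≤ ‖x‖ * projDist x y := mul_nonneg hx'.le (projDist_nonneg _ _)
    exact (sq_eq_sq₀ (norm_nonneg _) h2).1 h1
  · rw [norm_smul, norm_div, norm_pow, norm_norm, div_mul_eq_mul_div, div_le_iff₀ (by positivity)]
    calc ‖⟪x, y⟫_ℝ‖ * ‖y‖ ≤ (‖x‖ * ‖y‖) * ‖y‖ := by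
          gcongr
          exact norm_inner_le_norm x y
      _ = ‖x‖ * ‖y‖ ^ 2 := by ring

theorem homog_zero (θ : EuclideanSpace ℝ (Fin n)) : homog θ 0 = 1 := rfl

theorem homog_succ (θ : EuclideanSpace ℝ (Fin n)) (i : Fin n) : homog θ i.succ = θ i := rfl

theorem norm_homog_sq (θ : EuclideanSpace ℝ (Fin n)) : ‖homog θ‖ ^ 2 = 1 + ‖θ‖ ^ 2 := by
  rw [EuclideanSpace.real_norm_sq_eq, EuclideanSpace.real_norm_sq_eq, Fin.sum_univ_succ]
  simp [homog_zero, homog_succ]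

theorem one_le_norm_homog (θ : EuclideanSpace ℝ (Fin n)) : 1 ≤ ‖homog θ‖ := by
  have h1 := norm_homog_sq θ
  nlinarith [norm_nonneg (homog θ), sq_nonneg ‖θ‖]

theorem norm_homog_le (θ : EuclideanSpace ℝ (Fin n)) : ‖homog θ‖ ≤ 1 + ‖θ‖ := by
  have h1 := norm_homog_sq θ
  nlinarith [norm_nonneg (homog θ), norm_nonneg θ]

theorem homog_ne_zero (θ : EuclideanSpace ℝ (Fin n)) : homog θ ≠ 0 := by
  have := one_le_norm_homog θ
  intro h
  rw [h, norm_zero] at this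
  linarith

theorem norm_homog_sub (θ η : EuclideanSpace ℝ (Fin n)) :
    ‖homog θ - homog η‖ = ‖θ - η‖ := by
  have h1 : ‖homog θ - homog η‖ ^ 2 = ‖θ - η‖ ^ 2 := by
    rw [EuclideanSpace.real_norm_sq_eq, EuclideanSpace.real_norm_sq_eq, Fin.sum_univ_succ]
    simp [homog_zero, homog_succ]
  exact (sq_eq_sq₀ (norm_nonneg _) (norm_nonneg _)).1 h1

/-- Every vector with first coordinate `1` is of the form `homog θ`. -/
theorem exists_homog {x : EuclideanSpace ℝ (Fin (n + 1))} (hx : x 0 = 1) :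
    ∃ θ : EuclideanSpace ℝ (Fin n), homog θ = x := by
  refine ⟨WithLp.toLp 2 (fun i => x i.succ), ?_⟩
  ext i
  refine Fin.cases ?_ (fun i => ?_) i
  · rw [homog_zero, hx]
  · rw [homog_succ]

end Pool.Agent.LibInterm
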