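import Mathlib
import Pool.Agent.LibInterm.Defs
import Pool.Agent.LibInterm.Heights
import Pool.Agent.LibInterm.Proj
import Pool.Agent.LibInterm.Balanced
import Pool.Agent.LibInterm.MinorBound

/-!
Construction of good rational subspaces from a balanced scale.
-/

open Matrix

namespace Pool.Agent.LibInterm

/-- The point of `ℝ^(d+m)` with coordinates `(α, z)`. -/
noncomputable def pt {d m : ℕ} (α : Fin d → ℝ) (z : Fin m → ℝ) : EuclideanSpace ℝ (Fin (d + m)) :=
  WithLp.toLp 2 (Fin.append α z)

theorem pt_castAdd {d m : ℕ} (α : Fin d → ℝ) (z : Fin m → ℝ) (i : Fin d) :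
    pt α z (Fin.castAdd m i) = α i := by
  simp [pt]

theorem pt_natAdd {d m : ℕ} (α : Fin d → ℝ) (z : Fin m → ℝ) (i : Fin m) :
    pt α z (Fin.natAdd d i) = z i := by
  simp [pt]

theorem construct {d m : ℕ} (α : Fin d → ℝ) (z0 : Fin m → ℝ) {ε : ℝ} (hε : 0 < ε) :
    ∃ C > 0, ∀ Q ≥ 1, Balanced Q ε (Fin.append α z0) →
      ∃ v : Fin (d + 1) → Fin (d + m + 1) → ℤ,
        LinearIndependent ℝ (fun i => intVec (v i)) ∧
        height d (Submodule.span ℝ (Set.range fun i => intVec (v i))) ≤ C * Q ^ m ∧
        ∃ z : Fin m → ℝ,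
          homog (pt α z) ∈ Submodule.span ℝ (Set.range fun i => intVec (v i)) ∧
          (∀ z', homog (pt α z') ∈ Submodule.span ℝ (Set.range fun i => intVec (v i)) →
            z' = z) ∧
          ∀ j, |z j - z0 j| ≤ C * (Q ^ (d + m + 1))⁻¹ := by
  set n := d + m with hn
  set θ : Fin (d + m) → ℝ := Fin.append α z0 with hθ
  set D0 : ℝ := 1 / ε ^ (d + m + 1) * ε with hD0
  have hD0pos : 0 < D0 := by positivity
  set R0 : ℝ := (d + 1) * D0 + 1 with hR0
  have hR0pos : 0 < R0 := by positivity
  set X : ℝ := 1 + ‖θ‖ + (R0 + D0) with hX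
  have hX1 : 1 ≤ X := by
    have := norm_nonneg θ
    linarith
  set K : ℝ := (d + 2).factorial * X ^ (d + 2) with hK
  have hKpos : 0 < K := by positivity
  set cardI : ℝ := ((Fintype.card (Fin (d + 1) ↪o Fin (d + m + 1)) : ℕ) : ℝ) with hcardI
  refine ⟨Real.sqrt cardI * K + (d + 1) * D0 + 1, by positivity, ?_⟩
  set C := Real.sqrt cardI * K + (d + 1) * D0 + 1 with hC
  intro Q hQ hbal
  have hQ0 : 0 < Q := by linarith
  set B := Bmat Q θ with hB
  have hdetB : B.det = 1 := det_Bmat hQ0.ne' θ
  let ι : Fin (d + 1) → Fin (d + m + 1) := Fin.castLE (by omega)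
  have hι0 : ι 0 = 0 := rfl
  have hιs : ∀ j : Fin d, ι j.succ = (Fin.castAdd m j).succ := fun j => rfl
  have hιinj : Function.Injective ι := Fin.castLE_injective _
  choose v hv using fun i : Fin (d + 1) => covering_radius (Nat.succ_pos _) B
    (by rw [hdetB]; exact one_ne_zero) hε hbal (Pi.single (ι i) R0)
  rw [hdetB, abs_one] at hv
  set g : Fin (d + 1) → Fin (d + m + 1) → ℝ := fun i => zcomb B (v i) with hg
  have hδ : ∀ i j, |(Pi.single (ι i) R0 : Fin (d + m + 1) → ℝ) j - g i j| ≤ D0 := by
    intro i j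
    have h1 := norm_le_pi_norm (Pi.single (ι i) R0 - zcomb B (v i)) j
    rw [Pi.sub_apply, Real.norm_eq_abs] at h1
    exact h1.trans (hv i)
  have hgX : ∀ i j, |g i j| ≤ X := by
    intro i j
    have h1 := hδ i j
    have h2 : |(Pi.single (ι i) R0 : Fin (d + m + 1) → ℝ) j| ≤ R0 := by
      by_cases h : j = ι i
      · rw [h, Pi.single_eq_same, abs_of_pos hR0pos]
      · rw [Pi.single_eq_of_ne h, abs_zero]
        exact hR0pos.le
    have h3 : |g i j| ≤ |(Pi.single (ι i) R0 : Fin (d + m + 1) → ℝ) j| +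
        |(Pi.single (ι i) R0 : Fin (d + m + 1) → ℝ) j - g i j| := by
      calc |g i j| = |(Pi.single (ι i) R0 : Fin (d + m + 1) → ℝ) j -
            ((Pi.single (ι i) R0 : Fin (d + m + 1) → ℝ) j - g i j)| := by congr 1; ring
        _ ≤ _ := abs_sub _ _
    have := norm_nonneg θ
    linarith
  -- the first block
  set A : Matrix (Fin (d + 1)) (Fin (d + 1)) ℝ := Matrix.of fun i j => g i (ι j) with hA
  have hAδ : ∀ i j, |(if i = j then R0 else 0) - A i j| ≤ D0 := by
    intro i j
    have h1 := hδ i (ι j)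
    have h2 : (Pi.single (ι i) R0 : Fin (d + m + 1) → ℝ) (ι j) = if i = j then R0 else 0 := by
      by_cases h : i = j
      · subst h
        simp
      · rw [if_neg h, Pi.single_eq_of_ne]
        intro h3
        exact h (hιinj h3).symm
    rw [h2] at h1
    exact h1
  have hAinv : ∀ c e : Fin (d + 1) → ℝ, c ᵥ* A = e → ‖c‖ ≤ ‖e‖ := by
    intro c e hce
    have h1 : ∀ j, R0 * |c j| ≤ ‖e‖ + (d + 1) * D0 * ‖c‖ := by
      intro j
      have h2 : R0 * c j = e j + ∑ i, c i * ((if i = j then R0 else 0) - A i j) := by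
        have h3 : e j = ∑ i, c i * A i j := by
          rw [← hce]
          rfl
        rw [h3]
        simp_rw [mul_sub]
        rw [Finset.sum_sub_distrib]
        simp
        ring
      calc R0 * |c j| = |R0 * c j| := by rw [abs_mul, abs_of_pos hR0pos]
        _ ≤ |e j| + |∑ i, c i * ((if i = j then R0 else 0) - A i j)| := by
            rw [h2]
            exact abs_add_le _ _
        _ ≤ ‖e‖ + ∑ _i : Fin (d + 1), ‖c‖ * D0 := by
            apply add_le_add
            · exact norm_le_pi_norm e j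
            · refine (Finset.abs_sum_le_sum_abs _ _).trans (Finset.sum_le_sum (fun i _ => ?_))
              rw [abs_mul]
              exact mul_le_mul (norm_le_pi_norm c i) (hAδ i j) (abs_nonneg _) (norm_nonneg _)
        _ = ‖e‖ + (d + 1) * D0 * ‖c‖ := by
            rw [Finset.sum_const, Finset.card_univ, Fintype.card_fin, nsmul_eq_mul]
            push_cast
            ring
    have h2 : ‖c‖ ≤ (‖e‖ + (d + 1) * D0 * ‖c‖) / R0 := by
      rw [pi_norm_le_iff_of_nonneg (by positivity)]
      intro j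
      rw [Real.norm_eq_abs, le_div_iff₀ hR0pos, mul_comm]
      exact h1 j
    rw [le_div_iff₀ hR0pos, hR0] at h2
    nlinarith
  have hAdet : A.det ≠ 0 := by
    intro h0
    obtain ⟨x, hx0, hx⟩ := Matrix.exists_vecMul_eq_zero_iff.2 h0
    apply hx0
    have h1 := hAinv x 0 hx
    rw [norm_zero] at h1
    exact norm_le_zero_iff.1 h1
  have hAunit : IsUnit A.det := isUnit_iff_ne_zero.2 hAdet
  -- coordinates of combinations
  have hp0 : ∀ c : Fin (d + 1) → ℝ, (∑ i, c i • intVec (v i)) 0 * (Q ^ n)⁻¹ = (c ᵥ* A) 0 := by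
    intro c
    have h1 : (∑ i, c i • intVec (v i)) 0 = ∑ i, c i * (v i 0 : ℝ) := by
      rw [WithLp.ofLp_sum, Finset.sum_apply]
      rfl
    rw [h1, Finset.sum_mul]
    change _ = ∑ i, c i * A i 0
    apply Finset.sum_congr rfl
    intro i _
    have h2 : A i 0 = (v i 0 : ℝ) * (Q ^ n)⁻¹ := zcomb_Bmat_zero Q θ (v i)
    rw [h2]
    ring
  have hps : ∀ (c : Fin (d + 1) → ℝ) (j : Fin (d + m)),
      Q * ((∑ i, c i • intVec (v i)) j.succ - θ j * (∑ i, c i • intVec (v i)) 0) =
        ∑ i, c i * g i j.succ := by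
    intro c j
    have h1 : ∀ l, (∑ i, c i • intVec (v i)) l = ∑ i, c i * (v i l : ℝ) := by
      intro l
      rw [WithLp.ofLp_sum, Finset.sum_apply]
      rfl
    rw [h1, h1, Finset.mul_sum, ← Finset.sum_sub_distrib, Finset.mul_sum]
    apply Finset.sum_congr rfl
    intro i _
    have h2 : g i j.succ = Q * ((v i j.succ : ℝ) - θ j * v i 0) := zcomb_Bmat_succ Q θ (v i) j
    rw [h2]
    ring
  -- a combination whose first coordinates vanish is zero
  have hzero : ∀ c : Fin (d + 1) → ℝ, (∑ i, c i • intVec (v i)) 0 = 0 →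
      (∀ j : Fin d, (∑ i, c i • intVec (v i)) (Fin.castAdd m j).succ = 0) → c = 0 := by
    intro c h0 hj
    have h1 : c ᵥ* A = 0 := by
      ext j
      refine Fin.cases ?_ (fun j => ?_) j
      · rw [← hp0, h0, zero_mul]
        rfl
      · have h2 := hps c (Fin.castAdd m j)
        rw [h0, hj, mul_zero, sub_zero, mul_zero] at h2
        exact h2.symm
    have h3 := hAinv c 0 h1
    rw [norm_zero] at h3
    exact norm_le_zero_iff.1 h3
  have hvli : LinearIndependent ℝ (fun i => intVec (v i)) := by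
    rw [Fintype.linearIndependent_iff]
    intro c hc i
    have h1 := hzero c (by rw [hc]; rfl) (fun j => by rw [hc]; rfl)
    rw [h1]
    rfl
  -- the special combination
  set e : Fin (d + 1) → ℝ := Pi.single 0 (Q ^ n)⁻¹ with he
  set c : Fin (d + 1) → ℝ := e ᵥ* A⁻¹ with hc
  have hcA : c ᵥ* A = e := by
    rw [hc, Matrix.vecMul_vecMul, Matrix.nonsing_inv_mul A hAunit, Matrix.vecMul_one]
  have henorm : ‖e‖ ≤ (Q ^ n)⁻¹ := by
    rw [pi_norm_le_iff_of_nonneg (by positivity)]
    intro j
    by_cases h : j = 0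
    · subst h
      rw [he, Pi.single_eq_same, Real.norm_eq_abs, abs_of_pos (by positivity)]
    · rw [he, Pi.single_eq_of_ne h, norm_zero]
      positivity
  have hcnorm : ‖c‖ ≤ (Q ^ n)⁻¹ := (hAinv c e hcA).trans henorm
  set p : EuclideanSpace ℝ (Fin (d + m + 1)) := ∑ i, c i • intVec (v i) with hp
  have hpspan : p ∈ Submodule.span ℝ (Set.range fun i => intVec (v i)) :=
    Submodule.sum_mem _ (fun i _ => Submodule.smul_mem _ _ (Submodule.subset_span ⟨i, rfl⟩))
  have hp0' : p 0 = 1 := by
    have h1 := hp0 c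
    rw [hcA, he, Pi.single_eq_same] at h1
    have h2 : (Q ^ n)⁻¹ ≠ 0 := by positivity
    exact mul_right_cancel₀ h2 (by rw [h1, one_mul])
  have hpj : ∀ j : Fin d, p (Fin.castAdd m j).succ = α j := by
    intro j
    have h1 := hps c (Fin.castAdd m j)
    have h2 : ∑ i, c i * g i (Fin.castAdd m j).succ = 0 := by
      have h3 : ∑ i, c i * g i (Fin.castAdd m j).succ = (c ᵥ* A) j.succ := rfl
      rw [h3, hcA, he, Pi.single_eq_of_ne (Fin.succ_ne_zero j)]
    rw [h2, ← hp, hp0', mul_one] at h1
    have h3 : p (Fin.castAdd m j).succ - θ (Fin.castAdd m j) = 0 := by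
      rcases mul_eq_zero.1 h1 with h | h
      · exact absurd h hQ0.ne'
      · exact h
    have h4 : θ (Fin.castAdd m j) = α j := by simp [hθ]
    rw [h4] at h3
    linarith
  set z : Fin m → ℝ := fun j => p (Fin.natAdd d j).succ with hz
  have hhomog : homog (pt α z) = p := by
    ext l
    refine Fin.cases ?_ (fun l => ?_) l
    · rw [homog_zero, hp0']
    · rw [homog_succ]
      refine Fin.addCases (fun j => ?_) (fun j => ?_) l
      · rw [pt_castAdd, hpj]
      · rw [pt_natAdd]
  refine ⟨v, hvli, ?_, z, ?_, ?_, ?_⟩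
  · -- the height
    refine (height_le_minors v hvli rfl).trans ?_
    have hminor : ∀ I : Fin (d + 1) ↪o Fin (d + m + 1),
        |minors (fun i => intVec (v i)) I| ≤ K * Q ^ m := by
      intro I
      set cc : Fin (d + 1) → ℝ := fun i => (v i 0 : ℝ) with hcc
      set τ : Fin (d + 1) → ℝ := fun j => (Fin.cons 1 θ : Fin (d + m + 1) → ℝ) (I j) with hτ
      set E : Matrix (Fin (d + 1)) (Fin (d + 1)) ℝ := Matrix.of fun i j =>
        (v i (I j) : ℝ) - (v i 0 : ℝ) * (Fin.cons 1 θ : Fin (d + m + 1) → ℝ) (I j) with hE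
      have h1 : minors (fun i => intVec (v i)) I =
          (Matrix.of fun i j => E i j + cc i * τ j).det := by
        unfold minors
        congr 1
        ext i j
        simp [hE, hcc, hτ, intVec]
      have hcc' : ∀ i, |cc i| ≤ X * Q ^ n := by
        intro i
        have h2 : g i 0 = (v i 0 : ℝ) * (Q ^ n)⁻¹ := zcomb_Bmat_zero Q θ (v i)
        have h3 := hgX i 0
        rw [h2, abs_mul, abs_inv, abs_of_pos (pow_pos hQ0 n), ← div_eq_mul_inv,
          div_le_iff₀ (pow_pos hQ0 n)] at h3
        exact h3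
      have hτ' : ∀ j, |τ j| ≤ X := by
        intro j
        have hθX : ‖θ‖ ≤ X := by linarith
        have h2 : ∀ l : Fin (d + m + 1), |(Fin.cons 1 θ : Fin (d + m + 1) → ℝ) l| ≤ X := by
          intro l
          refine Fin.cases ?_ (fun l => ?_) l
          · simpa using hX1
          · exact (norm_le_pi_norm θ l).trans hθX
        exact h2 (I j)
      have hE' : ∀ i j, |E i j| ≤ X / Q := by
        intro i j
        have h2 : ∀ l : Fin (d + m + 1),
            |(v i l : ℝ) - (v i 0 : ℝ) * (Fin.cons 1 θ : Fin (d + m + 1) → ℝ) l| ≤ X / Q := by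
          intro l
          refine Fin.cases ?_ (fun l => ?_) l
          · simp only [Fin.cons_zero, mul_one, sub_self, abs_zero]
            positivity
          · have h3 : g i l.succ = Q * ((v i l.succ : ℝ) - θ l * v i 0) :=
              zcomb_Bmat_succ Q θ (v i) l
            have h4 := hgX i l.succ
            rw [h3, abs_mul, abs_of_pos hQ0] at h4
            rw [le_div_iff₀ hQ0, Fin.cons_succ, mul_comm (v i 0 : ℝ)]
            linarith
        exact h2 (I j)
      have h5 := det_add_rank_one_le cc τ E hQ hX1 n hcc' hτ' hE'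
      rw [← h1] at h5
      have h6 : Q ^ (n + 1) = Q ^ m * Q ^ (d + 1) := by
        rw [← pow_add]
        congr 1
        omega
      rw [h6, ← mul_assoc] at h5
      exact le_of_mul_le_mul_right h5 (by positivity)
    have h7 : ∑ I : Fin (d + 1) ↪o Fin (d + m + 1), (minors (fun i => intVec (v i)) I) ^ 2 ≤
        cardI * (K * Q ^ m) ^ 2 := by
      calc ∑ I : Fin (d + 1) ↪o Fin (d + m + 1), (minors (fun i => intVec (v i)) I) ^ 2
          ≤ ∑ _I : Fin (d + 1) ↪o Fin (d + m + 1), (K * Q ^ m) ^ 2 := by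
            apply Finset.sum_le_sum
            intro I _
            rw [← sq_abs]
            exact pow_le_pow_left₀ (abs_nonneg _) (hminor I) 2
        _ = cardI * (K * Q ^ m) ^ 2 := by
            rw [Finset.sum_const, Finset.card_univ, nsmul_eq_mul]
    calc Real.sqrt (∑ I : Fin (d + 1) ↪o Fin (d + m + 1),
          (minors (fun i => intVec (v i)) I) ^ 2)
        ≤ Real.sqrt (cardI * (K * Q ^ m) ^ 2) := Real.sqrt_le_sqrt h7
      _ = Real.sqrt cardI * (K * Q ^ m) := by
          rw [Real.sqrt_mul (by positivity), Real.sqrt_sq (by positivity)]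
      _ = Real.sqrt cardI * K * Q ^ m := by ring
      _ ≤ C * Q ^ m := by
          apply mul_le_mul_of_nonneg_right _ (by positivity)
          have : 0 ≤ (d + 1) * D0 + 1 := by positivity
          linarith
  · rw [hhomog]
    exact hpspan
  · intro z' hz'
    have h1 : homog (pt α z') - p ∈ Submodule.span ℝ (Set.range fun i => intVec (v i)) :=
      Submodule.sub_mem _ hz' hpspan
    obtain ⟨b, hb⟩ := (Submodule.mem_span_range_iff_exists_fun ℝ).1 h1
    have h2 := hzero b
      (by rw [hb, PiLp.sub_apply, homog_zero, hp0', sub_self])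
      (fun j => by rw [hb, PiLp.sub_apply, homog_succ, pt_castAdd, hpj, sub_self])
    rw [h2] at hb
    simp only [Pi.zero_apply, zero_smul, Finset.sum_const_zero] at hb
    have h3 : homog (pt α z') = p := (sub_eq_zero.1 hb.symm)
    ext j
    have h4 : homog (pt α z') (Fin.natAdd d j).succ = p (Fin.natAdd d j).succ := by rw [h3]
    rw [homog_succ, pt_natAdd] at h4
    exact h4
  · intro j
    have h1 := hps c (Fin.natAdd d j)
    rw [← hp, hp0', mul_one] at h1
    have h2 : θ (Fin.natAdd d j) = z0 j := by simp [hθ]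
    rw [h2] at h1
    have h3 : |∑ i, c i * g i (Fin.natAdd d j).succ| ≤ (d + 1) * D0 * (Q ^ n)⁻¹ := by
      calc |∑ i, c i * g i (Fin.natAdd d j).succ|
          ≤ ∑ i, |c i * g i (Fin.natAdd d j).succ| := Finset.abs_sum_le_sum_abs _ _
        _ ≤ ∑ _i : Fin (d + 1), (Q ^ n)⁻¹ * D0 := by
            apply Finset.sum_le_sum
            intro i _
            rw [abs_mul]
            apply mul_le_mul ((norm_le_pi_norm c i).trans hcnorm) _ (abs_nonneg _)
              (by positivity)
            have h4 := hδ i (Fin.natAdd d j).succ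
            have h5 : (Fin.natAdd d j).succ ≠ ι i := by
              intro h
              have h6 := congrArg Fin.val h
              simp only [ι, Fin.val_succ, Fin.val_natAdd, Fin.val_castLE] at h6
              have := i.2
              omega
            rw [Pi.single_eq_of_ne h5, zero_sub, abs_neg] at h4
            exact h4
        _ = (d + 1) * D0 * (Q ^ n)⁻¹ := by
            rw [Finset.sum_const, Finset.card_univ, Fintype.card_fin, nsmul_eq_mul]
            push_cast
            ring
    have h4 : |z j - z0 j| = |∑ i, c i * g i (Fin.natAdd d j).succ| * Q⁻¹ := by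
      rw [← h1, abs_mul, abs_of_pos hQ0]
      field_simp
      rfl
    rw [h4]
    calc |∑ i, c i * g i (Fin.natAdd d j).succ| * Q⁻¹
        ≤ ((d + 1) * D0 * (Q ^ n)⁻¹) * Q⁻¹ := by gcongr
      _ = (d + 1) * D0 * (Q ^ (d + m + 1))⁻¹ := by
          rw [pow_succ, mul_inv]
          ring
      _ ≤ C * (Q ^ (d + m + 1))⁻¹ := by
          apply mul_le_mul_of_nonneg_right _ (by positivity)
          have : 0 ≤ Real.sqrt cardI * K + 1 := by positivity
          linarith

end Pool.Agent.LibInterm
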