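import Mathlib
import Pool.Agent.LibInterm.Defs
import Pool.Agent.LibInterm.Proj

/-!
Covering the points of a bounded region which are close to a linear subvariety.
-/

open Matrix
open scoped InnerProductSpace

namespace Pool.Agent.LibInterm

variable {n : ℕ}

/-- Normalisation of a nearby point of `L` to first coordinate one. -/
theorem exists_normalized {L : Submodule ℝ (EuclideanSpace ℝ (Fin (n + 1)))}
    {θ : EuclideanSpace ℝ (Fin n)} {R r : ℝ} (hθ : ‖θ‖ ≤ R)
    (hr : r ≤ 1 / (2 * (1 + R))) {y : EuclideanSpace ℝ (Fin (n + 1))} (hyL : y ∈ L) (hy : y ≠ 0)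
    (hd : projDist (homog θ) y ≤ r) :
    ∃ p ∈ L, p 0 = 1 ∧ ‖p‖ ≤ 2 * (1 + R) ∧ ‖homog θ - p‖ ≤ 3 * (1 + R) ^ 2 * r := by
  have hR : 0 ≤ R := (norm_nonneg _).trans hθ
  have hr0 : 0 ≤ r := (projDist_nonneg _ _).trans hd
  obtain ⟨t, ht1, ht2⟩ := exists_foot (homog_ne_zero θ) hy
  set x := homog θ with hx
  set A := 1 + R with hA
  have hA1 : 1 ≤ A := by linarith
  have hxA : ‖x‖ ≤ A := (norm_homog_le θ).trans (by linarith)
  have hxp : ‖x - t • y‖ ≤ A * r := by
    rw [ht1]
    exact mul_le_mul hxA hd (projDist_nonneg _ _) (by linarith)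
  have hpA : ‖t • y‖ ≤ A := ht2.trans hxA
  have hAr : A * r ≤ 1 / 2 := by
    calc A * r ≤ A * (1 / (2 * A)) := by gcongr
      _ = 1 / 2 := by field_simp
  set p := t • y with hp
  have hp0 : |1 - p 0| ≤ A * r := by
    have h1 : ‖(x - p) 0‖ ≤ ‖x - p‖ := PiLp.norm_apply_le (x - p) 0
    rw [PiLp.sub_apply, Real.norm_eq_abs, homog_zero] at h1
    exact h1.trans hxp
  have hp0' : 1 / 2 ≤ p 0 := by
    have := (abs_le.1 (hp0.trans hAr)).2
    linarith
  have hp0pos : 0 < p 0 := by linarith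
  refine ⟨(p 0)⁻¹ • p, ?_, ?_, ?_, ?_⟩
  · exact L.smul_mem _ (L.smul_mem _ hyL)
  · rw [PiLp.smul_apply, smul_eq_mul, inv_mul_cancel₀ hp0pos.ne']
  · rw [norm_smul, Real.norm_eq_abs, abs_of_pos (by positivity)]
    have h2 : (p 0)⁻¹ ≤ 2 := by
      rw [inv_le_comm₀ hp0pos (by norm_num)]
      linarith
    have h6 : (p 0)⁻¹ * ‖p‖ ≤ 2 * A := by gcongr
    exact h6
  · have h3 : ‖p - (p 0)⁻¹ • p‖ ≤ 2 * A ^ 2 * r := by
      have h4 : p - (p 0)⁻¹ • p = (-(1 - p 0) * (p 0)⁻¹) • p := by
        have h5 : (-(1 - p 0) * (p 0)⁻¹) = 1 - (p 0)⁻¹ := by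
          field_simp
          ring
        rw [h5, sub_smul, one_smul]
      rw [h4, norm_smul, norm_mul, norm_neg, Real.norm_eq_abs, Real.norm_eq_abs,
        abs_of_pos (show 0 < (p 0)⁻¹ by positivity)]
      have h2 : (p 0)⁻¹ ≤ 2 := by
        rw [inv_le_comm₀ hp0pos (by norm_num)]
        linarith
      calc |1 - p 0| * (p 0)⁻¹ * ‖p‖ ≤ (A * r) * 2 * A := by gcongr
        _ = 2 * A ^ 2 * r := by ring
    calc ‖x - (p 0)⁻¹ • p‖ = ‖(x - p) + (p - (p 0)⁻¹ • p)‖ := by congr 1; abel
      _ ≤ ‖x - p‖ + ‖p - (p 0)⁻¹ • p‖ := norm_add_le _ _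
      _ ≤ A * r + 2 * A ^ 2 * r := add_le_add hxp h3
      _ ≤ 3 * A ^ 2 * r := by
          have : A * r ≤ A ^ 2 * r := by
            apply mul_le_mul_of_nonneg_right _ hr0
            nlinarith
          linarith

/-- Orthonormal vectors spanning the vectors of `L` with first coordinate zero. -/
theorem exists_horizontal {d : ℕ} {L : Submodule ℝ (EuclideanSpace ℝ (Fin (n + 1)))}
    (hL : Module.finrank ℝ L = d + 1) {q : EuclideanSpace ℝ (Fin (n + 1))} (hqL : q ∈ L)
    (hq0 : q 0 = 1) : ∃ f : Fin d → EuclideanSpace ℝ (Fin (n + 1)),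
      (∀ j, f j 0 = 0) ∧ (∀ j, ‖f j‖ = 1) ∧
      ∀ u ∈ L, u 0 = 0 → ∃ t : Fin d → ℝ, u = ∑ j, t j • f j ∧ ∀ j, |t j| ≤ ‖u‖ := by
  let φ : L →ₗ[ℝ] ℝ :=
    { toFun := fun x => (x : EuclideanSpace ℝ (Fin (n + 1))) 0
      map_add' := fun x y => rfl
      map_smul' := fun t x => rfl }
  have hφsurj : LinearMap.range φ = ⊤ := by
    rw [LinearMap.range_eq_top]
    intro t
    refine ⟨t • ⟨q, hqL⟩, ?_⟩
    rw [map_smul]
    change t • q 0 = t
    rw [hq0, smul_eq_mul, mul_one]
  have hker : Module.finrank ℝ (LinearMap.ker φ) = d := by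
    have h1 := LinearMap.finrank_range_add_finrank_ker φ
    rw [hφsurj, finrank_top, Module.finrank_self, hL] at h1
    omega
  set W := (LinearMap.ker φ).map L.subtype with hW
  have hWd : Module.finrank ℝ W = d := by
    rw [hW, Submodule.finrank_map_subtype_eq, hker]
  have hWmem : ∀ u, u ∈ L → u 0 = 0 → u ∈ W := by
    intro u hu h0
    exact ⟨⟨u, hu⟩, h0, rfl⟩
  have hW0 : ∀ u ∈ W, u 0 = 0 := by
    rintro _ ⟨u, hu, rfl⟩
    exact hu
  set b := (stdOrthonormalBasis ℝ W).reindex (finCongr hWd) with hb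
  refine ⟨fun j => (b j : EuclideanSpace ℝ (Fin (n + 1))), fun j => hW0 _ (b j).2, ?_, ?_⟩
  · intro j
    exact b.orthonormal.1 j
  · intro u hu h0
    set u' : W := ⟨u, hWmem u hu h0⟩ with hu'
    refine ⟨fun j => ⟪b j, u'⟫_ℝ, ?_, ?_⟩
    · have h1 := congrArg (fun x : W => (x : EuclideanSpace ℝ (Fin (n + 1)))) (b.sum_repr' u')
      simp only [Submodule.coe_sum, Submodule.coe_smul] at h1
      exact h1.symm
    · intro j
      have h1 := abs_real_inner_le_norm (b j) u'
      rw [b.orthonormal.1 j, one_mul] at h1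
      exact h1

theorem cover_nbhd (n d : ℕ) {R rmax : ℝ} (hR : 0 ≤ R) (hrmax : 0 < rmax) :
    ∃ C > 0, ∀ L : Submodule ℝ (EuclideanSpace ℝ (Fin (n + 1))), Module.finrank ℝ L = d + 1 →
      ∀ r, 0 < r → r ≤ rmax → ∃ F : Finset (EuclideanSpace ℝ (Fin n)),
        (F.card : ℝ) ≤ C * (1 / r) ^ d ∧
        ∀ θ : EuclideanSpace ℝ (Fin n), ‖θ‖ ≤ R →
          (∃ y ∈ L, y ≠ 0 ∧ projDist (homog θ) y ≤ r) → ∃ c ∈ F, dist θ c ≤ C * r := by
  set A := 1 + R with hA
  have hA1 : 1 ≤ A := by linarith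
  refine ⟨(8 * A + 5 * rmax) ^ d + rmax ^ d + 2 * R * A + 3 * A ^ 2 + d + 1, by positivity, ?_⟩
  intro L hL r hr hrm
  set C := (8 * A + 5 * rmax) ^ d + rmax ^ d + 2 * R * A + 3 * A ^ 2 + d + 1 with hC
  have hC1 : (8 * A + 5 * rmax) ^ d ≤ C := by
    have : 0 ≤ rmax ^ d + 2 * R * A + 3 * A ^ 2 + d + 1 := by positivity
    linarith
  have hC2 : rmax ^ d ≤ C := by
    have : 0 ≤ (8 * A + 5 * rmax) ^ d + 2 * R * A + 3 * A ^ 2 + d + 1 := by positivity
    linarith
  have hC3 : 2 * R * A ≤ C := by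
    have : 0 ≤ (8 * A + 5 * rmax) ^ d + rmax ^ d + 3 * A ^ 2 + d + 1 := by positivity
    linarith
  have hC4 : 3 * A ^ 2 + d ≤ C := by
    have : 0 ≤ (8 * A + 5 * rmax) ^ d + rmax ^ d + 2 * R * A + 1 := by positivity
    linarith
  rcases lt_or_ge (1 / (2 * A)) r with hbig | hsmall
  · refine ⟨{0}, ?_, ?_⟩
    · rw [Finset.card_singleton, Nat.cast_one]
      calc (1 : ℝ) = rmax ^ d * (1 / rmax) ^ d := by
            rw [← mul_pow, mul_one_div_cancel hrmax.ne', one_pow]
        _ ≤ C * (1 / r) ^ d := by gcongr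
    · intro θ hθ _
      refine ⟨0, Finset.mem_singleton_self _, ?_⟩
      rw [dist_zero_right]
      calc ‖θ‖ ≤ R := hθ
        _ = 2 * R * A * (1 / (2 * A)) := by field_simp
        _ ≤ C * r := by gcongr
  · by_cases hex : ∃ θ : EuclideanSpace ℝ (Fin n), ‖θ‖ ≤ R ∧
      (∃ y ∈ L, y ≠ 0 ∧ projDist (homog θ) y ≤ r)
    swap
    · refine ⟨∅, ?_, ?_⟩
      · rw [Finset.card_empty, Nat.cast_zero]
        positivity
      · intro θ h1 h2
        exact absurd ⟨θ, h1, h2⟩ hex
    obtain ⟨θ0, hθ0, y0, hy0L, hy0, hd0⟩ := hex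
    obtain ⟨q, hqL, hq0, hqn, _⟩ := exists_normalized hθ0 hsmall hy0L hy0 hd0
    obtain ⟨f, hf0, hf1, hfspan⟩ := exists_horizontal hL hqL hq0
    set M : ℤ := ⌈4 * A / r + 1⌉ with hM
    have hM0 : 0 ≤ M := Int.ceil_nonneg (by positivity)
    -- the centers
    let cen : (Fin d → ℤ) → EuclideanSpace ℝ (Fin (n + 1)) :=
      fun g => q + ∑ j, (r * (g j : ℝ)) • f j
    have hcen0 : ∀ g, cen g 0 = 1 := by
      intro g
      simp only [cen]
      rw [PiLp.add_apply, hq0, WithLp.ofLp_sum, Finset.sum_apply]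
      simp [hf0]
    choose cenθ hcenθ using fun g => exists_homog (hcen0 g)
    refine ⟨(Fintype.piFinset (fun _ => Finset.Icc (-M) M)).image cenθ, ?_, ?_⟩
    · have h1 : (((Fintype.piFinset (fun _ : Fin d =>
          Finset.Icc (-M) M)).image cenθ).card : ℝ) ≤ (2 * M + 1 : ℝ) ^ d := by
        have h2 := Finset.card_image_le (s := Fintype.piFinset
          (fun _ : Fin d => Finset.Icc (-M) M)) (f := cenθ)
        have h3 : ((Fintype.piFinset (fun _ : Fin d =>
          Finset.Icc (-M) M)).card : ℝ) = (2 * M + 1 : ℝ) ^ d := by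
          rw [Fintype.card_piFinset, Finset.prod_const, Finset.card_univ, Fintype.card_fin,
            Int.card_Icc]
          push_cast
          congr 1
          have h4 : (((M + 1 - -M).toNat : ℤ) : ℝ) = ((M + 1 - -M : ℤ) : ℝ) := by
            rw [Int.toNat_of_nonneg (by omega)]
          rw [Int.cast_natCast] at h4
          rw [h4]
          push_cast
          ring
        rw [← h3]
        exact_mod_cast h2
      have h5 : (M : ℝ) ≤ 4 * A / r + 2 := by
        have := (Int.ceil_lt_add_one (4 * A / r + 1)).le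
        rw [← hM] at this
        linarith
      calc _ ≤ (2 * M + 1 : ℝ) ^ d := h1
        _ ≤ ((8 * A + 5 * rmax) * (1 / r)) ^ d := by
            have hMR : (0 : ℝ) ≤ M := by exact_mod_cast hM0
            apply pow_le_pow_left₀ (by positivity)
            have h6 : 5 ≤ 5 * rmax * (1 / r) := by
              rw [mul_one_div, le_div_iff₀ hr]
              linarith
            calc (2 * M + 1 : ℝ) ≤ 8 * A * (1 / r) + 5 := by
                  have h7 : 8 * A * (1 / r) = 2 * (4 * A / r) := by field_simp; ring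
                  rw [h7]
                  linarith
              _ ≤ (8 * A + 5 * rmax) * (1 / r) := by
                  rw [add_mul]
                  linarith
        _ = (8 * A + 5 * rmax) ^ d * (1 / r) ^ d := mul_pow _ _ _
        _ ≤ C * (1 / r) ^ d := by gcongr
    · rintro θ hθ ⟨y, hyL, hy, hd⟩
      obtain ⟨p, hpL, hp0, hpn, hpd⟩ := exists_normalized hθ hsmall hyL hy hd
      obtain ⟨t, htsum, htle⟩ := hfspan (p - q) (L.sub_mem hpL hqL)
        (by rw [PiLp.sub_apply, hp0, hq0, sub_self])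
      have hun : ‖p - q‖ ≤ 4 * A := by
        calc ‖p - q‖ ≤ ‖p‖ + ‖q‖ := norm_sub_le _ _
          _ ≤ 4 * A := by linarith
      set g : Fin d → ℤ := fun j => round (t j / r) with hg
      have hgr : ∀ j, |t j - r * g j| ≤ r := by
        intro j
        have h1 := abs_sub_round (t j / r)
        have h2 : t j - r * g j = r * (t j / r - round (t j / r)) := by
          rw [hg]
          field_simp
        rw [h2, abs_mul, abs_of_pos hr]
        nlinarith
      have hgM : ∀ j, |g j| ≤ M := by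
        intro j
        have h1 : |(g j : ℝ)| ≤ 4 * A / r + 1 := by
          have h2 := hgr j
          have h3 : |r * (g j : ℝ)| ≤ 4 * A + r := by
            calc |r * (g j : ℝ)| = |t j - (t j - r * g j)| := by congr 1; ring
              _ ≤ |t j| + |t j - r * g j| := abs_sub _ _
              _ ≤ 4 * A + r := add_le_add ((htle j).trans hun) h2
          rw [abs_mul, abs_of_pos hr] at h3
          have h4 : 4 * A / r + 1 = (4 * A + r) / r := by field_simp
          rw [h4, le_div_iff₀ hr]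
          linarith
        have h5 := h1.trans (Int.le_ceil (4 * A / r + 1))
        rw [← hM] at h5
        exact_mod_cast h5
      refine ⟨cenθ g, ?_, ?_⟩
      · apply Finset.mem_image_of_mem
        rw [Fintype.mem_piFinset]
        intro j
        rw [Finset.mem_Icc]
        exact abs_le.1 (hgM j)
      · rw [dist_eq_norm, ← norm_homog_sub, hcenθ]
        have h1 : ‖p - cen g‖ ≤ d * r := by
          have h4 : p - cen g = ∑ j, (t j - r * g j) • f j := by
            simp only [cen]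
            rw [← sub_sub, htsum, ← Finset.sum_sub_distrib]
            apply Finset.sum_congr rfl
            intro j _
            rw [sub_smul]
          rw [h4]
          calc ‖∑ j, (t j - r * g j) • f j‖
              ≤ ∑ j, ‖(t j - r * g j) • f j‖ := norm_sum_le _ _
            _ ≤ ∑ _j : Fin d, r := by
                apply Finset.sum_le_sum
                intro j _
                rw [norm_smul, hf1 j, mul_one, Real.norm_eq_abs]
                exact hgr j
            _ = d * r := by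
                rw [Finset.sum_const, Finset.card_univ, Fintype.card_fin, nsmul_eq_mul]
        calc ‖homog θ - cen g‖ = ‖(homog θ - p) + (p - cen g)‖ := by congr 1; abel
          _ ≤ ‖homog θ - p‖ + ‖p - cen g‖ := norm_add_le _ _
          _ ≤ 3 * A ^ 2 * r + d * r := add_le_add hpd h1
          _ = (3 * A ^ 2 + d) * r := by ring
          _ ≤ C * r := by gcongr

end Pool.Agent.LibInterm
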