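import Mathlib

/-!
Two facts about Hausdorff measures: covers of null sets with positive sizes, and the dimension
version of the mass transference principle for balls.
-/

open MeasureTheory Metric Set Filter
open scoped ENNReal NNReal Topology

namespace Pool.Agent.LibInterm

/-- A set of zero `s`-dimensional Hausdorff measure has countable covers of small cost, with
strictly positive sizes. -/
theorem exists_cover_of_hausdorffMeasure_eq_zero {X : Type*} [MetricSpace X] [MeasurableSpace X]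
    [BorelSpace X] {s : ℝ} (hs : 0 < s) {E : Set X} (hE : μH[s] E = 0) {ε : ℝ≥0∞} (hε : 0 < ε) :
    ∃ (U : ℕ → Set X) (u : ℕ → ℝ), (∀ j, 0 < u j) ∧ (∀ j, ediam (U j) ≤ ENNReal.ofReal (u j)) ∧
      E ⊆ ⋃ j, U j ∧ ∑' j, ENNReal.ofReal (u j ^ s) < ε := by
  obtain ⟨δ', hδ'pos, hδ'sum⟩ := ENNReal.exists_pos_sum_of_countable (ENNReal.half_pos hε.ne').ne' ℕ
  have h1 : (⨅ (t : ℕ → Set X) (_ : E ⊆ ⋃ n, t n) (_ : ∀ n, ediam (t n) ≤ 1),
      ∑' n, ⨆ _ : (t n).Nonempty, ediam (t n) ^ s) < ε / 2 := by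
    have h2 := hE
    rw [Measure.hausdorffMeasure_apply] at h2
    have h3 : (⨅ (t : ℕ → Set X) (_ : E ⊆ ⋃ n, t n) (_ : ∀ n, ediam (t n) ≤ 1),
      ∑' n, ⨆ _ : (t n).Nonempty, ediam (t n) ^ s) ≤ 0 := by
      rw [← h2]
      exact le_iSup₂ (f := fun (r : ℝ≥0∞) (_ : 0 < r) =>
        (⨅ (t : ℕ → Set X) (_ : E ⊆ ⋃ n, t n) (_ : ∀ n, ediam (t n) ≤ r),
          ∑' n, ⨆ _ : (t n).Nonempty, ediam (t n) ^ s)) 1 one_pos
    exact lt_of_le_of_lt h3 (ENNReal.half_pos hε.ne')
  simp only [iInf_lt_iff] at h1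
  obtain ⟨t, hcov, hdiam, hsum⟩ := h1
  set D : ℕ → ℝ≥0∞ := fun n => ⨆ _ : (t n).Nonempty, ediam (t n) ^ s with hD
  have hDfin : ∀ n, D n ≠ ∞ := fun n => ENNReal.ne_top_of_tsum_ne_top (ne_top_of_lt hsum) n
  refine ⟨t, fun n => ((D n).toReal + δ' n) ^ (1 / s), ?_, ?_, hcov, ?_⟩
  · intro j
    have : (0 : ℝ) < (D j).toReal + δ' j := by
      have h1 : (0 : ℝ) ≤ (D j).toReal := ENNReal.toReal_nonneg
      have h2 : (0 : ℝ) < δ' j := hδ'pos j
      linarith
    positivity
  · intro j
    have hpos : (0 : ℝ) < (D j).toReal + δ' j := by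
      have h1 : (0 : ℝ) ≤ (D j).toReal := ENNReal.toReal_nonneg
      have h2 : (0 : ℝ) < δ' j := hδ'pos j
      linarith
    rcases (t j).eq_empty_or_nonempty with h | h
    · simp [h]
    · have hDj : D j = ediam (t j) ^ s := by simp [hD, h]
      have h3 : ediam (t j) = (D j) ^ (1 / s) := by
        rw [hDj, ← ENNReal.rpow_mul, mul_one_div_cancel hs.ne', ENNReal.rpow_one]
      rw [h3, ← ENNReal.ofReal_rpow_of_pos hpos]
      apply ENNReal.rpow_le_rpow _ (by positivity)
      rw [ENNReal.ofReal_add ENNReal.toReal_nonneg (by positivity),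
        ENNReal.ofReal_toReal (hDfin j)]
      exact le_self_add
  · have h4 : ∀ j, ENNReal.ofReal ((((D j).toReal + δ' j) ^ (1 / s)) ^ s) = D j + δ' j := by
      intro j
      have h5 : (0 : ℝ) ≤ (D j).toReal + δ' j := by
        have h1 : (0 : ℝ) ≤ (D j).toReal := ENNReal.toReal_nonneg
        positivity
      rw [← Real.rpow_mul h5, one_div_mul_cancel hs.ne', Real.rpow_one,
        ENNReal.ofReal_add ENNReal.toReal_nonneg (by positivity),
        ENNReal.ofReal_toReal (hDfin j), ENNReal.ofReal_coe_nnreal]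
    simp_rw [h4]
    rw [ENNReal.tsum_add]
    calc ∑' j, D j + ∑' j, (δ' j : ℝ≥0∞) < ε / 2 + ε / 2 := ENNReal.add_lt_add hsum hδ'sum
      _ = ε := ENNReal.add_halves ε

/-- The cost of those members of the cover `U` (with sizes `u`) which meet `B`. -/
noncomputable def cost {X : Type*} (U : ℕ → Set X) (u : ℕ → ℝ) (s : ℝ) (B : Set X) : ℝ≥0∞ :=
  ∑' j, {j | (U j ∩ B).Nonempty}.indicator (fun j => ENNReal.ofReal (u j ^ s)) j

theorem cost_mono {X : Type*} (U : ℕ → Set X) (u : ℕ → ℝ) (s : ℝ) {B C : Set X} (h : B ⊆ C) :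
    cost U u s B ≤ cost U u s C := by
  apply ENNReal.tsum_le_tsum
  intro j
  apply Set.indicator_le_indicator_of_subset _ (fun _ => zero_le)
  intro j hj
  exact hj.mono (inter_subset_inter_right _ h)

theorem mtp_step {m : ℕ} {ι : Type*} [Countable ι] (z : ι → Fin m → ℝ) (r : ι → ℝ)
    (hr : ∀ i, 0 < r i)
    (hfull : ∀ δ > 0, ∀ᵐ x : Fin m → ℝ, ∃ i, r i < δ ∧ x ∈ closedBall (z i) (r i))
    {a : ℝ} (ha : 1 < a) {s : ℝ} (hs : 0 < s) (hsa : s * a < m)
    {η : ℝ} (hη : 0 < η) (hη' : 5 ^ m * η ^ ((m : ℝ) / s) ≤ (1 / 2) * (1 / 10) ^ m)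
    (U : ℕ → Set (Fin m → ℝ)) (u : ℕ → ℝ) (hu : ∀ j, 0 < u j)
    (hUu : ∀ j, ediam (U j) ≤ ENNReal.ofReal (u j))
    (c : Fin m → ℝ) {R : ℝ} (hR : 0 < R)
    (hcost : cost U u s (closedBall c R) < ENNReal.ofReal (η * R ^ s))
    {δ : ℝ} (hδ : 0 < δ) :
    ∃ i, r i < δ ∧ r i ^ a ≤ r i ∧ closedBall (z i) (r i ^ a) ⊆ closedBall c R ∧
      cost U u s (closedBall (z i) (r i ^ a)) < ENNReal.ofReal (η * (r i ^ a) ^ s) := by
  have ha1 : 0 < a - 1 := by linarith
  have hsm : s < m := by nlinarith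
  have hms : 0 < (m : ℝ) - s := by linarith
  have hmas : 0 < (m : ℝ) - a * s := by nlinarith
  set G1 : ℝ := (1 / 2 : ℝ) ^ (1 / (a - 1)) with hG1
  set K : ℝ := 1 / 2 * (1 / 10) ^ m * R ^ ((m : ℝ) - s) with hK
  have hKpos : 0 < K := by positivity
  set G2 : ℝ := K ^ (1 / ((m : ℝ) - a * s)) with hG2
  have hG1pos : 0 < G1 := by positivity
  have hG2pos : 0 < G2 := by positivity
  set G : ℝ := min δ (min (R / 4) (min G1 G2)) with hG
  have hGpos : 0 < G := by
    simp only [hG, lt_min_iff]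
    exact ⟨hδ, by positivity, hG1pos, hG2pos⟩
  -- small radii
  have hsmall : ∀ i, r i < G → r i ^ a ≤ r i / 2 := by
    intro i hi
    have h1 : r i < G1 := lt_of_lt_of_le hi (by simp [hG])
    have h2 : r i ^ (a - 1) ≤ 1 / 2 := by
      calc r i ^ (a - 1) ≤ G1 ^ (a - 1) :=
            Real.rpow_le_rpow (hr i).le h1.le ha1.le
        _ = 1 / 2 := by
            rw [hG1, ← Real.rpow_mul (by norm_num), one_div_mul_cancel ha1.ne', Real.rpow_one]
    calc r i ^ a = r i ^ (1 + (a - 1)) := by ring_nf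
      _ = r i * r i ^ (a - 1) := by rw [Real.rpow_add (hr i), Real.rpow_one]
      _ ≤ r i * (1 / 2) := by
          apply mul_le_mul_of_nonneg_left h2 (hr i).le
      _ = r i / 2 := by ring
  have hsmall' : ∀ i, r i < G → r i ^ a ≤ r i := by
    intro i hi
    have := hsmall i hi
    have := hr i
    linarith
  set T : Set ι := {i | r i < G ∧ closedBall (z i) (r i) ⊆ closedBall c R} with hT
  obtain ⟨V, hVT, hVdisj, hVcov⟩ :=
    Vitali.exists_disjoint_subfamily_covering_enlargement_closedBall T z r G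
      (fun i hi => hi.1.le) 5 (by norm_num)
  have hVG : ∀ i ∈ V, r i < G := fun i hi => (hVT hi).1
  have hVR : ∀ i ∈ V, closedBall (z i) (r i) ⊆ closedBall c R := fun i hi => (hVT hi).2
  -- (A)
  have hA : ENNReal.ofReal (R ^ m) ≤ ∑' i : V, ENNReal.ofReal ((10 * r i) ^ m) := by
    have h1 : volume (ball c (R / 2)) = ENNReal.ofReal (R ^ m) := by
      rw [Real.volume_pi_ball c (by positivity)]
      simp only [Fintype.card_fin]
      congr 2
      ring
    have h2 : volume (ball c (R / 2)) ≤ volume (⋃ i ∈ V, closedBall (z i) (5 * r i)) := by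
      apply measure_mono_ae
      filter_upwards [hfull G hGpos] with x hx hxb
      obtain ⟨i, hi1, hi2⟩ := hx
      have hiR : r i < R / 4 := lt_of_lt_of_le hi1 (by simp [hG])
      have hiT : i ∈ T := by
        refine ⟨hi1, ?_⟩
        intro y hy
        rw [mem_closedBall] at hy hi2 ⊢
        have h3 : dist x c < R / 2 := hxb
        have h4 : dist y c ≤ dist y (z i) + dist (z i) x + dist x c := dist_triangle4 _ _ _ _
        rw [dist_comm (z i) x] at h4
        linarith
      obtain ⟨b, hbV, hb⟩ := hVcov i hiT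
      exact mem_biUnion hbV (hb hi2)
    rw [← h1]
    refine h2.trans ((measure_biUnion_le _ (to_countable V) _).trans ?_)
    apply ENNReal.tsum_le_tsum
    rintro ⟨i, hi⟩
    simp only
    rw [Real.volume_pi_closedBall _ (by have := hr i; positivity)]
    simp only [Fintype.card_fin]
    apply le_of_eq
    congr 2
    ring
  have hA' : ENNReal.ofReal ((R / 10) ^ m) ≤ ∑' i : V, ENNReal.ofReal (r i ^ m) := by
    have h1 : ∀ x : ℝ, 0 ≤ x → ENNReal.ofReal (x ^ m) =
        ENNReal.ofReal ((10 : ℝ) ^ m) * ENNReal.ofReal ((x / 10) ^ m) := by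
      intro x hx
      rw [← ENNReal.ofReal_mul (by positivity), ← mul_pow]
      congr 2
      ring
    rw [h1 R hR.le] at hA
    have h2 : ∑' i : V, ENNReal.ofReal ((10 * r i) ^ m) =
        ENNReal.ofReal ((10 : ℝ) ^ m) * ∑' i : V, ENNReal.ofReal (r i ^ m) := by
      rw [← ENNReal.tsum_mul_left]
      congr 1
      ext ⟨i, hi⟩
      simp only
      rw [mul_pow, ENNReal.ofReal_mul (by positivity)]
    rw [h2] at hA
    have h3 : ENNReal.ofReal ((10 : ℝ) ^ m) ≠ 0 := by
      simp only [ne_eq, ENNReal.ofReal_eq_zero, not_le]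
      positivity
    exact (ENNReal.mul_le_mul_iff_right h3 ENNReal.ofReal_ne_top).1 hA
  -- bad and good
  set Vb : Set ι := {i ∈ V | ∃ j, (U j ∩ closedBall (z i) (r i ^ a)).Nonempty ∧ r i / 2 ≤ u j}
    with hVb
  set Vg : Set ι := V \ Vb with hVg
  set J : Set ℕ := {j | (U j ∩ closedBall c R).Nonempty} with hJ
  have hcostJ : cost U u s (closedBall c R) = ∑' j : J, ENNReal.ofReal (u j ^ s) := by
    rw [cost, tsum_subtype J (fun j => ENNReal.ofReal (u j ^ s))]
  have huJ : ∀ j ∈ J, u j ≤ η ^ (1 / s) * R := by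
    intro j hj
    have h1 : ENNReal.ofReal (u j ^ s) ≤ ENNReal.ofReal (η * R ^ s) := by
      refine le_trans ?_ hcost.le
      rw [hcostJ]
      exact ENNReal.le_tsum (f := fun j : J => ENNReal.ofReal (u j ^ s)) ⟨j, hj⟩
    have h2 : u j ^ s ≤ η * R ^ s := (ENNReal.ofReal_le_ofReal_iff (by positivity)).1 h1
    calc u j = (u j ^ s) ^ (1 / s) := by
          rw [← Real.rpow_mul (hu j).le, mul_one_div_cancel hs.ne', Real.rpow_one]
      _ ≤ (η * R ^ s) ^ (1 / s) := by
          apply Real.rpow_le_rpow (by have := hu j; positivity) h2 (by positivity)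
      _ = η ^ (1 / s) * R := by
          rw [Real.mul_rpow hη.le (by positivity), ← Real.rpow_mul hR.le,
            mul_one_div_cancel hs.ne', Real.rpow_one]
  have hsubR : ∀ i ∈ V, closedBall (z i) (r i ^ a) ⊆ closedBall c R := fun i hi =>
    (closedBall_subset_closedBall (hsmall' i (hVG i hi))).trans (hVR i hi)
  -- (B)
  have hB : ∑' i : Vb, ENNReal.ofReal ((2 * r i) ^ m) ≤ ∑' j : J, ENNReal.ofReal ((10 * u j) ^ m) := by
    have hVbV : Vb ⊆ V := fun i hi => hi.1
    have h1 : volume (⋃ i ∈ Vb, closedBall (z i) (r i)) =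
        ∑' i : Vb, ENNReal.ofReal ((2 * r i) ^ m) := by
      rw [measure_biUnion (to_countable Vb) (hVdisj.subset hVbV)
        (fun i _ => measurableSet_closedBall)]
      congr 1
      ext ⟨i, hi⟩
      rw [Real.volume_pi_closedBall _ (hr i).le, Fintype.card_fin]
    rw [← h1]
    have hy : ∀ j : J, ∃ y, y ∈ U j := fun j => by
      obtain ⟨y, hy, _⟩ := j.2
      exact ⟨y, hy⟩
    choose y hy using hy
    have h2 : (⋃ i ∈ Vb, closedBall (z i) (r i)) ⊆ ⋃ j : J, closedBall (y j) (5 * u j) := by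
      intro x hx
      simp only [mem_iUnion] at hx
      obtain ⟨i, hi, hxi⟩ := hx
      obtain ⟨hiV, j, ⟨q, hqU, hqB⟩, hij⟩ := hi
      have hjJ : j ∈ J := ⟨q, hqU, hsubR i hiV hqB⟩
      simp only [mem_iUnion]
      refine ⟨⟨j, hjJ⟩, ?_⟩
      rw [mem_closedBall] at hxi hqB ⊢
      have h3 : dist q (y ⟨j, hjJ⟩) ≤ u j := by
        have h4 : edist q (y ⟨j, hjJ⟩) ≤ ENNReal.ofReal (u j) :=
          (edist_le_ediam_of_mem hqU (hy ⟨j, hjJ⟩)).trans (hUu j)
        rw [edist_dist] at h4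
        exact (ENNReal.ofReal_le_ofReal_iff (hu j).le).1 h4
      have h5 := dist_triangle4 x (z i) q (y ⟨j, hjJ⟩)
      have h6 := hsmall' i (hVG i hiV)
      rw [dist_comm (z i) q] at h5
      simp only
      linarith
    refine (measure_mono h2).trans ((measure_iUnion_le _).trans ?_)
    apply ENNReal.tsum_le_tsum
    rintro ⟨j, hj⟩
    simp only
    rw [Real.volume_pi_closedBall _ (by have := hu j; positivity), Fintype.card_fin]
    apply le_of_eq
    congr 2
    ring
  have hB' : ∑' i : Vb, ENNReal.ofReal (r i ^ m) ≤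
      ENNReal.ofReal (1 / 2 * (1 / 10) ^ m * R ^ m) := by
    have h1 : ∑' i : Vb, ENNReal.ofReal ((2 * r i) ^ m) =
        ENNReal.ofReal ((2 : ℝ) ^ m) * ∑' i : Vb, ENNReal.ofReal (r i ^ m) := by
      rw [← ENNReal.tsum_mul_left]
      congr 1
      ext ⟨i, hi⟩
      simp only
      rw [mul_pow, ENNReal.ofReal_mul (by positivity)]
    have h2 : ∑' j : J, ENNReal.ofReal ((10 * u j) ^ m) ≤
        ENNReal.ofReal ((2 : ℝ) ^ m) * ENNReal.ofReal (1 / 2 * (1 / 10) ^ m * R ^ m) := by
      have h3 : ∀ j : J, ENNReal.ofReal ((10 * u j) ^ m) ≤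
          ENNReal.ofReal ((10 : ℝ) ^ m * (η ^ (1 / s) * R) ^ ((m : ℝ) - s)) *
            ENNReal.ofReal (u j ^ s) := by
        rintro ⟨j, hj⟩
        simp only
        rw [← ENNReal.ofReal_mul (by positivity)]
        apply ENNReal.ofReal_le_ofReal
        rw [mul_pow, mul_assoc]
        apply mul_le_mul_of_nonneg_left _ (by positivity)
        have h4 : (u j) ^ m = u j ^ ((m : ℝ) - s) * u j ^ s := by
          rw [← Real.rpow_add (hu j)]
          simp
        rw [h4]
        apply mul_le_mul_of_nonneg_right _ (by have := hu j; positivity)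
        exact Real.rpow_le_rpow (hu j).le (huJ j hj) hms.le
      calc ∑' j : J, ENNReal.ofReal ((10 * u j) ^ m)
          ≤ ∑' j : J, ENNReal.ofReal ((10 : ℝ) ^ m * (η ^ (1 / s) * R) ^ ((m : ℝ) - s)) *
            ENNReal.ofReal (u j ^ s) := ENNReal.tsum_le_tsum h3
        _ = ENNReal.ofReal ((10 : ℝ) ^ m * (η ^ (1 / s) * R) ^ ((m : ℝ) - s)) *
            ∑' j : J, ENNReal.ofReal (u j ^ s) := ENNReal.tsum_mul_left
        _ ≤ ENNReal.ofReal ((10 : ℝ) ^ m * (η ^ (1 / s) * R) ^ ((m : ℝ) - s)) *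
            ENNReal.ofReal (η * R ^ s) := by
            gcongr
            rw [← hcostJ]
            exact hcost.le
        _ = ENNReal.ofReal ((2 : ℝ) ^ m * (5 ^ m * η ^ ((m : ℝ) / s)) * R ^ m) := by
            rw [← ENNReal.ofReal_mul (by positivity)]
            congr 1
            rw [Real.mul_rpow (by positivity) hR.le, ← Real.rpow_mul hη.le]
            have h5 : η ^ ((m : ℝ) / s) = η ^ (1 / s * ((m : ℝ) - s)) * η := by
              nth_rewrite 3 [← Real.rpow_one η]
              rw [← Real.rpow_add hη]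
              congr 1
              field_simp
              ring
            have h6 : R ^ m = R ^ ((m : ℝ) - s) * R ^ s := by
              rw [← Real.rpow_add hR]
              simp
            rw [h5, h6, show (10 : ℝ) = 2 * 5 by norm_num, mul_pow]
            ring
        _ ≤ ENNReal.ofReal ((2 : ℝ) ^ m * (1 / 2 * (1 / 10) ^ m) * R ^ m) := by
            apply ENNReal.ofReal_le_ofReal
            gcongr
        _ = _ := by
            rw [← ENNReal.ofReal_mul (by positivity)]
            congr 1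
            ring
    have h3 : ENNReal.ofReal ((2 : ℝ) ^ m) ≠ 0 := by
      simp only [ne_eq, ENNReal.ofReal_eq_zero, not_le]
      positivity
    rw [h1] at hB
    exact (ENNReal.mul_le_mul_iff_right h3 ENNReal.ofReal_ne_top).1 (hB.trans h2)
  -- (C)
  have hC : ENNReal.ofReal (1 / 2 * (1 / 10) ^ m * R ^ m) ≤
      ∑' i : Vg, ENNReal.ofReal (r i ^ m) := by
    have h1 : ∑' i : V, ENNReal.ofReal (r i ^ m) =
        ∑' i : Vb, ENNReal.ofReal (r i ^ m) + ∑' i : Vg, ENNReal.ofReal (r i ^ m) := by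
      rw [tsum_subtype V (fun i => ENNReal.ofReal (r i ^ m)),
        tsum_subtype Vb (fun i => ENNReal.ofReal (r i ^ m)),
        tsum_subtype Vg (fun i => ENNReal.ofReal (r i ^ m)), ← ENNReal.tsum_add]
      congr 1
      ext i
      by_cases hiV : i ∈ V
      · by_cases hib : i ∈ Vb
        · have hig : i ∉ Vg := fun h => h.2 hib
          simp [hiV, hib, hig]
        · have hig : i ∈ Vg := ⟨hiV, hib⟩
          simp [hiV, hib, hig]
      · have hib : i ∉ Vb := fun h => hiV h.1
        have hig : i ∉ Vg := fun h => hiV h.1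
        simp [hiV, hib, hig]
    have h2 : ENNReal.ofReal (1 / 2 * (1 / 10) ^ m * R ^ m) +
        ENNReal.ofReal (1 / 2 * (1 / 10) ^ m * R ^ m) ≤
        ENNReal.ofReal (1 / 2 * (1 / 10) ^ m * R ^ m) + ∑' i : Vg, ENNReal.ofReal (r i ^ m) := by
      calc ENNReal.ofReal (1 / 2 * (1 / 10) ^ m * R ^ m) +
          ENNReal.ofReal (1 / 2 * (1 / 10) ^ m * R ^ m) = ENNReal.ofReal ((R / 10) ^ m) := by
            rw [← ENNReal.ofReal_add (by positivity) (by positivity)]
            congr 1
            have h9 : (R / 10) ^ m = (1 / 10) ^ m * R ^ m := by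
              rw [← mul_pow]
              congr 1
              ring
            rw [h9]
            ring
        _ ≤ ∑' i : V, ENNReal.ofReal (r i ^ m) := hA'
        _ = _ := h1
        _ ≤ _ := by gcongr
    exact (ENNReal.add_le_add_iff_left ENNReal.ofReal_ne_top).1 h2
  -- (D)
  by_contra hcon
  push_neg at hcon
  have hcon' : ∀ i ∈ Vg, ENNReal.ofReal (η * (r i ^ a) ^ s) ≤
      cost U u s (closedBall (z i) (r i ^ a)) := by
    intro i hi
    have hiV : i ∈ V := hi.1
    exact hcon i (lt_of_lt_of_le (hVG i hiV) (by simp [hG])) (hsmall' i (hVG i hiV))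
      (hsubR i hiV)
  have hD1 : ENNReal.ofReal (η * R ^ s) ≤ ∑' i : Vg, ENNReal.ofReal (η * (r i ^ a) ^ s) := by
    have h1 : ∀ i : Vg, ENNReal.ofReal (η / K) * ENNReal.ofReal (r i ^ m) ≤
        ENNReal.ofReal (η * (r i ^ a) ^ s) := by
      rintro ⟨i, hi⟩
      simp only
      rw [← ENNReal.ofReal_mul (by positivity)]
      apply ENNReal.ofReal_le_ofReal
      have hi2 : r i < G2 := lt_of_lt_of_le (hVG i hi.1) (by simp [hG])
      have h2 : r i ^ ((m : ℝ) - a * s) ≤ K := by
        calc r i ^ ((m : ℝ) - a * s) ≤ G2 ^ ((m : ℝ) - a * s) :=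
              Real.rpow_le_rpow (hr i).le hi2.le hmas.le
          _ = K := by
              rw [hG2, ← Real.rpow_mul hKpos.le, one_div_mul_cancel hmas.ne', Real.rpow_one]
      have h3 : r i ^ m = r i ^ ((m : ℝ) - a * s) * (r i ^ a) ^ s := by
        rw [← Real.rpow_mul (hr i).le, ← Real.rpow_add (hr i)]
        simp
      rw [h3]
      have h4 : 0 ≤ (r i ^ a) ^ s := by have := hr i; positivity
      calc η / K * (r i ^ ((m : ℝ) - a * s) * (r i ^ a) ^ s)
          ≤ η / K * (K * (r i ^ a) ^ s) := by gcongr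
        _ = η * (r i ^ a) ^ s := by field_simp
    calc ENNReal.ofReal (η * R ^ s)
        = ENNReal.ofReal (η / K) * ENNReal.ofReal (1 / 2 * (1 / 10) ^ m * R ^ m) := by
          rw [← ENNReal.ofReal_mul (by positivity)]
          congr 1
          have h6 : R ^ m = R ^ ((m : ℝ) - s) * R ^ s := by
            rw [← Real.rpow_add hR]
            simp
          have h7 : η / K * (1 / 2 * (1 / 10) ^ m * (R ^ ((m : ℝ) - s) * R ^ s)) =
              η / K * K * R ^ s := by
            rw [hK]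
            ring
          rw [h6, h7, div_mul_cancel₀ _ hKpos.ne']
      _ ≤ ENNReal.ofReal (η / K) * ∑' i : Vg, ENNReal.ofReal (r i ^ m) := by gcongr
      _ = ∑' i : Vg, ENNReal.ofReal (η / K) * ENNReal.ofReal (r i ^ m) :=
          ENNReal.tsum_mul_left.symm
      _ ≤ _ := ENNReal.tsum_le_tsum h1
  have hD2 : ∑' i : Vg, cost U u s (closedBall (z i) (r i ^ a)) ≤
      cost U u s (closedBall c R) := by
    unfold cost
    rw [ENNReal.tsum_comm]
    apply ENNReal.tsum_le_tsum
    intro j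
    by_cases hj : ∃ i : Vg, (U j ∩ closedBall (z i) (r i ^ a)).Nonempty
    · obtain ⟨i, hi⟩ := hj
      rw [tsum_eq_single i]
      · apply Set.indicator_le_indicator_of_subset _ (fun _ => zero_le)
        intro j hj
        exact hj.mono (inter_subset_inter_right _ (hsubR i i.2.1))
      · intro i' hi'
        apply Set.indicator_of_notMem
        intro hmem
        simp only [mem_setOf_eq] at hmem
        obtain ⟨q, hqU, hqB⟩ := hi
        obtain ⟨q', hqU', hqB'⟩ := hmem
        have hne : (i' : ι) ≠ i := fun h => hi' (Subtype.ext h)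
        have hdis := hVdisj i'.2.1 i.2.1 hne
        have hgood : ¬ (r i / 2 ≤ u j) := by
          intro h
          exact i.2.2 ⟨i.2.1, j, ⟨q, hqU, hqB⟩, h⟩
        push_neg at hgood
        have h1 : dist q q' ≤ u j := by
          have h4 : edist q q' ≤ ENNReal.ofReal (u j) :=
            (edist_le_ediam_of_mem hqU hqU').trans (hUu j)
          rw [edist_dist] at h4
          exact (ENNReal.ofReal_le_ofReal_iff (hu j).le).1 h4
        have h2 : q' ∈ closedBall (z i') (r i') :=
          closedBall_subset_closedBall (hsmall' i' (hVG i' i'.2.1)) hqB'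
        have h3 : q' ∈ closedBall (z i) (r i) := by
          rw [mem_closedBall] at hqB ⊢
          have h5 := hsmall i (hVG i i.2.1)
          have h6 := dist_triangle q' q (z i)
          rw [dist_comm q' q] at h6
          linarith
        exact (Set.disjoint_left.1 hdis) h2 h3
    · push_neg at hj
      rw [ENNReal.tsum_eq_zero.2]
      · exact zero_le
      · intro i
        apply Set.indicator_of_notMem
        simp only [mem_setOf_eq]
        rw [hj i]
        exact Set.not_nonempty_empty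
  have hD3 : ENNReal.ofReal (η * R ^ s) ≤ cost U u s (closedBall c R) := by
    refine hD1.trans (le_trans ?_ hD2)
    apply ENNReal.tsum_le_tsum
    rintro ⟨i, hi⟩
    exact hcon' i hi
  exact absurd hcost (not_lt.2 hD3)

/-- Dimension version of the mass transference principle for balls in the sup norm: if almost every
point lies in balls `closedBall (z i) (r i)` of arbitrarily small radius, then the set of points
lying in balls `closedBall (z i) (r i ^ a)` with arbitrarily small `r i` has non-zero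
`s`-dimensional Hausdorff measure for every `s < m / a`. -/
theorem mtp_dim {m : ℕ} {ι : Type*} [Countable ι] (z : ι → Fin m → ℝ) (r : ι → ℝ)
    (hr : ∀ i, 0 < r i)
    (hfull : ∀ δ > 0, ∀ᵐ x : Fin m → ℝ, ∃ i, r i < δ ∧ x ∈ closedBall (z i) (r i))
    {a : ℝ} (ha : 1 < a) {s : ℝ} (hs : 0 < s) (hsa : s * a < m) :
    μH[s] {x : Fin m → ℝ | ∀ δ > 0, ∃ i, r i < δ ∧ x ∈ closedBall (z i) (r i ^ a)} ≠ 0 := by
  intro h0
  have hm : (0 : ℝ) < m := by nlinarith
  set κ : ℝ := (1 / 2) * (1 / 10) ^ m / 5 ^ m with hκ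
  have hκpos : 0 < κ := by positivity
  set η : ℝ := κ ^ (s / m) with hη
  have hηpos : 0 < η := by positivity
  have hη' : 5 ^ m * η ^ ((m : ℝ) / s) ≤ (1 / 2) * (1 / 10) ^ m := by
    rw [hη, ← Real.rpow_mul hκpos.le, show s / m * ((m : ℝ) / s) = 1 by field_simp,
      Real.rpow_one, hκ]
    apply le_of_eq
    field_simp
  obtain ⟨U, u, hu, hUu, hcov, hsum⟩ := exists_cover_of_hausdorffMeasure_eq_zero hs h0
    (ε := ENNReal.ofReal η) (by simpa using hηpos)
  let S : Type := {p : (Fin m → ℝ) × ℝ //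
    0 < p.2 ∧ cost U u s (closedBall p.1 p.2) < ENNReal.ofReal (η * p.2 ^ s)}
  have hstep : ∀ (p : S) (n : ℕ), ∃ q : S, closedBall q.1.1 q.1.2 ⊆ closedBall p.1.1 p.1.2 ∧
      ∃ i, r i < 1 / ((n : ℝ) + 1) ∧ q.1.1 = z i ∧ q.1.2 = r i ^ a ∧ q.1.2 ≤ r i := by
    intro p n
    obtain ⟨i, hi1, hi2, hi3, hi4⟩ := mtp_step z r hr hfull ha hs hsa hηpos hη' U u hu hUu
      p.1.1 p.2.1 p.2.2 (δ := 1 / ((n : ℝ) + 1)) (by positivity)
    refine ⟨⟨(z i, r i ^ a), ?_, hi4⟩, hi3, i, hi1, rfl, rfl, hi2⟩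
    have := hr i
    positivity
  choose next hnext using hstep
  have hinit : 0 < ((0 : Fin m → ℝ), (1 : ℝ)).2 ∧
      cost U u s (closedBall ((0 : Fin m → ℝ), (1 : ℝ)).1 ((0 : Fin m → ℝ), (1 : ℝ)).2) <
        ENNReal.ofReal (η * ((0 : Fin m → ℝ), (1 : ℝ)).2 ^ s) := by
    refine ⟨one_pos, ?_⟩
    simp only [Real.one_rpow, mul_one]
    refine lt_of_le_of_lt ?_ hsum
    apply ENNReal.tsum_le_tsum
    intro j
    exact Set.indicator_le_self' (fun _ _ => zero_le) j
  let seq : ℕ → S := fun n => Nat.rec (⟨(0, 1), hinit⟩ : S) (fun k p => next p k) n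
  have hseq : ∀ n, seq (n + 1) = next (seq n) n := fun n => rfl
  obtain ⟨x, hx⟩ := IsCompact.nonempty_iInter_of_sequence_nonempty_isCompact_isClosed
    (fun n => closedBall (seq n).1.1 (seq n).1.2)
    (fun n => by
      simp only [hseq n]
      exact (hnext (seq n) n).1)
    (fun n => ⟨_, mem_closedBall_self (seq n).2.1.le⟩)
    (isCompact_closedBall _ _) (fun n => isClosed_closedBall)
  rw [mem_iInter] at hx
  have hxE : x ∈ {x : Fin m → ℝ | ∀ δ > 0, ∃ i, r i < δ ∧ x ∈ closedBall (z i) (r i ^ a)} := by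
    intro δ hδ
    obtain ⟨n, hn⟩ := exists_nat_one_div_lt hδ
    obtain ⟨i, hi1, hi2, hi3, hi4⟩ := (hnext (seq n) n).2
    refine ⟨i, hi1.trans hn, ?_⟩
    have h1 := hx (n + 1)
    simp only [hseq n] at h1
    rwa [hi2, hi3] at h1
  obtain ⟨j, hj⟩ := mem_iUnion.1 (hcov hxE)
  have huj : 0 < u j ^ s := by have := hu j; positivity
  obtain ⟨n, hn⟩ := exists_nat_one_div_lt (show 0 < (u j ^ s / η) ^ (1 / s) by positivity)
  obtain ⟨i, hi1, hi2, hi3, hi4⟩ := (hnext (seq n) n).2
  have h2 : ENNReal.ofReal (u j ^ s) ≤ ENNReal.ofReal (η * (seq (n + 1)).1.2 ^ s) := by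
    refine le_trans ?_ (seq (n + 1)).2.2.le
    have h3 : j ∈ {j | (U j ∩ closedBall (seq (n + 1)).1.1 (seq (n + 1)).1.2).Nonempty} :=
      ⟨x, hj, hx (n + 1)⟩
    have h4 := ENNReal.le_tsum (f := fun j => {j | (U j ∩
      closedBall (seq (n + 1)).1.1 (seq (n + 1)).1.2).Nonempty}.indicator
      (fun j => ENNReal.ofReal (u j ^ s)) j) j
    simp only [Set.indicator_of_mem h3] at h4
    exact h4
  have hRpos : 0 < (seq (n + 1)).1.2 := (seq (n + 1)).2.1
  have h3 : u j ^ s ≤ η * (seq (n + 1)).1.2 ^ s :=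
    (ENNReal.ofReal_le_ofReal_iff (by positivity)).1 h2
  have h4 : (seq (n + 1)).1.2 < (u j ^ s / η) ^ (1 / s) := by
    have h5 : (seq (n + 1)).1.2 ≤ r i := by
      simp only [hseq n]
      exact hi4
    linarith
  have h5 : (seq (n + 1)).1.2 ^ s < u j ^ s / η := by
    calc (seq (n + 1)).1.2 ^ s < ((u j ^ s / η) ^ (1 / s)) ^ s :=
          Real.rpow_lt_rpow hRpos.le h4 hs
      _ = u j ^ s / η := by
          rw [← Real.rpow_mul (by positivity), one_div_mul_cancel hs.ne', Real.rpow_one]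
  rw [lt_div_iff₀ hηpos] at h5
  linarith

end Pool.Agent.LibInterm
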