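import Mathlib
import Pool.Agent.LibInterm.MTP

/-!
Covers and Hausdorff measures: the Hausdorff-Cantelli lemma and a slicing inequality.
-/

open MeasureTheory Metric Set Filter
open scoped ENNReal NNReal Topology

namespace Pool.Agent.LibInterm

theorem hausdorffMeasure_eq_zero_of_covers {X : Type*} [MetricSpace X] [MeasurableSpace X]
    [BorelSpace X] {s : ℝ} (hs : 0 < s) (S : Set X) {β : Type*} {l : Filter β} [l.NeBot]
    {ι : β → Type*} [∀ n, Countable (ι n)] (t : ∀ n : β, ι n → Set X)
    (hcov : ∀ᶠ n in l, S ⊆ ⋃ i, t n i)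
    (hsum : Tendsto (fun n => ∑' i, ediam (t n i) ^ s) l (𝓝 0)) : μH[s] S = 0 := by
  have hr1 : Tendsto (fun n => (∑' i, ediam (t n i) ^ s) ^ (1 / s)) l (𝓝 0) := by
    have h1 := (ENNReal.continuous_rpow_const (y := 1 / s)).tendsto 0
    rw [ENNReal.zero_rpow_of_pos (by positivity)] at h1
    exact h1.comp hsum
  have hmain := Measure.hausdorffMeasure_le_liminf_tsum s S
    (fun n => (∑' i, ediam (t n i) ^ s) ^ (1 / s)) hr1 t
    (by
      apply Eventually.of_forall
      intro n i
      calc ediam (t n i) = (ediam (t n i) ^ s) ^ (1 / s) := by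
            rw [← ENNReal.rpow_mul, mul_one_div_cancel hs.ne', ENNReal.rpow_one]
        _ ≤ _ := by
            apply ENNReal.rpow_le_rpow _ (by positivity)
            exact ENNReal.le_tsum (f := fun i => ediam (t n i) ^ s) i)
    hcov
  rw [hsum.liminf_eq] at hmain
  exact le_antisymm hmain (zero_le)

/-- Hausdorff-Cantelli lemma. -/
theorem hausdorffMeasure_limsup_eq_zero {X : Type*} [MetricSpace X] [MeasurableSpace X]
    [BorelSpace X] {s : ℝ} (hs : 0 < s) {ι : Type*} [Countable ι] (U : ι → Set X)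
    (hsum : ∑' i, ediam (U i) ^ s ≠ ∞) : μH[s] {x | {i | x ∈ U i}.Infinite} = 0 := by
  apply hausdorffMeasure_eq_zero_of_covers hs _ (l := (atTop : Filter (Finset ι)))
    (ι := fun F => {i // i ∉ F}) (fun F i => U i)
  · apply Eventually.of_forall
    intro F x hx
    have h1 : ∃ i, i ∈ {i | x ∈ U i} ∧ i ∉ F := by
      by_contra hcon
      push_neg at hcon
      exact hx (F.finite_toSet.subset hcon)
    obtain ⟨i, hi, hiF⟩ := h1
    exact mem_iUnion.2 ⟨⟨i, hiF⟩, hi⟩
  · exact ENNReal.tendsto_tsum_compl_atTop_zero hsum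

/-- If `E` has zero `(d+s)`-dimensional Hausdorff measure then almost every vertical slice of `E`
has zero `s`-dimensional Hausdorff measure. -/
theorem ae_slice_null {d : ℕ} {Y : Type*} [MetricSpace Y] [MeasurableSpace Y] [BorelSpace Y]
    [SecondCountableTopology Y] {s : ℝ} (hs : 0 < s) (E : Set ((Fin d → ℝ) × Y))
    (hE : μH[d + s] E = 0) : ∀ᵐ x : Fin d → ℝ, μH[s] {y | (x, y) ∈ E} = 0 := by
  have hds : (0 : ℝ) < d + s := by positivity
  obtain ⟨ε, hε, hεsum⟩ := ENNReal.exists_pos_sum_of_countable one_ne_zero ℕ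
  have hcov : ∀ l : ℕ, ∃ (U : ℕ → Set ((Fin d → ℝ) × Y)) (u : ℕ → ℝ), (∀ j, 0 < u j) ∧
      (∀ j, ediam (U j) ≤ ENNReal.ofReal (u j)) ∧
      E ⊆ ⋃ j, U j ∧ ∑' j, ENNReal.ofReal (u j ^ (d + s)) < ε l := fun l =>
    exists_cover_of_hausdorffMeasure_eq_zero hds hE (by simpa using hε l)
  choose U u hu hUu hEU hsum using hcov
  -- the projections
  have hproj : ∀ l j, ∃ c : Fin d → ℝ, ∀ x y, (x, y) ∈ U l j → x ∈ closedBall c (u l j) := by
    intro l j
    rcases (U l j).eq_empty_or_nonempty with h | ⟨p, hp⟩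
    · refine ⟨0, fun x y hxy => ?_⟩
      rw [h] at hxy
      exact absurd hxy (Set.notMem_empty _)
    · refine ⟨p.1, fun x y hxy => ?_⟩
      have h1 : edist (x, y) p ≤ ENNReal.ofReal (u l j) :=
        (edist_le_ediam_of_mem hxy hp).trans (hUu l j)
      rw [mem_closedBall]
      have h2 : edist x p.1 ≤ ENNReal.ofReal (u l j) := by
        refine le_trans ?_ h1
        rw [Prod.edist_eq]
        exact le_max_left _ _
      rw [edist_dist] at h2
      exact (ENNReal.ofReal_le_ofReal_iff (hu l j).le).1 h2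
  choose c hc using hproj
  set g : ℕ → (Fin d → ℝ) → ℝ≥0∞ := fun l x =>
    ∑' j, (closedBall (c l j) (u l j)).indicator (fun _ => ENNReal.ofReal (u l j ^ s)) x with hg
  have hgmeas : ∀ l, Measurable (g l) := by
    intro l
    apply Measurable.ennreal_tsum
    intro j
    exact measurable_const.indicator measurableSet_closedBall
  have hint : ∀ l, ∫⁻ x, g l x ≤ ENNReal.ofReal (2 ^ d) * ε l := by
    intro l
    calc ∫⁻ x, g l x = ∑' j, ∫⁻ x, (closedBall (c l j) (u l j)).indicator
          (fun _ => ENNReal.ofReal (u l j ^ s)) x :=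
          lintegral_tsum (fun j => (measurable_const.indicator measurableSet_closedBall).aemeasurable)
      _ = ∑' j, ENNReal.ofReal (2 ^ d) * ENNReal.ofReal (u l j ^ (d + s)) := by
          congr 1
          ext j
          rw [lintegral_indicator measurableSet_closedBall, setLIntegral_const,
            Real.volume_pi_closedBall _ (hu l j).le, Fintype.card_fin,
            ← ENNReal.ofReal_mul (by have := hu l j; positivity),
            ← ENNReal.ofReal_mul (by positivity)]
          congr 1
          rw [Real.rpow_add (hu l j), Real.rpow_natCast]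
          ring
      _ = ENNReal.ofReal (2 ^ d) * ∑' j, ENNReal.ofReal (u l j ^ (d + s)) :=
          ENNReal.tsum_mul_left
      _ ≤ _ := by
          gcongr
          exact (hsum l).le
  have hintsum : ∫⁻ x, ∑' l, g l x ≠ ∞ := by
    rw [lintegral_tsum (fun l => (hgmeas l).aemeasurable)]
    apply ne_top_of_le_ne_top _ (ENNReal.tsum_le_tsum hint)
    rw [ENNReal.tsum_mul_left]
    exact ENNReal.mul_ne_top ENNReal.ofReal_ne_top (hεsum.trans ENNReal.one_lt_top).ne
  have hae := ae_lt_top (Measurable.ennreal_tsum hgmeas) hintsum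
  filter_upwards [hae] with x hx
  have hgx : Tendsto (fun l => g l x) atTop (𝓝 0) :=
    ENNReal.tendsto_atTop_zero_of_tsum_ne_top hx.ne
  apply hausdorffMeasure_eq_zero_of_covers hs _ (l := (atTop : Filter ℕ))
    (ι := fun _ => ℕ) (fun l j => {y | (x, y) ∈ U l j})
  · apply Eventually.of_forall
    intro l y hy
    obtain ⟨j, hj⟩ := mem_iUnion.1 (hEU l hy)
    exact mem_iUnion.2 ⟨j, hj⟩
  · apply tendsto_of_tendsto_of_tendsto_of_le_of_le tendsto_const_nhds hgx
    · intro l
      exact zero_le
    · intro l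
      apply ENNReal.tsum_le_tsum
      intro j
      rcases ({y | (x, y) ∈ U l j}).eq_empty_or_nonempty with h | ⟨y, hy⟩
      · rw [h, ediam_empty, ENNReal.zero_rpow_of_pos hs]
        exact zero_le
      · rw [Set.indicator_of_mem (hc l j x y hy), ← ENNReal.ofReal_rpow_of_pos (hu l j)]
        apply ENNReal.rpow_le_rpow _ hs.le
        refine le_trans ?_ (hUu l j)
        apply ediam_le
        intro y1 hy1 y2 hy2
        have h1 : edist y1 y2 = edist (x, y1) (x, y2) := by
          rw [Prod.edist_eq]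
          simp
        rw [h1]
        exact edist_le_ediam_of_mem hy1 hy2

end Pool.Agent.LibInterm
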