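import Mathlib

/-!
Convergence of a sum over tuples of integer vectors.
-/

open scoped ENNReal

namespace Pool.Agent.LibInterm

theorem tsum_pi_prod {V : Type*} (g : V → ℝ≥0∞) (k : ℕ) :
    ∑' b : Fin k → V, ∏ i, g (b i) = (∑' v, g v) ^ k := by
  induction k with
  | zero =>
    rw [tsum_eq_single (default : Fin 0 → V)]
    · simp
    · intro b hb
      exact absurd (Subsingleton.elim b default) hb
  | succ k ih =>
    rw [← (Fin.consEquiv (fun _ : Fin (k + 1) => V)).tsum_eq]
    rw [ENNReal.tsum_prod', pow_succ, ← ih, mul_comm, ← ENNReal.tsum_mul_right]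
    congr 1
    ext v
    rw [← ENNReal.tsum_mul_left]
    congr 1
    ext b
    rw [Fin.prod_univ_succ]
    simp [Fin.consEquiv]

theorem tsum_norm_rpow_ne_top (N : ℕ) {σ : ℝ} (hσ : (N : ℝ) < σ) :
    ∑' v : Fin N → ℤ, ENNReal.ofReal (‖v‖ ^ (-σ)) ≠ ∞ := by
  set L : Submodule ℤ (Fin N → ℝ) := Submodule.span ℤ (Set.range (Pi.basisFun ℝ (Fin N)))
    with hL
  have hrank : Module.finrank ℤ L = N := by
    have := ZLattice.rank ℝ L
    rw [this]
    simp
  have hsum := ZLattice.summable_norm_rpow L (-σ) (by rw [hrank]; linarith)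
  have hmem : ∀ v : Fin N → ℤ, (fun i => (v i : ℝ)) ∈ L := by
    intro v
    rw [hL, Submodule.mem_span_range_iff_exists_fun]
    refine ⟨v, ?_⟩
    ext i
    simp [Pi.single_apply]
  let ι : (Fin N → ℤ) → L := fun v => ⟨fun i => (v i : ℝ), hmem v⟩
  have hι : Function.Injective ι := by
    intro v w h
    ext i
    have h1 := congrFun (congrArg Subtype.val h) i
    exact Int.cast_injective (α := ℝ) h1
  have hnorm : ∀ v, ‖ι v‖ = ‖v‖ := by
    intro v
    change ‖(fun i => (v i : ℝ))‖ = ‖v‖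
    rw [Pi.norm_def, Pi.norm_def]
    rfl
  have h2 := hsum.comp_injective hι
  have h3 : Summable (fun v : Fin N → ℤ => ‖v‖ ^ (-σ)) := by
    refine h2.congr (fun v => ?_)
    simp only [Function.comp, hnorm]
  exact h3.tsum_ofReal_ne_top

end Pool.Agent.LibInterm
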