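import Mathlib
import Pool.Agent.LibInterm.Defs
import Pool.Agent.LibInterm.Heights
import Pool.Agent.LibInterm.Proj
import Pool.Agent.LibInterm.Cover
import Pool.Agent.LibInterm.Sums
import Pool.Agent.LibInterm.Slicing

/-!
Upper bound for the Hausdorff dimension.
-/

open MeasureTheory Metric Set Filter
open scoped ENNReal NNReal Topology

namespace Pool.Agent.LibInterm

variable {n : ℕ}

theorem one_le_norm_int {N : ℕ} {v : Fin N → ℤ} (hv : v ≠ 0) : 1 ≤ ‖v‖ := by
  obtain ⟨i, hi⟩ := Function.ne_iff.1 hv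
  have h1 : ‖v i‖ ≤ ‖v‖ := norm_le_pi_norm v i
  have h2 : (1 : ℝ) ≤ ‖v i‖ := by
    rw [Int.norm_eq_abs]
    exact_mod_cast Int.one_le_abs hi
  exact h2.trans h1

theorem ne_zero_of_indep {d : ℕ} {b : Fin (d + 1) → Fin (n + 1) → ℤ}
    (hb : LinearIndependent ℝ (fun i => intVec (b i))) (i : Fin (d + 1)) : b i ≠ 0 := by
  intro h
  apply hb.ne_zero i
  simp only [h]
  ext j
  simp [intVec]

/-- The constant of `exists_reduced_basis`. -/
noncomputable def redC (d : ℕ) : ℝ :=
  ((d + 1 : ℕ) : ℝ) ^ (d + 1) * Real.sqrt ((d + 1 : ℕ) : ℝ) ^ (d + 1)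

theorem redC_pos (d : ℕ) : 0 < redC d := by
  unfold redC
  positivity

theorem upper_null {d : ℕ} {w s : ℝ} (hw : -1 < w)
    (hs : d + ((n : ℝ) + 1) / (w + 1) < s) :
    μH[s] {θ : EuclideanSpace ℝ (Fin n) | (w : EReal) ≤ omegaExp n d θ} = 0 := by
  have hw1 : 0 < w + 1 := by linarith
  have hn1 : (0 : ℝ) < (n : ℝ) + 1 := by positivity
  have hq : 0 < ((n : ℝ) + 1) / (w + 1) := by positivity
  have hsd : 0 < s - d := by linarith
  have hs0 : 0 < s := by
    have : (0 : ℝ) ≤ d := Nat.cast_nonneg d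
    linarith
  have h1 : (n : ℝ) + 1 < (w + 1) * (s - d) := by
    have h2 : ((n : ℝ) + 1) / (w + 1) < s - d := by linarith
    rw [div_lt_iff₀ hw1] at h2
    linarith
  set κ : ℝ := ((w + 1) * (s - d) + (n + 1)) / (2 * (s - d)) with hκ
  have hκpos : 0 < κ := by positivity
  have hκw : κ < w + 1 := by
    rw [hκ, div_lt_iff₀ (by positivity)]
    nlinarith
  set σ : ℝ := κ * (s - d) with hσ
  have hσn : ((n + 1 : ℕ) : ℝ) < σ := by
    rw [hσ, hκ]
    field_simp
    push_cast
    linarith
  have hCd := redC_pos d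
  set rmax : ℝ := 2 * redC d ^ κ with hrmax
  have hrmaxpos : 0 < rmax := by positivity
  set T : Type := {b : Fin (d + 1) → Fin (n + 1) → ℤ //
    LinearIndependent ℝ (fun i => intVec (b i))} with hT
  set P : T → ℝ := fun b => ∏ i, ‖b.1 i‖ with hP
  have hP1 : ∀ b : T, 1 ≤ P b := by
    intro b
    calc (1 : ℝ) = ∏ _i : Fin (d + 1), (1 : ℝ) := by simp
      _ ≤ P b := Finset.prod_le_prod (fun _ _ => zero_le_one)
          (fun i _ => one_le_norm_int (ne_zero_of_indep b.2 i))
  set rb : T → ℝ := fun b => 2 * redC d ^ κ * P b ^ (-κ) with hrb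
  have hrbpos : ∀ b, 0 < rb b := by
    intro b
    have := hP1 b
    rw [hrb]
    positivity
  have hrble : ∀ b, rb b ≤ rmax := by
    intro b
    rw [hrb, hrmax]
    have h2 : P b ^ (-κ) ≤ 1 := Real.rpow_le_one_of_one_le_of_nonpos (hP1 b) (by linarith)
    have h3 : 0 ≤ 2 * redC d ^ κ := by positivity
    nlinarith
  -- reduction to bounded regions
  have hcover : {θ : EuclideanSpace ℝ (Fin n) | (w : EReal) ≤ omegaExp n d θ} ⊆
      ⋃ R : ℕ, {θ : EuclideanSpace ℝ (Fin n) | (w : EReal) ≤ omegaExp n d θ ∧ ‖θ‖ ≤ R} := by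
    intro θ hθ
    obtain ⟨R, hR⟩ := exists_nat_ge ‖θ‖
    exact mem_iUnion.2 ⟨R, hθ, hR⟩
  apply measure_mono_null hcover
  rw [measure_iUnion_null_iff]
  intro R
  obtain ⟨C, hC, hCcov⟩ := cover_nbhd n d (R := (R : ℝ)) (Nat.cast_nonneg R) hrmaxpos
  have hrank : ∀ b : T, Module.finrank ℝ
      (Submodule.span ℝ (Set.range (fun i => intVec (b.1 i)))) = d + 1 := by
    intro b
    rw [finrank_span_eq_card b.2, Fintype.card_fin]
  choose F hFcard hFcov using fun b : T => hCcov _ (hrank b) (rb b) (hrbpos b) (hrble b)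
  set U : (Σ b : T, {c // c ∈ F b}) → Set (EuclideanSpace ℝ (Fin n)) :=
    fun i => closedBall (i.2 : EuclideanSpace ℝ (Fin n)) (C * rb i.1) with hU
  have hsum : ∑' i, ediam (U i) ^ s ≠ ∞ := by
    set K : ℝ := C * (2 * C) ^ s * (2 * redC d ^ κ) ^ (s - d) with hK
    have hKpos : 0 < K := by positivity
    have h2 : ∀ b : T, ∑' c : {c // c ∈ F b}, ediam (U ⟨b, c⟩) ^ s ≤
        ENNReal.ofReal K * ∏ i, ENNReal.ofReal (‖b.1 i‖ ^ (-σ)) := by
      intro b
      have hrb0 := hrbpos b
      have h3 : ∀ c : {c // c ∈ F b}, ediam (U ⟨b, c⟩) ^ s ≤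
          ENNReal.ofReal ((2 * (C * rb b)) ^ s) := by
        intro c
        rw [← ENNReal.ofReal_rpow_of_pos (by positivity)]
        apply ENNReal.rpow_le_rpow _ hs0.le
        apply ediam_le
        intro x hx y hy
        rw [edist_dist]
        apply ENNReal.ofReal_le_ofReal
        have hx' : dist x (c : EuclideanSpace ℝ (Fin n)) ≤ C * rb b := hx
        have hy' : dist y (c : EuclideanSpace ℝ (Fin n)) ≤ C * rb b := hy
        have h4 := dist_triangle_right x y (c : EuclideanSpace ℝ (Fin n))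
        linarith
      calc ∑' c : {c // c ∈ F b}, ediam (U ⟨b, c⟩) ^ s
          ≤ ∑' _c : {c // c ∈ F b}, ENNReal.ofReal ((2 * (C * rb b)) ^ s) :=
            ENNReal.tsum_le_tsum h3
        _ = (F b).card * ENNReal.ofReal ((2 * (C * rb b)) ^ s) := by
            rw [tsum_fintype, Finset.sum_const, Finset.card_univ, Fintype.card_coe,
              nsmul_eq_mul]
        _ = ENNReal.ofReal ((F b).card * (2 * (C * rb b)) ^ s) := by
            rw [ENNReal.ofReal_mul (Nat.cast_nonneg _), ENNReal.ofReal_natCast]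
        _ ≤ ENNReal.ofReal (C * (1 / rb b) ^ d * (2 * (C * rb b)) ^ s) := by
            apply ENNReal.ofReal_le_ofReal
            gcongr
            exact hFcard b
        _ = ENNReal.ofReal (K * ∏ i, ‖b.1 i‖ ^ (-σ)) := by
            congr 1
            have h5 : (1 / rb b) ^ d * (2 * (C * rb b)) ^ s =
                (2 * C) ^ s * rb b ^ (s - d) := by
              rw [← mul_assoc 2 C, Real.mul_rpow (by positivity) hrb0.le,
                Real.rpow_sub hrb0, Real.rpow_natCast]
              have h51 : (1 / rb b) ^ d * rb b ^ d = 1 := by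
                rw [← mul_pow, one_div_mul_cancel hrb0.ne', one_pow]
              have h52 : (1 / rb b) ^ d = 1 / rb b ^ d := by
                rw [one_div, one_div, inv_pow]
              rw [h52]
              ring
            have h6 : rb b ^ (s - d) = (2 * redC d ^ κ) ^ (s - d) * P b ^ (-σ) := by
              have hPb : 0 ≤ P b := zero_le_one.trans (hP1 b)
              rw [hrb]
              simp only
              rw [Real.mul_rpow (by positivity) (by positivity), ← Real.rpow_mul hPb, hσ]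
              congr 2
              ring
            have h7 : P b ^ (-σ) = ∏ i, ‖b.1 i‖ ^ (-σ) := by
              rw [hP]
              simp only
              rw [Real.finset_prod_rpow _ _ (fun i _ => norm_nonneg _)]
            rw [mul_assoc, h5, h6, h7, hK]
            ring
        _ = _ := by
            rw [ENNReal.ofReal_mul hKpos.le, ENNReal.ofReal_prod_of_nonneg
              (fun i _ => by positivity)]
    rw [ENNReal.tsum_sigma']
    apply ne_top_of_le_ne_top _ (ENNReal.tsum_le_tsum h2)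
    rw [ENNReal.tsum_mul_left]
    apply ENNReal.mul_ne_top ENNReal.ofReal_ne_top
    have h8 : ∑' b : T, ∏ i, ENNReal.ofReal (‖b.1 i‖ ^ (-σ)) ≤
        ∑' b : Fin (d + 1) → Fin (n + 1) → ℤ, ∏ i, ENNReal.ofReal (‖b i‖ ^ (-σ)) :=
      ENNReal.tsum_comp_le_tsum_of_injective Subtype.val_injective
        (fun b : Fin (d + 1) → Fin (n + 1) → ℤ => ∏ i, ENNReal.ofReal (‖b i‖ ^ (-σ)))
    apply ne_top_of_le_ne_top _ h8
    rw [tsum_pi_prod (fun v : Fin (n + 1) → ℤ => ENNReal.ofReal (‖v‖ ^ (-σ))) (d + 1)]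
    exact ENNReal.pow_ne_top (tsum_norm_rpow_ne_top (n + 1) hσn)
  haveI : Countable T := Subtype.countable
  have hnull := hausdorffMeasure_limsup_eq_zero hs0 U hsum
  apply measure_mono_null _ hnull
  rintro θ ⟨hθ, hθR⟩
  -- a good exponent
  have h9 : ((κ - 1 : ℝ) : EReal) < omegaExp n d θ := by
    refine lt_of_lt_of_le ?_ hθ
    exact_mod_cast (by linarith : κ - 1 < w)
  unfold omegaExp at h9
  obtain ⟨_, ⟨ω, hω, rfl⟩, hωκ⟩ := lt_sSup_iff.1 h9
  have hωκ' : κ - 1 < ω := EReal.coe_lt_coe_iff.1 hωκ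
  simp only [mem_setOf_eq] at hω
  set S := {L : Submodule ℝ (EuclideanSpace ℝ (Fin (n + 1))) | IsRationalSub d L ∧
      height d L * distTo θ L ≤ height d L ^ (-ω)} with hS
  have hclaim : ∀ L : S, ∃ i : (Σ b : T, {c // c ∈ F b}), θ ∈ U i ∧
      Submodule.span ℝ (Set.range (fun j => intVec (i.1.1 j))) = L := by
    rintro ⟨L, hLrat, hLd⟩
    obtain ⟨b, hbli, hbspan, hbprod⟩ := exists_reduced_basis hLrat
    have hH := one_le_height hLrat
    set b' : T := ⟨b, hbli⟩ with hb'
    have hPb : P b' ≤ redC d * height d L := hbprod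
    have hHpos : 0 < height d L := by linarith
    have h10 : distTo θ L ≤ height d L ^ (-κ) := by
      have h11 : height d L * distTo θ L ≤ height d L * height d L ^ (-κ) := by
        calc height d L * distTo θ L ≤ height d L ^ (-ω) := hLd
          _ ≤ height d L ^ (1 - κ) := Real.rpow_le_rpow_of_exponent_le hH (by linarith)
          _ = height d L * height d L ^ (-κ) := by
              rw [show (1 - κ) = 1 + -κ by ring, Real.rpow_add hHpos, Real.rpow_one]
      exact le_of_mul_le_mul_left h11 hHpos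
    have h12 : height d L ^ (-κ) < rb b' := by
      have h13 : height d L ^ (-κ) ≤ redC d ^ κ * P b' ^ (-κ) := by
        have hP0 : 0 < P b' := lt_of_lt_of_le one_pos (hP1 b')
        rw [Real.rpow_neg hHpos.le, Real.rpow_neg hP0.le, ← div_eq_mul_inv,
          ← Real.div_rpow hCd.le hP0.le, ← Real.inv_rpow hHpos.le]
        apply Real.rpow_le_rpow (by positivity) _ hκpos.le
        rw [inv_eq_one_div, div_le_div_iff₀ hHpos hP0, one_mul]
        exact hPb
      have h14 : 0 < redC d ^ κ * P b' ^ (-κ) := by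
        have := hP1 b'
        positivity
      calc height d L ^ (-κ) ≤ redC d ^ κ * P b' ^ (-κ) := h13
        _ < 2 * (redC d ^ κ * P b' ^ (-κ)) := by linarith
        _ = rb b' := by rw [hrb]; ring
    have hne : ((fun y => projDist (homog θ) y) '' {y | y ∈ L ∧ y ≠ 0}).Nonempty := by
      refine ⟨_, intVec (b 0), ⟨?_, ?_⟩, rfl⟩
      · rw [← hbspan]
        exact Submodule.subset_span ⟨0, rfl⟩
      · exact hbli.ne_zero 0
    obtain ⟨_, ⟨y, ⟨hyL, hy0⟩, rfl⟩, hylt⟩ := exists_lt_of_csInf_lt hne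
      (lt_of_le_of_lt h10 h12)
    obtain ⟨c, hcF, hc⟩ := hFcov b' θ hθR ⟨y, by rw [hb', hbspan]; exact hyL, hy0, hylt.le⟩
    exact ⟨⟨b', c, hcF⟩, hc, hbspan⟩
  choose f hf1 hf2 using hclaim
  have hfinj : Function.Injective f := by
    intro L1 L2 h
    apply Subtype.ext
    rw [← hf2 L1, ← hf2 L2, h]
  haveI : Infinite S := hω.to_subtype
  exact Set.infinite_of_injective_forall_mem hfinj hf1

end Pool.Agent.LibInterm
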