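import Mathlib
import Pool.Agent.LibInterm.Construct
import Pool.Agent.LibInterm.Upper

/-!
Lower bound for the Hausdorff dimension.
-/

open MeasureTheory Metric Set Filter
open scoped ENNReal NNReal Topology

namespace Pool.Agent.LibInterm

theorem ae_ae_balanced (d m : ℕ) : ∀ᵐ α : Fin d → ℝ, ∀ᵐ z : Fin m → ℝ,
    ∃ l : ℕ, ∃ᶠ j : ℕ in atTop, Balanced ((2 : ℝ) ^ j) (1 / ((l : ℝ) + 1)) (Fin.append α z) := by
  have hmp1 := volume_measurePreserving_sumPiEquivProdPi_symm (fun _ : Fin d ⊕ Fin m => ℝ)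
  have hmp2 := volume_measurePreserving_piCongrLeft (fun _ : Fin (d + m) => ℝ)
    (finSumFinEquiv (m := d) (n := m))
  have hmp := hmp2.comp hmp1
  have hψ : ∀ p : (Fin d → ℝ) × (Fin m → ℝ),
      (MeasurableEquiv.piCongrLeft (fun _ : Fin (d + m) => ℝ) (finSumFinEquiv (m := d) (n := m)) ∘
        (MeasurableEquiv.sumPiEquivProdPi (fun _ : Fin d ⊕ Fin m => ℝ)).symm) p =
        Fin.append p.1 p.2 := by
    intro p
    ext i
    refine Fin.addCases (fun i => ?_) (fun i => ?_) i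
    · rw [Fin.append_left]
      have h1 : Fin.castAdd m i = finSumFinEquiv (Sum.inl i) := by simp
      rw [h1]
      simp only [Function.comp, MeasurableEquiv.coe_piCongrLeft]
      rw [Equiv.piCongrLeft_apply_apply]
      rfl
    · rw [Fin.append_right]
      have h1 : Fin.natAdd d i = finSumFinEquiv (Sum.inr i) := by simp
      rw [h1]
      simp only [Function.comp, MeasurableEquiv.coe_piCongrLeft]
      rw [Equiv.piCongrLeft_apply_apply]
      rfl
  have h1 := hmp.quasiMeasurePreserving.ae (ae_balanced (d + m))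
  simp only [hψ] at h1
  exact Measure.ae_ae_of_ae_prod h1

theorem finite_bounded_tuples (k N : ℕ) (M : ℝ) :
    {b : Fin k → Fin N → ℤ | ∀ i, ‖b i‖ ≤ M}.Finite := by
  apply (Set.finite_Icc (fun _ _ => -⌈M⌉ : Fin k → Fin N → ℤ) (fun _ _ => ⌈M⌉)).subset
  intro b hb
  have h1 : ∀ i j, |b i j| ≤ ⌈M⌉ := by
    intro i j
    have h2 : ‖b i j‖ ≤ M := (norm_le_pi_norm (b i) j).trans (hb i)
    rw [Int.norm_eq_abs] at h2
    have h3 := h2.trans (Int.le_ceil M)
    exact_mod_cast h3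
  exact ⟨fun i j => (abs_le.1 (h1 i j)).1, fun i j => (abs_le.1 (h1 i j)).2⟩

/-- Northcott property: finitely many rational subspaces of bounded height. -/
theorem finite_height_le (n d : ℕ) (h : ℝ) :
    {L : Submodule ℝ (EuclideanSpace ℝ (Fin (n + 1))) | IsRationalSub d L ∧
      height d L ≤ h}.Finite := by
  apply ((finite_bounded_tuples (d + 1) (n + 1) (redC d * h)).image
    (fun b => Submodule.span ℝ (Set.range (fun i => intVec (b i))))).subset
  rintro L ⟨hL, hh⟩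
  obtain ⟨b, hbli, hbspan, hbprod⟩ := exists_reduced_basis hL
  refine ⟨b, fun i => ?_, hbspan⟩
  have h1 : ‖b i‖ ≤ ∏ j, ‖b j‖ := by
    rw [← Finset.mul_prod_erase Finset.univ _ (Finset.mem_univ i)]
    have h2 : 1 ≤ ∏ j ∈ Finset.univ.erase i, ‖b j‖ := by
      calc (1 : ℝ) = ∏ _j ∈ Finset.univ.erase i, (1 : ℝ) := by simp
        _ ≤ _ := Finset.prod_le_prod (fun _ _ => zero_le_one)
            (fun j _ => one_le_norm_int (ne_zero_of_indep hbli j))
    have h3 : 0 ≤ ‖b i‖ := norm_nonneg _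
    nlinarith
  refine h1.trans (hbprod.trans ?_)
  exact mul_le_mul_of_nonneg_left hh (redC_pos d).le

theorem isRationalSub_span {n d : ℕ} {v : Fin (d + 1) → Fin (n + 1) → ℤ}
    (hv : LinearIndependent ℝ (fun i => intVec (v i))) :
    IsRationalSub d (Submodule.span ℝ (Set.range fun i => intVec (v i))) := by
  refine ⟨?_, Set.range v, ?_⟩
  · rw [finrank_span_eq_card hv, Fintype.card_fin]
  · rw [← Set.range_comp]
    rfl

theorem norm_pt_sub {d m : ℕ} (α : Fin d → ℝ) (z z' : Fin m → ℝ) :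
    ‖pt α z - pt α z'‖ ≤ Real.sqrt m * ‖z - z'‖ := by
  rw [EuclideanSpace.norm_eq, Fin.sum_univ_add]
  have h1 : ∀ i : Fin d, ‖(pt α z - pt α z') (Fin.castAdd m i)‖ ^ 2 = 0 := by
    intro i
    rw [PiLp.sub_apply, pt_castAdd, pt_castAdd, sub_self]
    simp
  have h2 : ∀ i : Fin m, ‖(pt α z - pt α z') (Fin.natAdd d i)‖ ^ 2 ≤ ‖z - z'‖ ^ 2 := by
    intro i
    rw [PiLp.sub_apply, pt_natAdd, pt_natAdd]
    exact pow_le_pow_left₀ (norm_nonneg _) (norm_le_pi_norm (z - z') i) 2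
  calc Real.sqrt (∑ i : Fin d, ‖(pt α z - pt α z') (Fin.castAdd m i)‖ ^ 2 +
        ∑ i : Fin m, ‖(pt α z - pt α z') (Fin.natAdd d i)‖ ^ 2)
      ≤ Real.sqrt (m * ‖z - z'‖ ^ 2) := by
        apply Real.sqrt_le_sqrt
        rw [Finset.sum_eq_zero (fun i _ => h1 i), zero_add]
        calc ∑ i : Fin m, ‖(pt α z - pt α z') (Fin.natAdd d i)‖ ^ 2
            ≤ ∑ _i : Fin m, ‖z - z'‖ ^ 2 := Finset.sum_le_sum (fun i _ => h2 i)
          _ = m * ‖z - z'‖ ^ 2 := by
              rw [Finset.sum_const, Finset.card_univ, Fintype.card_fin, nsmul_eq_mul]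
    _ = Real.sqrt m * ‖z - z'‖ := by
        rw [Real.sqrt_mul (Nat.cast_nonneg m), Real.sqrt_sq (norm_nonneg _)]

/-- The tuples of integer vectors whose span meets the vertical fibre over `α` in one point. -/
def Good (d m : ℕ) (α : Fin d → ℝ) (v : Fin (d + 1) → Fin (d + m + 1) → ℤ) : Prop :=
  LinearIndependent ℝ (fun i => intVec (v i)) ∧
    ∃ z : Fin m → ℝ, homog (pt α z) ∈ Submodule.span ℝ (Set.range fun i => intVec (v i)) ∧
      ∀ z', homog (pt α z') ∈ Submodule.span ℝ (Set.range fun i => intVec (v i)) → z' = z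

/-- The subspace spanned by the tuple. -/
noncomputable def spanOf {n d : ℕ} (v : Fin (d + 1) → Fin (n + 1) → ℤ) :
    Submodule ℝ (EuclideanSpace ℝ (Fin (n + 1))) :=
  Submodule.span ℝ (Set.range fun i => intVec (v i))

/-- The point of the fibre. -/
noncomputable def zOf {d m : ℕ} {α : Fin d → ℝ} (v : {v // Good d m α v}) : Fin m → ℝ :=
  v.2.2.choose

theorem zOf_mem {d m : ℕ} {α : Fin d → ℝ} (v : {v // Good d m α v}) :
    homog (pt α (zOf v)) ∈ spanOf v.1 := v.2.2.choose_spec.1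

theorem zOf_unique {d m : ℕ} {α : Fin d → ℝ} (v : {v // Good d m α v}) (z' : Fin m → ℝ)
    (h : homog (pt α z') ∈ spanOf v.1) : z' = zOf v := v.2.2.choose_spec.2 z' h

theorem finite_zOf (d m : ℕ) (α : Fin d → ℝ) (h : ℝ) :
    {z : Fin m → ℝ | ∃ v : {v // Good d m α v}, height d (spanOf v.1) ≤ h ∧ z = zOf v}.Finite := by
  classical
  apply ((finite_height_le (d + m) d h).image (fun L =>
    if hL : ∃ z : Fin m → ℝ, homog (pt α z) ∈ L ∧ ∀ z', homog (pt α z') ∈ L → z' = z then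
      hL.choose else 0)).subset
  rintro _ ⟨v, hv, rfl⟩
  refine ⟨spanOf v.1, ⟨isRationalSub_span v.2.1, hv⟩, ?_⟩
  have hL : ∃ z : Fin m → ℝ, homog (pt α z) ∈ spanOf v.1 ∧
      ∀ z', homog (pt α z') ∈ spanOf v.1 → z' = z := v.2.2
  simp only
  rw [dif_pos hL]
  exact zOf_unique v _ hL.choose_spec.1

theorem slice_full {d m : ℕ} (hm : 0 < m) (α : Fin d → ℝ) {τ : ℝ} (hτ0 : 0 < τ)
    (hτ : τ < ((d : ℝ) + m + 1) / m)
    (hae : ∀ᵐ z : Fin m → ℝ, ∃ l : ℕ, ∃ᶠ j : ℕ in atTop,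
      Balanced ((2 : ℝ) ^ j) (1 / ((l : ℝ) + 1)) (Fin.append α z)) :
    ∀ δ > 0, ∀ᵐ z : Fin m → ℝ, ∃ v : {v // Good d m α v},
      height d (spanOf v.1) ^ (-τ) < δ ∧
        z ∈ closedBall (zOf v) (height d (spanOf v.1) ^ (-τ)) := by
  intro δ hδ
  have hmR : (0 : ℝ) < m := by exact_mod_cast hm
  have hcount : ∀ᵐ z : Fin m → ℝ, ∀ v : {v // Good d m α v}, z ≠ zOf v := by
    rw [ae_all_iff]
    intro v
    haveI : Nonempty (Fin m) := ⟨⟨0, hm⟩⟩
    have h1 : volume ({zOf v} : Set (Fin m → ℝ)) = 0 := measure_singleton _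
    have h2 := measure_eq_zero_iff_ae_notMem.1 h1
    filter_upwards [h2] with z hz
    simpa using hz
  filter_upwards [hae, hcount] with z0 hz0 hz0'
  obtain ⟨l, hl⟩ := hz0
  set ε : ℝ := 1 / ((l : ℝ) + 1) with hε
  have hεpos : 0 < ε := by positivity
  obtain ⟨C, hC, hcons⟩ := construct α z0 hεpos
  set ρ : ℝ := ((d : ℝ) + m + 1) / m with hρ
  have hρτ : 0 < ρ - τ := by linarith
  have hρpos : 0 < ρ := by positivity
  set h0 : ℝ := max ((C * C ^ ρ) ^ (1 / (ρ - τ))) ((1 / δ) ^ (1 / τ)) with hh0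
  -- the finitely many points of small height are away from z0
  obtain ⟨η, hη, hηball⟩ : ∃ η > 0, ∀ v : {v // Good d m α v}, height d (spanOf v.1) ≤ h0 →
      η ≤ ‖zOf v - z0‖ := by
    have hfin := finite_zOf d m α h0
    have hcl := hfin.isClosed
    have hmem : z0 ∈ {z : Fin m → ℝ | ∃ v : {v // Good d m α v},
        height d (spanOf v.1) ≤ h0 ∧ z = zOf v}ᶜ := by
      rintro ⟨v, _, hv⟩
      exact hz0' v hv
    obtain ⟨η, hη, hball⟩ := Metric.isOpen_iff.1 hcl.isOpen_compl z0 hmem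
    refine ⟨η, hη, fun v hv => ?_⟩
    by_contra hcon
    push_neg at hcon
    have h1 : zOf v ∈ ball z0 η := by
      rw [mem_ball, dist_eq_norm]
      exact hcon
    exact hball h1 ⟨v, hv, rfl⟩
  have hlim : Tendsto (fun j : ℕ => C * (((2 : ℝ) ^ j) ^ (d + m + 1))⁻¹) atTop (𝓝 0) := by
    have h1 : ∀ j : ℕ, C * (((2 : ℝ) ^ j) ^ (d + m + 1))⁻¹ =
        C * (((2 : ℝ) ^ (d + m + 1))⁻¹) ^ j := by
      intro j
      rw [← pow_mul, inv_pow, ← pow_mul, mul_comm j]
    simp_rw [h1]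
    have h2 : Tendsto (fun j : ℕ => (((2 : ℝ) ^ (d + m + 1))⁻¹) ^ j) atTop (𝓝 0) := by
      apply tendsto_pow_atTop_nhds_zero_of_lt_one (by positivity)
      rw [inv_lt_one₀ (by positivity)]
      exact one_lt_pow₀ (by norm_num) (by omega)
    simpa using h2.const_mul C
  have hev : ∀ᶠ j : ℕ in atTop, C * (((2 : ℝ) ^ j) ^ (d + m + 1))⁻¹ < η :=
    (tendsto_order.1 hlim).2 η hη
  obtain ⟨j, hjbal, hjη⟩ := (hl.and_eventually hev).exists
  set Q : ℝ := (2 : ℝ) ^ j with hQ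
  have hQ1 : 1 ≤ Q := one_le_pow₀ (by norm_num)
  have hQ0 : 0 < Q := by linarith
  obtain ⟨v, hvli, hvH, z, hz1, hz2, hz3⟩ := hcons Q hQ1 hjbal
  set V : {v // Good d m α v} := ⟨v, hvli, z, hz1, hz2⟩ with hV
  have hzV : zOf V = z := (zOf_unique V z hz1).symm
  have hnorm : ‖zOf V - z0‖ ≤ C * (Q ^ (d + m + 1))⁻¹ := by
    rw [hzV, pi_norm_le_iff_of_nonneg (by positivity)]
    intro i
    exact hz3 i
  set H := height d (spanOf V.1) with hH
  have hHle : H ≤ C * Q ^ m := hvH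
  have hHgt : h0 < H := by
    by_contra hcon
    push_neg at hcon
    have h1 := hηball V hcon
    linarith
  have hH1 : 1 ≤ H := one_le_height (isRationalSub_span hvli)
  have hH0 : 0 < H := by linarith
  have hCH : C * (Q ^ (d + m + 1))⁻¹ ≤ C * C ^ ρ * H ^ (-ρ) := by
    have h1 : (H / C) ^ ρ ≤ Q ^ (d + m + 1) := by
      have h2 : H / C ≤ Q ^ m := by
        rw [div_le_iff₀ hC]
        linarith
      calc (H / C) ^ ρ ≤ (Q ^ m) ^ ρ := Real.rpow_le_rpow (by positivity) h2 hρpos.le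
        _ = Q ^ (d + m + 1) := by
            rw [← Real.rpow_natCast Q m, ← Real.rpow_mul hQ0.le, hρ]
            have h3 : (m : ℝ) * (((d : ℝ) + m + 1) / m) = ((d + m + 1 : ℕ) : ℝ) := by
              push_cast
              field_simp
            rw [h3, Real.rpow_natCast]
    have h4 : (Q ^ (d + m + 1))⁻¹ ≤ ((H / C) ^ ρ)⁻¹ := by
      apply inv_anti₀ (by positivity) h1
    calc C * (Q ^ (d + m + 1))⁻¹ ≤ C * ((H / C) ^ ρ)⁻¹ := by gcongr
      _ = C * C ^ ρ * H ^ (-ρ) := by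
          rw [Real.div_rpow hH0.le hC.le, inv_div, Real.rpow_neg hH0.le]
          ring
  have hC2 : C * C ^ ρ ≤ H ^ (ρ - τ) := by
    have h1 : (C * C ^ ρ) ^ (1 / (ρ - τ)) ≤ H := (le_max_left _ _).trans hHgt.le
    calc C * C ^ ρ = ((C * C ^ ρ) ^ (1 / (ρ - τ))) ^ (ρ - τ) := by
          rw [← Real.rpow_mul (by positivity), one_div_mul_cancel hρτ.ne', Real.rpow_one]
      _ ≤ H ^ (ρ - τ) := Real.rpow_le_rpow (by positivity) h1 hρτ.le
  refine ⟨V, ?_, ?_⟩
  · have h1 : (1 / δ) ^ (1 / τ) < H := lt_of_le_of_lt (le_max_right _ _) hHgt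
    have h2 : 1 / δ < H ^ τ := by
      calc 1 / δ = ((1 / δ) ^ (1 / τ)) ^ τ := by
            rw [← Real.rpow_mul (by positivity), one_div_mul_cancel hτ0.ne', Real.rpow_one]
        _ < H ^ τ := Real.rpow_lt_rpow (by positivity) h1 hτ0
    rw [Real.rpow_neg hH0.le, inv_lt_comm₀ (by positivity) hδ]
    rw [one_div] at h2
    exact h2
  · rw [mem_closedBall, dist_comm, dist_eq_norm]
    calc ‖zOf V - z0‖ ≤ C * (Q ^ (d + m + 1))⁻¹ := hnorm
      _ ≤ C * C ^ ρ * H ^ (-ρ) := hCH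
      _ ≤ H ^ (ρ - τ) * H ^ (-ρ) := by gcongr
      _ = H ^ (-τ) := by
          rw [← Real.rpow_add hH0]
          congr 1
          ring

theorem slice_lower {d m : ℕ} (hm : 0 < m) (α : Fin d → ℝ) {w s : ℝ}
    (hw : ((d : ℝ) + 1) / m < w) (hs : 0 < s) (hs2 : s < ((d : ℝ) + m + 1) / (w + 1))
    (hae : ∀ᵐ z : Fin m → ℝ, ∃ l : ℕ, ∃ᶠ j : ℕ in atTop,
      Balanced ((2 : ℝ) ^ j) (1 / ((l : ℝ) + 1)) (Fin.append α z)) :
    μH[s] {z : Fin m → ℝ | (w : EReal) ≤ omegaExp (d + m) d (pt α z)} ≠ 0 := by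
  have hmR : (0 : ℝ) < m := by exact_mod_cast hm
  have hd0 : (0 : ℝ) ≤ d := Nat.cast_nonneg d
  have hw0 : 0 < w := lt_trans (by positivity) hw
  set N : ℝ := (d : ℝ) + m + 1 with hN
  have hNpos : 0 < N := by positivity
  set κ : ℝ := s * (w + 1) with hκ
  have hκpos : 0 < κ := by positivity
  have hκN : κ < N := by
    rw [lt_div_iff₀ (by positivity)] at hs2
    exact hs2
  set w1 : ℝ := (κ + N) / (2 * s) - 1 with hw1
  have hw1' : s * (1 + w1) = (κ + N) / 2 := by
    rw [hw1]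
    field_simp
    ring
  have hww1 : w < w1 := by
    have h1 : s * (1 + w) < s * (1 + w1) := by
      rw [hw1', show s * (1 + w) = κ by rw [hκ]; ring]
      linarith
    have := lt_of_mul_lt_mul_left h1 hs.le
    linarith
  set τ : ℝ := ((κ + N) / 2 + N) / (2 * m) with hτ
  have hτpos : 0 < τ := by positivity
  have hτN : τ < N / m := by
    rw [hτ, div_lt_div_iff₀ (by positivity) hmR]
    nlinarith
  have hτw : τ < 1 + w1 := by
    have h1 : N / m = (d + 1) / m + 1 := by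
      rw [hN]
      field_simp
      ring
    linarith
  set a : ℝ := (1 + w1) / τ with ha
  have ha1 : 1 < a := by
    rw [ha, one_lt_div hτpos]
    exact hτw
  have hsa : s * a < m := by
    rw [ha, ← mul_div_assoc, hw1', div_lt_iff₀ hτpos, hτ]
    have h2 : (m : ℝ) * (((κ + N) / 2 + N) / (2 * m)) = ((κ + N) / 2 + N) / 2 := by
      field_simp
    rw [h2]
    linarith
  have hH1 : ∀ v : {v // Good d m α v}, 1 ≤ height d (spanOf v.1) := fun v =>
    one_le_height (isRationalSub_span v.2.1)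
  have hmtp := mtp_dim (zOf (d := d) (m := m) (α := α))
    (fun v => height d (spanOf v.1) ^ (-τ))
    (fun v => by
      have := hH1 v
      positivity)
    (slice_full hm α hτpos hτN hae) ha1 hs hsa
  intro h0
  apply hmtp
  apply measure_mono_null _ h0
  intro z hz
  simp only [Set.mem_setOf_eq] at hz ⊢
  apply le_sSup
  refine ⟨w, ?_, rfl⟩
  simp only [Set.mem_setOf_eq]
  by_contra hfin
  rw [Set.not_infinite] at hfin
  obtain ⟨h1, hh1⟩ := (hfin.image (fun L => height d L)).bddAbove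
  have hh1' : ∀ L : Submodule ℝ (EuclideanSpace ℝ (Fin (d + m + 1))), IsRationalSub d L →
      height d L * distTo (pt α z) L ≤ height d L ^ (-w) → height d L ≤ h1 := by
    intro L hL1 hL2
    exact hh1 ⟨L, ⟨hL1, hL2⟩, rfl⟩
  set h2 : ℝ := max (max h1 ((Real.sqrt m) ^ (1 / (w1 - w)))) 1 with hh2
  have hh2pos : 0 < h2 := lt_of_lt_of_le one_pos (le_max_right _ _)
  obtain ⟨v, hv1, hv2⟩ := hz (h2 ^ (-τ)) (by positivity)
  set H := height d (spanOf v.1) with hH
  have hHpos : 0 < H := lt_of_lt_of_le one_pos (hH1 v)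
  have hHh2 : h2 < H := by
    by_contra hcon
    push_neg at hcon
    have h3 : h2 ^ (-τ) ≤ H ^ (-τ) :=
      Real.rpow_le_rpow_of_nonpos hHpos hcon (by linarith)
    linarith
  have hHh1 : h1 < H := lt_of_le_of_lt ((le_max_left _ _).trans (le_max_left _ _)) hHh2
  have hHm : (Real.sqrt m) ^ (1 / (w1 - w)) ≤ H :=
    ((le_max_right _ _).trans (le_max_left _ _)).trans hHh2.le
  have hww : 0 < w1 - w := by linarith
  have hsq : Real.sqrt m ≤ H ^ (w1 - w) := by
    calc Real.sqrt m = ((Real.sqrt m) ^ (1 / (w1 - w))) ^ (w1 - w) := by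
          rw [← Real.rpow_mul (by positivity), one_div_mul_cancel hww.ne', Real.rpow_one]
      _ ≤ H ^ (w1 - w) := Real.rpow_le_rpow (by positivity) hHm hww.le
  have hra : (H ^ (-τ)) ^ a = H ^ (-(1 + w1)) := by
    rw [← Real.rpow_mul hHpos.le, ha]
    congr 1
    field_simp
  have hdist : distTo (pt α z) (spanOf v.1) ≤ Real.sqrt m * H ^ (-(1 + w1)) := by
    have h3 : distTo (pt α z) (spanOf v.1) ≤
        projDist (homog (pt α z)) (homog (pt α (zOf v))) := by
      apply csInf_le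
      · refine ⟨0, ?_⟩
        rintro _ ⟨y, _, rfl⟩
        exact projDist_nonneg _ _
      · exact ⟨_, ⟨zOf_mem v, homog_ne_zero _⟩, rfl⟩
    have h4 := projDist_le_dist (homog_ne_zero (pt α z)) (one_le_norm_homog (pt α (zOf v)))
    rw [norm_homog_sub] at h4
    have h5 := norm_pt_sub α (zOf v) z
    have h6 : ‖zOf v - z‖ ≤ H ^ (-(1 + w1)) := by
      rw [mem_closedBall, dist_comm, dist_eq_norm, hra] at hv2
      exact hv2
    calc distTo (pt α z) (spanOf v.1) ≤ _ := h3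
      _ ≤ _ := h4
      _ ≤ _ := h5
      _ ≤ _ := by gcongr
  have hfinal : H * distTo (pt α z) (spanOf v.1) ≤ H ^ (-w) := by
    calc H * distTo (pt α z) (spanOf v.1) ≤ H * (Real.sqrt m * H ^ (-(1 + w1))) := by gcongr
      _ ≤ H * (H ^ (w1 - w) * H ^ (-(1 + w1))) := by gcongr
      _ = H ^ (-w) := by
          rw [← Real.rpow_add hHpos]
          nth_rewrite 1 [← Real.rpow_one H]
          rw [← Real.rpow_add hHpos]
          congr 1
          ring
  have h7 := hh1' (spanOf v.1) (isRationalSub_span v.2.1) hfinal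
  linarith

/-- The coordinates `(α, z)` as a linear equivalence. -/
noncomputable def ptEquiv (d m : ℕ) :
    ((Fin d → ℝ) × (Fin m → ℝ)) ≃ₗ[ℝ] EuclideanSpace ℝ (Fin (d + m)) where
  toFun p := pt p.1 p.2
  invFun x := (fun i => x (Fin.castAdd m i), fun j => x (Fin.natAdd d j))
  map_add' p q := by
    ext i
    refine Fin.addCases (fun i => ?_) (fun i => ?_) i
    · rw [PiLp.add_apply, pt_castAdd, pt_castAdd, pt_castAdd]; rfl
    · rw [PiLp.add_apply, pt_natAdd, pt_natAdd, pt_natAdd]; rfl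
  map_smul' t p := by
    ext i
    refine Fin.addCases (fun i => ?_) (fun i => ?_) i
    · rw [PiLp.smul_apply, pt_castAdd, pt_castAdd]; rfl
    · rw [PiLp.smul_apply, pt_natAdd, pt_natAdd]; rfl
  left_inv p := by
    ext i
    · exact pt_castAdd p.1 p.2 i
    · exact pt_natAdd p.1 p.2 i
  right_inv x := by
    ext i
    refine Fin.addCases (fun i => ?_) (fun i => ?_) i
    · rw [pt_castAdd]
    · rw [pt_natAdd]

theorem lower_dim {d m : ℕ} (hm : 0 < m) {w : ℝ} (hw : ((d : ℝ) + 1) / m < w) :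
    ENNReal.ofReal (d + ((d : ℝ) + m + 1) / (w + 1)) ≤
      dimH {θ : EuclideanSpace ℝ (Fin (d + m)) | (w : EReal) ≤ omegaExp (d + m) d θ} := by
  have hmR : (0 : ℝ) < m := by exact_mod_cast hm
  have hd0 : (0 : ℝ) ≤ d := Nat.cast_nonneg d
  have hw0 : 0 < w := lt_trans (by positivity) hw
  set E := {θ : EuclideanSpace ℝ (Fin (d + m)) | (w : EReal) ≤ omegaExp (d + m) d θ} with hE
  set e := (ptEquiv d m).toContinuousLinearEquiv with he
  rw [← e.dimH_preimage E]
  set E' : Set ((Fin d → ℝ) × (Fin m → ℝ)) := e ⁻¹' E with hE'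
  have hkey : ∀ s : ℝ, 0 < s → s < ((d : ℝ) + m + 1) / (w + 1) →
      ENNReal.ofReal (d + s) ≤ dimH E' := by
    intro s hs hs2
    have hne : μH[(d : ℝ) + s] E' ≠ 0 := by
      intro h0
      have h1 := ae_slice_null hs E' h0
      have h2 := ae_ae_balanced d m
      obtain ⟨α, hα1, hα2⟩ := (h1.and h2).exists
      exact slice_lower hm α hw hs hs2 hα2 hα1
    have h3 : (((d : ℝ) + s).toNNReal : ℝ) = d + s := Real.coe_toNNReal _ (by positivity)
    have h4 := le_dimH_of_hausdorffMeasure_ne_zero (d := ((d : ℝ) + s).toNNReal) (s := E')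
      (by rw [h3]; exact hne)
    exact h4
  -- let `s` tend to the critical value
  set s0 : ℝ := ((d : ℝ) + m + 1) / (w + 1) with hs0
  have hs0pos : 0 < s0 := by positivity
  have hlim : Tendsto (fun s : ℝ => ENNReal.ofReal (d + s)) (𝓝[<] s0)
      (𝓝 (ENNReal.ofReal (d + s0))) := by
    have h1 : Continuous (fun s : ℝ => ENNReal.ofReal (d + s)) :=
      ENNReal.continuous_ofReal.comp (continuous_const.add continuous_id)
    exact (h1.tendsto s0).mono_left nhdsWithin_le_nhds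
  refine le_of_tendsto hlim ?_
  filter_upwards [Ioo_mem_nhdsLT hs0pos] with s hs
  exact hkey s hs.1 hs.2

end Pool.Agent.LibInterm
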